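import Pool.Agent.Y482.DX.Nrf
import Pool.Agent.Y852.PH.MX
import Pool.Agent.Y497.PH.Chix
import Pool.Agent.Y837.PH.Axx

/-!
# DX-MXF, DX-MXAF: the expansion for the decorated ring, `|m|` large, and for the ring with its axis

`t_MXF : Pool.Agent.Y481.DX.S_MXF`, `t_MXAF : Pool.Agent.Y481.DX.S_MXAF`.
-/

set_option autoImplicit false

namespace Pool.Agent.Y482.DX

open Finset Filter Topology Metric
open Pool.Agent.W711.HT hiding XX
open Pool.Agent.Y472
open Pool.Agent.Y481 (cw)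
open Pool.Agent.Y481.DR
open Pool.Agent.Y481.DX (DGX XLXFc S_FARF S_NRF S_MXF S_MXAF EA RCrit3F RCrit0F)
open Pool.Agent.Y529.DR (anl_of subl_of)
open Pool.Agent.Y482.Ph (nearS GXc S_CHIX S_AXX RVal0)
open Pool.Agent.W719.AX (UX EXY)
open Pool.Agent.Y852.PH.MX (exy_near nearS_mul pow_split twopi_ne)
open scoped Real

/-! ### The functions `X` -/

/-- the normalised functions -/
noncomputable def XY (ls : List (Vx × Vx)) (k : ℕ) (N : ℕ) (χ : ℂ) : ℂ :=
  if 2 ≤ N then (N : ℂ) ^ (2 * k) * XV ls N χ else 1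

theorem xy_eq {ls : List (Vx × Vx)} {k N : ℕ} (hN : 2 ≤ N) :
    XY ls k N = fun χ => (N : ℂ) ^ (2 * k) * XV ls N χ := by
  funext χ
  simp only [XY, if_pos hN]

theorem xv_eq {ls : List (Vx × Vx)} (hls : ls ≠ []) (ha : AnL ls) {N : ℕ} (hN : 2 ≤ N) (χ : ℂ) :
    XV ls N χ = (((N : ℂ) / (2 * π)) ^ (2 * ls.length))⁻¹ * TmV N ls χ := by
  have h1 : (N : ℂ) ≠ 0 := by
    have : N ≠ 0 := by omega
    exact_mod_cast this
  have h2 : (π : ℂ) ≠ 0 := by exact_mod_cast Real.pi_ne_zero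
  have h3 : ((N : ℂ) / (2 * π)) ^ (2 * ls.length) ≠ 0 :=
    pow_ne_zero _ (div_ne_zero h1 (mul_ne_zero two_ne_zero h2))
  rw [Pool.Agent.Y899.DR.t_KFV N ls χ hN hls ha, inv_mul_cancel_left₀ h3]

theorem xy_diff {ls : List (Vx × Vx)} (hls : ls ≠ []) (ha : AnL ls) (k N : ℕ) :
    Differentiable ℂ (XY ls k N) := by
  by_cases hN : 2 ≤ N
  · have : XY ls k N = fun χ => (N : ℂ) ^ (2 * k) *
        ((((N : ℂ) / (2 * π)) ^ (2 * ls.length))⁻¹ * TmV N ls χ) := by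
      rw [xy_eq hN]
      funext χ
      rw [xv_eq hls ha hN]
    rw [this]
    exact (differentiable_const _).mul ((differentiable_const _).mul (TmV_diff N ls))
  · have : XY ls k N = fun _ => 1 := by
      funext χ
      simp only [XY, if_neg hN]
    rw [this]
    exact differentiable_const _

theorem xy_even {ls : List (Vx × Vx)} (hls : ls ≠ []) (ha : AnL ls) (k N : ℕ) (z : ℂ) :
    XY ls k N (-z) = XY ls k N z := by
  by_cases hN : 2 ≤ N
  · rw [xy_eq hN]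
    simp only
    rw [xv_eq hls ha hN, xv_eq hls ha hN, TmV_congr N ls (Complex.cos_neg z)]
  · simp only [XY, if_neg hN]

theorem xy_gxc {ls : List (Vx × Vx)} {k : ℕ} {R : ℝ} {G : ℂ → ℂ} {A : ℕ → ℂ → ℂ}
    (h : GXc R (fun N χ => (N : ℂ) ^ (2 * k) * XV ls N χ) G A) : GXc R (XY ls k) G A := by
  refine ⟨fun K => ?_, h.an, h.nz⟩
  obtain ⟨C, hC⟩ := h.ux K
  refine ⟨C, ?_⟩
  filter_upwards [hC, eventually_ge_atTop 2] with N h1 h2 p hp
  rw [xy_eq h2]
  exact h1 p hp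

theorem near_bV (R : ℝ) {N : ℕ} (hN : 2 ≤ N) (ls : List (Vx × Vx)) (k : ℕ) (m : ℤ) :
    ((N : ℂ) / (2 * π)) ^ (2 * k) * nearS R N (deriv fun χ => wE N m χ * XV ls N χ) =
    (1 / (2 * π : ℂ) ^ (2 * k)) * nearS R N (deriv fun χ => wE N m χ * XY ls k N χ) := by
  rw [pow_split]
  congr 1
  have h1 : (deriv fun χ => wE N m χ * XY ls k N χ) =
      fun z => (N : ℂ) ^ (2 * k) * deriv (fun χ => wE N m χ * XV ls N χ) z := by
    funext z
    rw [← deriv_const_mul_field]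
    congr 1
    funext χ
    rw [xy_eq hN]
    ring
  rw [h1, nearS_mul]

theorem near_aV (R : ℝ) {N : ℕ} (hN : 2 ≤ N) (ls : List (Vx × Vx)) (k : ℕ) (m : ℤ) :
    ((N : ℂ) / (2 * π)) ^ (2 * k) * nearS R N (fun χ => Ea (2 * m) N χ * XV ls N χ) =
    (1 / (2 * π : ℂ) ^ (2 * k)) * nearS R N (fun χ => Ea (2 * m) N χ * XY ls k N χ) := by
  rw [pow_split]
  congr 1
  have h1 : (fun χ => Ea (2 * m) N χ * XY ls k N χ) =
      fun z => (N : ℂ) ^ (2 * k) * (Ea (2 * m) N z * XV ls N z) := by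
    funext z
    rw [xy_eq hN]
    ring
  rw [h1, nearS_mul]

/-! ### Assembly -/

theorem mxf_of (hCHI : S_CHIX) : S_MXF := by
  intro hXL hFAR hNR
  have hbet : 0 < bet := Pool.Agent.Y481.bet_pos
  obtain ⟨ρ₀, c, C, s, dl, hs, HXL⟩ := hXL
  refine ⟨ρ₀, c, C, s, dl, hs, fun R₀ B₀ hR₀ hB₀ k hk => ?_⟩
  obtain ⟨R, c', hR, hR1, hRρ, hRR₀, hc', B, C', M1, hB, hC', hM1, HX⟩ := HXL R₀ B₀ hR₀ hB₀ k hk
  obtain ⟨C2, M2, hC2, hM2, HC⟩ := hCHI R c' B (bet / 4) hR hR1 hc' (by positivity)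
  obtain ⟨κ, hκ, HN⟩ := hNR hFAR k R hk hR hR1
  set M : ℝ := max M1 (max M2 (max (4 * C' / κ) (max (4 * C2 / κ) (20 * C2)))) with hM
  have m1 : M1 ≤ M := le_max_left _ _
  have m2 : M2 ≤ M := (le_max_left _ _).trans (le_max_right _ _)
  have m3 : 4 * C' / κ ≤ M := (le_max_left _ _).trans ((le_max_right _ _).trans (le_max_right _ _))
  have m4 : 4 * C2 / κ ≤ M := (le_max_left _ _).trans ((le_max_right _ _).trans
    ((le_max_right _ _).trans (le_max_right _ _)))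
  have m5 : 20 * C2 ≤ M := (le_max_right _ _).trans ((le_max_right _ _).trans
    ((le_max_right _ _).trans (le_max_right _ _)))
  have hM0 : 0 < M := lt_of_lt_of_le hM1 m1
  refine ⟨M, fun ls F An m hlen hDG hls hm => ?_⟩
  have hls0 : ls ≠ [] := by
    rintro rfl
    simp at hlen
    omega
  have hsub : SubL ls := subl_of fun j hj => (hDG j (by rwa [hlen] at hj)).dg.sub
  have han := anl_of hsub
  have hm0 : 0 < |(m : ℝ)| := lt_of_lt_of_le hM0 hm
  obtain ⟨G, z, A, hGd, hGe, hGb, hGX, hz, hG0⟩ := HX ls F An hlen hDG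
    (fun j hj => m1.trans (hls j hj))
  obtain ⟨χ, hχ, hχim, hχn, hχcrit, hχval, y, hy0, hy⟩ := HC (XY ls k) G A (xy_diff hls0 han k)
    (xy_even hls0 han k) hGd hGe hGb (xy_gxc hGX) m (m2.trans hm)
  have hχR : χ ∈ Rc R R := ⟨by linarith [hχ.1], by linarith [hχ.2]⟩
  obtain ⟨hz1, hz2, hz3⟩ := hz χ hχR
  set V : ℂ := Complex.I * m * χ ^ 2 / (2 * π) + Complex.I * χ + G χ with hV
  have hRV : RVal3 s (2 * k) (cw (wl ls)) m (z χ) χ + ∑ j ∈ range (2 * k), F j (z χ j) = V := by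
    rw [hV, hz3]
    unfold RVal3
    simp only [sum_add_distrib]
    ring
  have hV1 : |V.re - (G 0).re| ≤ κ / 4 := by
    have h1 : C2 / |(m : ℝ)| ≤ κ / 4 := by
      rw [div_le_div_iff₀ hm0 (by norm_num)]
      have h2 : 4 * C2 ≤ M * κ := by rwa [div_le_iff₀ hκ] at m4
      nlinarith
    have h2 := Complex.abs_re_le_norm (V - G 0)
    rw [Complex.sub_re] at h2
    exact h2.trans (hχval.trans h1)
  have hV2 : |(G 0).re - 4 * k * bet| ≤ κ / 4 := by
    have h1 : C' / M ≤ κ / 4 := by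
      rw [div_le_div_iff₀ hM0 (by norm_num)]
      have h2 : 4 * C' ≤ M * κ := by rwa [div_le_iff₀ hκ] at m3
      nlinarith
    have h2 := Complex.abs_re_le_norm (G 0 - ((4 * k * bet : ℝ) : ℂ))
    rw [Complex.sub_re, Complex.ofReal_re] at h2
    exact h2.trans ((hG0 M hls hM0).trans h1)
  have hVlo : 4 * k * bet - κ / 2 ≤ V.re := by
    have e1 := (abs_le.1 hV1).1
    have e2 := (abs_le.1 hV2).1
    linarith
  -- the expansion
  have hS : EXY (fun N => ES N ls m) V (fun j => (1 / (2 * π : ℂ) ^ (2 * k)) * y j) := by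
    refine exy_near _ (half_pos hκ) hy ?_
    filter_upwards [HN ls m hlen hsub, eventually_ge_atTop 2] with N h1 h2
    rw [← near_bV R h2 ls k m]
    refine h1.1.trans (Real.exp_le_exp.2 (mul_le_mul_of_nonneg_left ?_ (Nat.cast_nonneg N)))
    linarith
  refine ⟨z χ, χ, fun j => (1 / (2 * π : ℂ) ^ (2 * k)) * y j, ⟨⟨by linarith [hχ.1], by linarith [hχ.2]⟩, hχim, ?_, fun j hj => ?_, ?_⟩,
    ?_, fun j hj => ?_, mul_ne_zero (twopi_ne k) hy0, ?_⟩
  · refine hχn.trans ?_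
    rw [div_le_iff₀ hm0]
    linarith
  · obtain ⟨a1, a2, a3, a4⟩ := hz1 j hj
    exact ⟨⟨by linarith [a1.1], by linarith [a1.2]⟩, a2, a3, a4⟩
  · rw [← hz2]
    exact hχcrit
  · refine hχn.trans_lt ?_
    rw [div_lt_iff₀ hm0]
    linarith
  · obtain ⟨a1, -⟩ := hz1 j hj
    exact ⟨by linarith [a1.1], by linarith [a1.2]⟩
  · rw [hRV]
    exact hS

theorem mxaf_of (hAXX : S_AXX) : S_MXAF := by
  intro hXL hFAR hNR
  obtain ⟨ρ₀, c, C, s, dl, hs, HXL⟩ := hXL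
  refine ⟨ρ₀, c, C, s, dl, hs, fun R₀ B₀ hR₀ hB₀ k hk => ?_⟩
  obtain ⟨R, c', hR, hR1, hRρ, hRR₀, hc', B, C', M1, hB, hC', hM1, HX⟩ := HXL R₀ B₀ hR₀ hB₀ k hk
  obtain ⟨κ, hκ, HN⟩ := hNR hFAR k R hk hR hR1
  set M : ℝ := max M1 (4 * C' / κ) with hM
  have m1 : M1 ≤ M := le_max_left _ _
  have m3 : 4 * C' / κ ≤ M := le_max_right _ _
  have hM0 : 0 < M := lt_of_lt_of_le hM1 m1
  refine ⟨M, fun ls F An m hlen hDG hls => ?_⟩
  have hls0 : ls ≠ [] := by
    rintro rfl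
    simp at hlen
    omega
  have hsub : SubL ls := subl_of fun j hj => (hDG j (by rwa [hlen] at hj)).dg.sub
  have han := anl_of hsub
  obtain ⟨G, z, A, hGd, hGe, hGb, hGX, hz, hG0⟩ := HX ls F An hlen hDG
    (fun j hj => m1.trans (hls j hj))
  obtain ⟨y, hy0, hy⟩ := hAXX R c' B hR hR1 hc' (XY ls k) G A (xy_diff hls0 han k)
    (xy_even hls0 han k) hGd hGe (fun w hw => ⟨(hGb w hw).1, (hGb w hw).2.1⟩) (xy_gxc hGX) m
  have h0R : (0 : ℂ) ∈ Rc R R := ⟨by simpa using hR, by simpa using hR⟩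
  obtain ⟨hz1, hz2, hz3⟩ := hz 0 h0R
  have hRV : RVal0 s (2 * k) (cw (wl ls)) (z 0) + ∑ j ∈ range (2 * k), F j (z 0 j) = G 0 := by
    rw [hz3]
    unfold RVal0
    simp only [sum_add_distrib]
    ring
  have hV2 : |(G 0).re - 4 * k * bet| ≤ κ / 4 := by
    have h1 : C' / M ≤ κ / 4 := by
      rw [div_le_div_iff₀ hM0 (by norm_num)]
      have h2 : 4 * C' ≤ M * κ := by rwa [div_le_iff₀ hκ] at m3
      nlinarith
    have h2 := Complex.abs_re_le_norm (G 0 - ((4 * k * bet : ℝ) : ℂ))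
    rw [Complex.sub_re, Complex.ofReal_re] at h2
    exact h2.trans ((hG0 M hls hM0).trans h1)
  have hVlo : 4 * k * bet - κ / 4 ≤ (G 0).re := by
    have e2 := (abs_le.1 hV2).1
    linarith
  have hS : EXY (fun N => N * EA N ls m) (G 0) (fun j => (1 / (2 * π : ℂ) ^ (2 * k)) * y j) := by
    refine exy_near _ (half_pos hκ) hy ?_
    have hbig : ∀ᶠ N : ℕ in atTop, 32 / κ ^ 2 ≤ (N : ℝ) :=
      tendsto_natCast_atTop_atTop.eventually_ge_atTop _
    filter_upwards [HN ls m hlen hsub, eventually_ge_atTop 2, hbig] with N h1 h2 h3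
    have hN0 : (0 : ℝ) < N := by
      have : 0 < N := by omega
      exact_mod_cast this
    have e : (N : ℂ) * EA N ls m - (1 / (2 * π : ℂ) ^ (2 * k)) *
        (N * nearS R N (fun χ => Ea (2 * m) N χ * XY ls k N χ)) =
        N * (EA N ls m - ((N : ℂ) / (2 * π)) ^ (2 * k) *
          nearS R N (fun χ => Ea (2 * m) N χ * XV ls N χ)) := by
      rw [near_aV R h2 ls k m]
      ring
    rw [e, norm_mul, Complex.norm_natCast]
    have h4 : (N : ℝ) ≤ Real.exp (N * (κ / 4)) := by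
      have h5 := Real.pow_div_factorial_le_exp (N * (κ / 4)) (by positivity) 2
      refine le_trans ?_ h5
      have h6 : (Nat.factorial 2 : ℝ) = 2 := by norm_num [Nat.factorial]
      rw [h6, le_div_iff₀ (by norm_num)]
      rw [div_le_iff₀ (by positivity)] at h3
      have h7 : (N * (κ / 4)) ^ 2 = N * (N * κ ^ 2) / 16 := by ring
      rw [h7]
      have h8 : N * 32 ≤ N * (N * κ ^ 2) := mul_le_mul_of_nonneg_left h3 hN0.le
      linarith
    calc (N : ℝ) * ‖EA N ls m - ((N : ℂ) / (2 * π)) ^ (2 * k) *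
          nearS R N (fun χ => Ea (2 * m) N χ * XV ls N χ)‖
        ≤ Real.exp (N * (κ / 4)) * Real.exp (N * (4 * k * bet - κ)) :=
          mul_le_mul h4 h1.2 (norm_nonneg _) (Real.exp_pos _).le
      _ = Real.exp (N * (4 * k * bet - κ / 4 - κ / 2)) := by
          rw [← Real.exp_add]; congr 1; ring
      _ ≤ Real.exp (N * ((G 0).re - κ / 2)) := by
          refine Real.exp_le_exp.2 (mul_le_mul_of_nonneg_left ?_ hN0.le)
          linarith
  refine ⟨z 0, fun j => (1 / (2 * π : ℂ) ^ (2 * k)) * y j, fun j hj => ?_, fun j hj => ?_, mul_ne_zero (twopi_ne k) hy0, ?_⟩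
  · obtain ⟨a1, a2, a3, a4⟩ := hz1 j hj
    exact ⟨⟨by linarith [a1.1], by linarith [a1.2]⟩, a2, a3, a4⟩
  · obtain ⟨a1, -⟩ := hz1 j hj
    exact ⟨by linarith [a1.1], by linarith [a1.2]⟩
  · rw [hRV]
    exact hS

/-- MXF -/
theorem t_MXF : S_MXF := mxf_of Pool.Agent.Y497.PH.chix

/-- MXAF -/
theorem t_MXAF : S_MXAF := mxaf_of Pool.Agent.Y837.PH.axx

end Pool.Agent.Y482.DX
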