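import Pool.Agent.Y482.DX.Farf
import Pool.Agent.Y529.DR.V2
import Pool.Agent.Y899.DR.KFV
import Pool.Agent.Y833.PH.Nr

/-!
# DX-NRF: reduction of the exact sums of the decorated ring to the neighbourhood of `χ = 0`

`t_NRF : Pool.Agent.Y481.DX.S_NRF`.
-/

set_option autoImplicit false

namespace Pool.Agent.Y482.DX

open Finset Filter Topology Metric
open Pool.Agent.W711.HT hiding XX
open Pool.Agent.Y472 Pool.Agent.Y833.CB
open Pool.Agent.Y481.DR
open Pool.Agent.Y481.DX (FXF S_FARF S_NRF EA)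
open Pool.Agent.Y529.DR (TV_diff TV_congr ES_eq rV gV anl_of subl_of MBV_diff mul_MBV_diff)
open Pool.Agent.Y482.Ph (nearS)
open Pool.Agent.Y833.PH (hbet poly_abs Ea_add Ea_real)
open scoped Real

lemma TmV_diff (N : ℕ) (ls : List (Vx × Vx)) : Differentiable ℂ (TmV N ls) :=
  trace_diff ls (fun q χ => Matrix.diagonal (fun i : Fin N => if N - 1 - (N - 1) / 2 ≤ (i : ℕ) then (1 : ℂ) else 0) *
    MAV N q.1 * Matrix.diagonal (fun i : Fin N => if (i : ℕ) ≤ (N - 1) / 2 then (1 : ℂ) else 0) *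
    MBV N χ q.2) fun q i j => mul_MBV_diff N _ _ i j

lemma TmV_congr (N : ℕ) (ls : List (Vx × Vx)) {χ χ' : ℂ} (h : Complex.cos χ = Complex.cos χ') :
    TmV N ls χ = TmV N ls χ' := by
  unfold TmV
  simp only [Pool.Agent.Y529.DR.MBV_congr N h]

/-- the bound of `TV` away from the origin -/
lemma far_TV {N : ℕ} {ls : List (Vx × Vx)} {ρs R τ' E κ : ℝ} (hN : 1 ≤ N) (hκ : 0 ≤ κ) (hρs : 0 < ρs)
    (hR : 0 < R) (hR1 : R ≤ 1) (hNR : 1 / (N : ℝ) ≤ R / 8) (hNτ : 1 / (N : ℝ) ≤ τ')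
    (h : ∀ χ : ℂ, |χ.re| ≤ π → |χ.im| ≤ τ' →
      ‖TV N ls χ‖ ≤ Real.exp (N * (E - κ * min |χ.re| ρs ^ 2)))
    {x : ℝ} (hx : R / 4 ≤ |x|) (hx1 : |x| ≤ π) {w : ℂ} (hw : ‖w - (x : ℂ)‖ = 1 / N) :
    ‖TV N ls w‖ ≤ Real.exp (N * (E - κ * min (R / 8) ρs ^ 2)) := by
  have hπ := Real.pi_gt_three
  obtain ⟨h1, h2⟩ := near_pt hw
  have key : ∀ v : ℂ, |v.re| ≤ π → |v.im| ≤ τ' → R / 8 ≤ |v.re| →
      ‖TV N ls v‖ ≤ Real.exp (N * (E - κ * min (R / 8) ρs ^ 2)) := by
    intro v hv1 hv2 hv3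
    refine (h v hv1 hv2).trans (Real.exp_le_exp.2 ?_)
    have h3 : min (R / 8) ρs ^ 2 ≤ min |v.re| ρs ^ 2 := by
      have : 0 ≤ min (R / 8) ρs := by positivity
      gcongr
    gcongr
  have h3 : |x| ≤ |w.re| + 1 / N := by
    have := abs_sub_abs_le_abs_sub x w.re
    rw [abs_sub_comm] at this
    linarith
  have h4 : |w.re| ≤ |x| + 1 / N := by
    have := abs_sub_abs_le_abs_sub w.re x
    linarith
  have hN1 : 1 / (N : ℝ) ≤ 1 / 8 := hNR.trans (by linarith)
  rcases le_or_gt |w.re| π with hc | hc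
  · exact key w hc (h2.trans hNτ) (by linarith)
  · rcases le_or_gt 0 w.re with h0 | h0
    · rw [abs_of_nonneg h0] at hc h4
      have e1 : TV N ls w = TV N ls (w - 2 * π) := TV_congr N ls (Complex.cos_sub_two_pi w).symm
      have e2 : (w - 2 * π : ℂ).re = w.re - 2 * π := by simp
      have e3 : (w - 2 * π : ℂ).im = w.im := by simp
      rw [e1]
      refine key _ ?_ ?_ ?_
      · rw [e2, abs_le]; constructor <;> linarith
      · rw [e3]; exact h2.trans hNτ
      · rw [e2, abs_of_nonpos (by linarith)]; linarith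
    · rw [abs_of_neg h0] at hc h4
      have e1 : TV N ls w = TV N ls (w + 2 * π) := TV_congr N ls (Complex.cos_add_two_pi w).symm
      have e2 : (w + 2 * π : ℂ).re = w.re + 2 * π := by simp
      have e3 : (w + 2 * π : ℂ).im = w.im := by simp
      rw [e1]
      refine key _ ?_ ?_ ?_
      · rw [e2, abs_le]; constructor <;> linarith
      · rw [e3]; exact h2.trans hNτ
      · rw [e2, abs_of_nonneg (by linarith)]; linarith

lemma err_bdF (hbet : 0 < bet) {ρs : ℝ} (hρs : 0 < ρs) {ls : List (Vx × Vx)} (hls : ls ≠ [])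
    (hF : FXF ρs ls) (hKF : S_KFV) (hsub : SubL ls) {R : ℝ} (hR : 0 < R) (hR1 : R ≤ 1) (m : ℤ) :
    ∃ A : ℝ, 0 < A ∧ ∀ᶠ N : ℕ in atTop,
      ‖ES N ls m - ((N : ℂ) / (2 * π)) ^ (2 * ls.length) *
        ∑ p ∈ Icc (-(⌊R / 4 * N / (2 * π)⌋₊ : ℤ)) ⌊R / 4 * N / (2 * π)⌋₊,
          deriv (fun χ => wE N m χ * XV ls N χ) (2 * π * p / N)‖ ≤
      A * N ^ 2 * Real.exp (N * (4 * ls.length * bet -
        min (ls.length * c1 * min (R / 8) ρs ^ 2) (bet / 2))) := by
  obtain ⟨τ, hτ, F1, F2, F3⟩ := hF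
  have hπ := Real.pi_gt_three
  have hc1 : 0 < c1 := by unfold c1; positivity
  have hk : 0 < (ls.length : ℝ) := by
    have := List.length_pos_of_ne_nil hls
    exact_mod_cast this
  set κ : ℝ := ls.length * c1 * min (R / 8) ρs ^ 2 with hκ
  have hκ0 : 0 < κ := by positivity
  obtain ⟨τ', hτ', F2⟩ := F2 κ hκ0
  set μ := min κ (bet / 2) with hμ
  set K : ℝ := 4 * ls.length * bet with hK
  set W : ℝ := Real.exp (1 + 2 * |(m : ℝ)|) with hW
  have hW0 : 0 < W := Real.exp_pos _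
  refine ⟨2 * |(m : ℝ)| * W + W + W, by positivity, ?_⟩
  have t1 : ∀ᶠ N : ℕ in atTop, 1 / (N : ℝ) ≤ min (R / 8) (min τ τ') := by
    have := tendsto_one_div_atTop_nhds_zero_nat (𝕜 := ℝ)
    exact (this.eventually_lt_const (u := min (R / 8) (min τ τ')) (by positivity)).mono
      fun N hN => hN.le
  filter_upwards [F1, F2, F3, t1, eventually_ge_atTop 2] with N F1 F2 F3 t1 hN2
  have hN0 : 0 < N := by omega
  have hN' : (0 : ℝ) < N := by exact_mod_cast hN0
  have hN1 : (1 : ℝ) ≤ N := by exact_mod_cast hN0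
  have tR : 1 / (N : ℝ) ≤ R / 8 := t1.trans (min_le_left _ _)
  have tτ : 1 / (N : ℝ) ≤ τ := t1.trans ((min_le_right _ _).trans (min_le_left _ _))
  have tτ' : 1 / (N : ℝ) ≤ τ' := t1.trans ((min_le_right _ _).trans (min_le_right _ _))
  set P : ℕ := ⌊R / 4 * N / (2 * π)⌋₊ with hP
  have hPle : (P : ℝ) ≤ R / 4 * N / (2 * π) := Nat.floor_le (by positivity)
  have hPgt : R / 4 * N / (2 * π) < P + 1 := Nat.lt_floor_add_one _
  have hP2 : 2 * P < N := by
    have h1 : (2 * P : ℝ) < N := by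
      have h2 : R / 4 * N / (2 * π) ≤ N / 24 := by
        rw [div_le_div_iff₀ (by positivity) (by norm_num)]
        nlinarith
      linarith
    exact_mod_cast h1
  -- the small exponentials
  set E1 : ℝ := Real.exp (N * ((4 * ls.length - 1 / 2) * bet)) with hE1
  set E2 : ℝ := Real.exp (N * (K - κ)) with hE2
  set E3 : ℝ := Real.exp (N * (K - μ)) with hE3
  have hE13 : E1 ≤ E3 := by
    refine Real.exp_le_exp.2 (mul_le_mul_of_nonneg_left ?_ hN'.le)
    have : μ ≤ bet / 2 := min_le_right _ _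
    rw [hK]; linarith
  have hE23 : E2 ≤ E3 := by
    refine Real.exp_le_exp.2 (mul_le_mul_of_nonneg_left ?_ hN'.le)
    have : μ ≤ κ := min_le_left _ _
    linarith
  -- the decomposition
  rw [ES_eq N hN0, ← sum_filter_add_sum_filter_not (range N) (fun p => |rp N p| ≤ (P : ℤ)),
    sum_near N P hP2]
  have hdec : (∑ q ∈ Icc (-(P : ℤ)) P, gV N ls m q + ∑ p ∈ (range N).filter (fun p => ¬ |rp N p| ≤ (P : ℤ)),
      gV N ls m (rp N p) + ∑ p ∈ range N, rV N ls m p) - ((N : ℂ) / (2 * π)) ^ (2 * ls.length) *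
        ∑ p ∈ Icc (-(P : ℤ)) P, deriv (fun χ => wE N m χ * XV ls N χ) (2 * π * p / N) =
      ∑ p ∈ range N, rV N ls m p + ∑ p ∈ (range N).filter (fun p => ¬ |rp N p| ≤ (P : ℤ)),
      gV N ls m (rp N p) + ∑ q ∈ Icc (-(P : ℤ)) P, (gV N ls m q - ((N : ℂ) / (2 * π)) ^ (2 * ls.length) *
        deriv (fun χ => wE N m χ * XV ls N χ) (2 * π * q / N)) := by
    rw [sum_sub_distrib, mul_sum]
    ring
  rw [hdec]
  -- first error
  have hchi : ∀ p : ℕ, p < N → |(2 * π * p / N : ℂ).re| ≤ 2 * π ∧ |(2 * π * p / N : ℂ).im| ≤ 1 / N := by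
    intro p hp
    have e := re_chi p N
    push_cast at e
    rw [e]
    have e2 : ((2 : ℂ) * π * p / N) = ((2 * π * p / N : ℝ) : ℂ) := by push_cast; rfl
    rw [e2, Complex.ofReal_re, Complex.ofReal_im, abs_zero]
    refine ⟨?_, by positivity⟩
    rw [abs_of_nonneg (by positivity), div_le_iff₀ hN']
    have : (p : ℝ) ≤ N := by exact_mod_cast hp.le
    have := Real.pi_pos
    gcongr
  have hr : ∀ p ∈ range N, ‖rV N ls m p‖ ≤ 2 * |(m : ℝ)| * W * N * E3 := by
    intro p hp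
    rw [mem_range] at hp
    have hwp := wE_bd N (by omega) m _ (hchi p hp).1 (hchi p hp).2
    have gen : ∀ t : ℂ, ‖t‖ ≤ E1 → ‖2 * Complex.I * m * N * (wE N m (2 * π * p / N) * t)‖ ≤
        2 * |(m : ℝ)| * W * N * E3 := by
      intro t ht
      have e : ‖2 * Complex.I * m * N * (wE N m (2 * π * p / N) * t)‖ =
          2 * |(m : ℝ)| * N * (‖wE N m (2 * π * p / N)‖ * ‖t‖) := by
        rw [norm_mul, norm_mul, norm_mul, norm_mul, norm_mul, Complex.norm_I, Complex.norm_intCast]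
        simp
      rw [e]
      have : ‖wE N m (2 * π * p / N)‖ * ‖t‖ ≤ W * E3 :=
        mul_le_mul hwp (ht.trans hE13) (norm_nonneg _) hW0.le
      calc 2 * |(m : ℝ)| * N * (‖wE N m (2 * π * p / N)‖ * ‖t‖) ≤ 2 * |(m : ℝ)| * N * (W * E3) := by
            gcongr
        _ = _ := by ring
    unfold rV
    split_ifs with h
    · rw [norm_neg]
      exact gen _ ((F3 p hp).1 (by omega))
    · exact gen _ ((F3 p hp).2 (by omega))
  have hs1 : ‖∑ p ∈ range N, rV N ls m p‖ ≤ 2 * |(m : ℝ)| * W * N ^ 2 * E3 := by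
    refine (norm_sum_le_of_le _ hr).trans ?_
    rw [sum_const, card_range, nsmul_eq_mul]
    apply le_of_eq
    ring
  -- Cauchy on circles
  have hw2 : ∀ (x : ℝ) (w : ℂ), |x| ≤ π → ‖w - (x : ℂ)‖ = 1 / N → ‖wE N m w‖ ≤ W := by
    intro x w hx hw
    obtain ⟨h1, h2⟩ := near_pt hw
    refine wE_bd N (by omega) m w ?_ h2
    have h4 : |w.re| ≤ |x| + 1 / N := by
      have := abs_sub_abs_le_abs_sub w.re x
      linarith
    linarith
  -- second error
  have hs2 : ‖∑ p ∈ (range N).filter (fun p => ¬ |rp N p| ≤ (P : ℤ)), gV N ls m (rp N p)‖ ≤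
      W * N ^ 2 * E3 := by
    have hg : ∀ p ∈ (range N).filter (fun p => ¬ |rp N p| ≤ (P : ℤ)), ‖gV N ls m (rp N p)‖ ≤
        W * N * E3 := by
      intro p hp
      rw [mem_filter, mem_range] at hp
      obtain ⟨hp1, hp2⟩ := hp
      have hq1 : (P : ℤ) + 1 ≤ |rp N p| := by omega
      have hq2 : 2 * |rp N p| ≤ N := by
        unfold rp
        split_ifs with h
        · rw [abs_of_nonneg (by omega)]; omega
        · rw [abs_of_neg (by omega)]; omega
      set x : ℝ := 2 * π * (rp N p : ℝ) / N with hx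
      have hxc : (2 * π * ((rp N p : ℤ) : ℂ) / N : ℂ) = (x : ℂ) := by rw [hx]; push_cast; rfl
      have hqr1 : ((P : ℝ) + 1) ≤ |(rp N p : ℝ)| := by exact_mod_cast hq1
      have hqr2 : 2 * |(rp N p : ℝ)| ≤ N := by exact_mod_cast hq2
      have hxa : |x| = 2 * π * |(rp N p : ℝ)| / N := by
        rw [hx, abs_div, abs_mul, abs_of_pos (by positivity : (0 : ℝ) < 2 * π), abs_of_pos hN']
      have hx1 : |x| ≤ π := by
        rw [hxa, div_le_iff₀ hN']
        nlinarith
      have hx2 : R / 4 ≤ |x| := by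
        rw [hxa, le_div_iff₀ hN']
        have h6 : R / 4 * N / (2 * π) ≤ |(rp N p : ℝ)| := by linarith
        rw [div_le_iff₀ (by positivity)] at h6
        linarith
      unfold gV
      rw [hxc]
      have h7 : ∀ w, ‖w - (x : ℂ)‖ = 1 / (N : ℝ) → ‖wE N m w * TV N ls w‖ ≤ W * E2 := by
        intro w hw
        rw [norm_mul]
        refine mul_le_mul (hw2 x w hx1 hw) ?_ (norm_nonneg _) hW0.le
        have h8 := far_TV (E := K + κ) (κ := 2 * ls.length * c1) (by omega : 1 ≤ N) (by positivity)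
          hρs hR hR1 tR tτ' (fun χ a b => (F2 χ a b).trans (le_of_eq (by congr 2; ring))) hx2 hx1 hw
        refine h8.trans (le_of_eq ?_)
        rw [hE2]
        congr 2
        rw [hκ]
        ring
      have h9 := cauchy ((wE_diff N m).mul (TV_diff N ls)) (x : ℂ) (one_div_pos.2 hN') h7
      refine h9.trans ?_
      rw [div_div_eq_mul_div, div_one]
      have : W * E2 * N ≤ W * E3 * N := by gcongr
      linarith
    refine (norm_sum_le_of_le _ hg).trans ?_
    rw [sum_const, nsmul_eq_mul]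
    have hcard : (((range N).filter (fun p => ¬ |rp N p| ≤ (P : ℤ))).card : ℝ) ≤ N := by
      have := card_filter_le (range N) (fun p => ¬ |rp N p| ≤ (P : ℤ))
      rw [card_range] at this
      exact_mod_cast this
    calc _ ≤ (N : ℝ) * (W * N * E3) := by
          have : 0 ≤ W * N * E3 := by positivity
          gcongr
      _ = _ := by ring
  -- third error
  have hs3 : ‖∑ q ∈ Icc (-(P : ℤ)) P, (gV N ls m q - ((N : ℂ) / (2 * π)) ^ (2 * ls.length) *
        deriv (fun χ => wE N m χ * XV ls N χ) (2 * π * q / N))‖ ≤ W * N ^ 2 * E3 := by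
    have hg : ∀ q ∈ Icc (-(P : ℤ)) P, ‖gV N ls m q - ((N : ℂ) / (2 * π)) ^ (2 * ls.length) *
        deriv (fun χ => wE N m χ * XV ls N χ) (2 * π * q / N)‖ ≤ W * N * E3 := by
      intro q hq
      rw [mem_Icc, ← abs_le] at hq
      set x : ℝ := 2 * π * (q : ℝ) / N with hx
      have hxc : (2 * π * ((q : ℤ) : ℂ) / N : ℂ) = (x : ℂ) := by rw [hx]; push_cast; rfl
      have hqr : |(q : ℝ)| ≤ P := by exact_mod_cast hq
      have hxa : |x| = 2 * π * |(q : ℝ)| / N := by
        rw [hx, abs_div, abs_mul, abs_of_pos (by positivity : (0 : ℝ) < 2 * π), abs_of_pos hN']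
      have hx1 : |x| ≤ R / 4 := by
        rw [hxa, div_le_iff₀ hN']
        have h6 : |(q : ℝ)| ≤ R / 4 * N / (2 * π) := by linarith
        rw [le_div_iff₀ (by positivity)] at h6
        linarith
      unfold gV
      rw [hxc]
      have hfun : (fun χ => wE N m χ * (TV N ls χ - TmV N ls χ)) = fun χ => wE N m χ * TV N ls χ -
          ((N : ℂ) / (2 * π)) ^ (2 * ls.length) * (wE N m χ * XV ls N χ) := by
        funext χ
        rw [hKF N ls χ hN2 hls (anl_of hsub)]
        ring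
      have hXd : Differentiable ℂ (fun χ => ((N : ℂ) / (2 * π)) ^ (2 * ls.length) *
          (wE N m χ * XV ls N χ)) := by
        have : (fun χ => ((N : ℂ) / (2 * π)) ^ (2 * ls.length) * (wE N m χ * XV ls N χ)) =
            fun χ => wE N m χ * TmV N ls χ := by
          funext χ
          rw [hKF N ls χ hN2 hls (anl_of hsub)]
          ring
        rw [this]
        exact (wE_diff N m).mul (TmV_diff N ls)
      have hTd : DifferentiableAt ℂ (fun χ => wE N m χ * TV N ls χ) (x : ℂ) :=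
        ((wE_diff N m).mul (TV_diff N ls)) _
      have hd : deriv (fun χ => wE N m χ * (TV N ls χ - TmV N ls χ)) (x : ℂ) =
          deriv (fun χ => wE N m χ * TV N ls χ) (x : ℂ) - ((N : ℂ) / (2 * π)) ^ (2 * ls.length) *
            deriv (fun χ => wE N m χ * XV ls N χ) (x : ℂ) := by
        rw [hfun, deriv_fun_sub hTd (hXd _)]
        congr 1
        exact deriv_const_mul_field _
      rw [← hd]
      have h7 : ∀ w, ‖w - (x : ℂ)‖ = 1 / (N : ℝ) → ‖wE N m w * (TV N ls w - TmV N ls w)‖ ≤ W * E1 := by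
        intro w hw
        obtain ⟨h1, h2⟩ := near_pt hw
        rw [norm_mul]
        refine mul_le_mul (hw2 x w (by linarith) hw) (F1 w ?_ (h2.trans tτ)) (norm_nonneg _) hW0.le
        have h4 : |w.re| ≤ |x| + 1 / N := by
          have := abs_sub_abs_le_abs_sub w.re x
          linarith
        linarith
      have h9 := cauchy ((wE_diff N m).mul ((TV_diff N ls).sub (TmV_diff N ls))) (x : ℂ)
        (one_div_pos.2 hN') h7
      refine h9.trans ?_
      rw [div_div_eq_mul_div, div_one]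
      have : W * E1 * N ≤ W * E3 * N := by gcongr
      linarith
    refine (norm_sum_le_of_le _ hg).trans ?_
    rw [sum_const, nsmul_eq_mul]
    have hcard : ((Icc (-(P : ℤ)) P).card : ℝ) ≤ N := by
      rw [Int.card_Icc]
      have : ((P : ℤ) + 1 - -(P : ℤ)).toNat ≤ N := by omega
      exact_mod_cast this
    calc _ ≤ (N : ℝ) * (W * N * E3) := by
          have : 0 ≤ W * N * E3 := by positivity
          gcongr
      _ = _ := by ring
  refine (norm_add_le _ _).trans ((add_le_add (norm_add_le _ _) le_rfl).trans ?_)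
  have : (2 * |(m : ℝ)| * W + W + W) * N ^ 2 * E3 =
    2 * |(m : ℝ)| * W * N ^ 2 * E3 + W * N ^ 2 * E3 + W * N ^ 2 * E3 := by ring
  rw [this]
  linarith

theorem nrf1 (hF : S_FARF) (k : ℕ) (R : ℝ) (hk : 1 ≤ k) (hR : 0 < R) (hR1 : R ≤ 1) :
    ∃ κ : ℝ, 0 < κ ∧ ∀ (ls : List (Vx × Vx)) (m : ℤ), ls.length = k → SubL ls →
      ∀ᶠ N : ℕ in atTop, ‖ES N ls m - ((N : ℂ) / (2 * π)) ^ (2 * k) *
        nearS R N (deriv fun χ => wE N m χ * XV ls N χ)‖ ≤ Real.exp (N * (4 * k * bet - κ)) := by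
  obtain ⟨ρs, hρs, -, HF⟩ := hF
  have hc1 : 0 < c1 := by have := Real.pi_pos; unfold c1; positivity
  have hb := hbet
  have hk0 : (0 : ℝ) < k := by exact_mod_cast hk
  set μ : ℝ := min (k * c1 * min (R / 8) ρs ^ 2) (bet / 2) with hμ
  have hμ0 : 0 < μ := by positivity
  refine ⟨μ / 2, by positivity, fun ls m hlen hsub => ?_⟩
  have hls0 : ls ≠ [] := by
    rintro rfl
    simp at hlen
    omega
  obtain ⟨A, hA, herr⟩ := err_bdF hb hρs hls0 (HF ls hls0 hsub) Pool.Agent.Y899.DR.t_KFV hsub hR hR1 m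
  filter_upwards [herr, poly_abs 2 hA (half_pos hμ0)] with N h1 h2
  rw [hlen] at h1
  refine h1.trans ?_
  rw [← hμ]
  calc A * N ^ 2 * Real.exp (N * (4 * k * bet - μ))
      ≤ Real.exp (N * (μ / 2)) * Real.exp (N * (4 * k * bet - μ)) := by gcongr
    _ = _ := by rw [← Real.exp_add]; congr 1; ring

/-- the terms of the sum -/
noncomputable def hV (N : ℕ) (ls : List (Vx × Vx)) (m : ℤ) (q : ℤ) : ℂ :=
  Ea (2 * m) N (2 * π * q / N) * TV N ls (2 * π * q / N)

lemma EA_eq (N : ℕ) (hN : 0 < N) (ls : List (Vx × Vx)) (m : ℤ) :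
    EA N ls m = ∑ p ∈ range N, hV N ls m (rp N p) := by
  have hN' : (N : ℂ) ≠ 0 := by exact_mod_cast hN.ne'
  unfold EA
  refine sum_congr rfl fun p _ => ?_
  unfold hV rp
  split_ifs with h
  · rw [Int.cast_natCast]
  · have h2 : (2 * π * (((p : ℤ) - N : ℤ) : ℂ) / N + 2 * π : ℂ) = 2 * π * p / N := by
      push_cast
      field_simp
      ring
    have he : Complex.exp (2 * Complex.I * m * N * (2 * π * (((p : ℤ) - N : ℤ) : ℂ) / N)) = 1 := by
      rw [show (2 * Complex.I * m * N * (2 * π * (((p : ℤ) - N : ℤ) : ℂ) / N) : ℂ) =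
        2 * π * Complex.I * ((2 * m * (p - N) : ℤ) : ℂ) by push_cast; field_simp]
      exact exp_int _
    rw [← h2, Ea_add, TV_congr N ls (Complex.cos_add_two_pi _), he, mul_one]

theorem nrf2 (hF : S_FARF) (k : ℕ) (R : ℝ) (hk : 1 ≤ k) (hR : 0 < R) (hR1 : R ≤ 1) :
    ∃ κ : ℝ, 0 < κ ∧ ∀ (ls : List (Vx × Vx)) (m : ℤ), ls.length = k → SubL ls →
      ∀ᶠ N : ℕ in atTop, ‖EA N ls m - ((N : ℂ) / (2 * π)) ^ (2 * k) *
        nearS R N (fun χ => Ea (2 * m) N χ * XV ls N χ)‖ ≤ Real.exp (N * (4 * k * bet - κ)) := by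
  obtain ⟨ρs, hρs, -, HF⟩ := hF
  have hπ := Real.pi_gt_three
  have hc1 : 0 < c1 := by unfold c1; positivity
  have hb := hbet
  have hk0 : (0 : ℝ) < k := by exact_mod_cast hk
  set κ : ℝ := k * c1 * min (R / 8) ρs ^ 2 with hκ
  have hκ0 : 0 < κ := by positivity
  set μ : ℝ := min κ (bet / 2) with hμ
  have hμ0 : 0 < μ := by positivity
  refine ⟨μ / 2, by positivity, fun ls m hlen hsub => ?_⟩
  have hls0 : ls ≠ [] := by
    rintro rfl
    simp at hlen
    omega
  obtain ⟨τ, hτ, F1, F2, -⟩ := HF ls hls0 hsub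
  obtain ⟨τ', hτ', F2⟩ := F2 κ hκ0
  filter_upwards [F1, F2, eventually_ge_atTop 2, poly_abs 1 (A := 2) two_pos (half_pos hμ0)] with
    N F1 F2 hN2 hpoly
  have hN0 : 0 < N := by omega
  have hN' : (0 : ℝ) < N := by exact_mod_cast hN0
  set P : ℕ := ⌊R / 4 * N / (2 * π)⌋₊ with hP
  have hPle : (P : ℝ) ≤ R / 4 * N / (2 * π) := Nat.floor_le (by positivity)
  have hPgt : R / 4 * N / (2 * π) < P + 1 := Nat.lt_floor_add_one _
  have hP2 : 2 * P < N := by
    have h1 : (2 * P : ℝ) < N := by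
      have h2 : R / 4 * N / (2 * π) ≤ N / 24 := by
        rw [div_le_div_iff₀ (by positivity) (by norm_num)]
        nlinarith
      linarith
    exact_mod_cast h1
  rw [hlen] at F1 F2
  set K : ℝ := 4 * k * bet with hK
  set E3 : ℝ := Real.exp (N * (K - μ)) with hE3
  have hE13 : Real.exp (N * ((4 * k - 1 / 2) * bet)) ≤ E3 := by
    refine Real.exp_le_exp.2 (mul_le_mul_of_nonneg_left ?_ hN'.le)
    have : μ ≤ bet / 2 := min_le_right _ _
    rw [hK]; linarith
  have hxr : ∀ q : ℤ, (2 * π * (q : ℂ) / N : ℂ) = ((2 * π * (q : ℝ) / N : ℝ) : ℂ) := by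
    intro q; push_cast; rfl
  rw [EA_eq N hN0, ← sum_filter_add_sum_filter_not (range N) (fun p => |rp N p| ≤ (P : ℤ)),
    sum_near N P hP2]
  unfold nearS
  rw [← hP]
  have hdec : (∑ q ∈ Icc (-(P : ℤ)) P, hV N ls m q + ∑ p ∈ (range N).filter (fun p => ¬ |rp N p| ≤ (P : ℤ)),
      hV N ls m (rp N p)) - ((N : ℂ) / (2 * π)) ^ (2 * k) *
        ∑ p ∈ Icc (-(P : ℤ)) P, Ea (2 * m) N (2 * π * p / N) * XV ls N (2 * π * p / N) =
      ∑ p ∈ (range N).filter (fun p => ¬ |rp N p| ≤ (P : ℤ)), hV N ls m (rp N p) +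
      ∑ q ∈ Icc (-(P : ℤ)) P, (hV N ls m q - ((N : ℂ) / (2 * π)) ^ (2 * k) *
        (Ea (2 * m) N (2 * π * q / N) * XV ls N (2 * π * q / N))) := by
    rw [sum_sub_distrib, mul_sum]
    ring
  rw [hdec]
  -- far part
  have hs2 : ‖∑ p ∈ (range N).filter (fun p => ¬ |rp N p| ≤ (P : ℤ)), hV N ls m (rp N p)‖ ≤
      N * E3 := by
    have hg : ∀ p ∈ (range N).filter (fun p => ¬ |rp N p| ≤ (P : ℤ)), ‖hV N ls m (rp N p)‖ ≤ E3 := by
      intro p hp
      rw [mem_filter, mem_range] at hp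
      obtain ⟨hp1, hp2⟩ := hp
      have hq1 : (P : ℤ) + 1 ≤ |rp N p| := by omega
      have hq2 : 2 * |rp N p| ≤ N := by
        unfold rp
        split_ifs with h
        · rw [abs_of_nonneg (by omega)]; omega
        · rw [abs_of_neg (by omega)]; omega
      have hqr1 : ((P : ℝ) + 1) ≤ |(rp N p : ℝ)| := by exact_mod_cast hq1
      have hqr2 : 2 * |(rp N p : ℝ)| ≤ N := by exact_mod_cast hq2
      unfold hV
      rw [hxr]
      set x : ℝ := 2 * π * (rp N p : ℝ) / N with hx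
      have hxa : |x| = 2 * π * |(rp N p : ℝ)| / N := by
        rw [hx, abs_div, abs_mul, abs_of_pos (by positivity : (0 : ℝ) < 2 * π), abs_of_pos hN']
      have hx1 : |x| ≤ π := by
        rw [hxa, div_le_iff₀ hN']
        nlinarith
      have hx2 : R / 4 ≤ |x| := by
        rw [hxa, le_div_iff₀ hN']
        have h6 : R / 4 * N / (2 * π) ≤ |(rp N p : ℝ)| := by linarith
        rw [div_le_iff₀ (by positivity)] at h6
        linarith
      rw [norm_mul, Ea_real, one_mul]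
      have h3 := F2 (x : ℂ) (by rw [Complex.ofReal_re]; exact hx1)
        (by rw [Complex.ofReal_im, abs_zero]; exact hτ'.le)
      refine h3.trans (Real.exp_le_exp.2 (mul_le_mul_of_nonneg_left ?_ hN'.le))
      rw [Complex.ofReal_re]
      have h4 : min (R / 8) ρs ^ 2 ≤ min |x| ρs ^ 2 := by
        have h5 : R / 8 ≤ |x| := by linarith
        have : 0 ≤ min (R / 8) ρs := by positivity
        gcongr
      have h5 : κ ≤ k * c1 * min |x| ρs ^ 2 := by
        rw [hκ]; gcongr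
      have h6 : μ ≤ κ := min_le_left _ _
      linarith
    refine (norm_sum_le_of_le _ hg).trans ?_
    rw [sum_const, nsmul_eq_mul]
    have hcard : (((range N).filter (fun p => ¬ |rp N p| ≤ (P : ℤ))).card : ℝ) ≤ N := by
      have := card_filter_le (range N) (fun p => ¬ |rp N p| ≤ (P : ℤ))
      rw [card_range] at this
      exact_mod_cast this
    have : 0 ≤ E3 := (Real.exp_pos _).le
    gcongr
  -- near part
  have hs3 : ‖∑ q ∈ Icc (-(P : ℤ)) P, (hV N ls m q - ((N : ℂ) / (2 * π)) ^ (2 * k) *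
        (Ea (2 * m) N (2 * π * q / N) * XV ls N (2 * π * q / N)))‖ ≤ N * E3 := by
    have hg : ∀ q ∈ Icc (-(P : ℤ)) P, ‖hV N ls m q - ((N : ℂ) / (2 * π)) ^ (2 * k) *
        (Ea (2 * m) N (2 * π * q / N) * XV ls N (2 * π * q / N))‖ ≤ E3 := by
      intro q hq
      rw [mem_Icc, ← abs_le] at hq
      have hqr : |(q : ℝ)| ≤ P := by exact_mod_cast hq
      unfold hV
      rw [hxr]
      set x : ℝ := 2 * π * (q : ℝ) / N with hx
      have hxa : |x| = 2 * π * |(q : ℝ)| / N := by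
        rw [hx, abs_div, abs_mul, abs_of_pos (by positivity : (0 : ℝ) < 2 * π), abs_of_pos hN']
      have hx1 : |x| ≤ R / 4 := by
        rw [hxa, div_le_iff₀ hN']
        have h6 : |(q : ℝ)| ≤ R / 4 * N / (2 * π) := by linarith
        rw [le_div_iff₀ (by positivity)] at h6
        linarith
      have e1 : Ea (2 * m) N (x : ℂ) * TV N ls (x : ℂ) - ((N : ℂ) / (2 * π)) ^ (2 * k) *
          (Ea (2 * m) N (x : ℂ) * XV ls N (x : ℂ)) =
          Ea (2 * m) N (x : ℂ) * (TV N ls (x : ℂ) - TmV N ls (x : ℂ)) := by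
        rw [Pool.Agent.Y899.DR.t_KFV N ls _ hN2 hls0 (anl_of hsub), hlen]
        ring
      rw [e1, norm_mul, Ea_real, one_mul]
      exact (F1 (x : ℂ) (by rw [Complex.ofReal_re]; linarith)
        (by rw [Complex.ofReal_im, abs_zero]; exact hτ.le)).trans hE13
    refine (norm_sum_le_of_le _ hg).trans ?_
    rw [sum_const, nsmul_eq_mul]
    have hcard : ((Icc (-(P : ℤ)) P).card : ℝ) ≤ N := by
      rw [Int.card_Icc]
      have : ((P : ℤ) + 1 - -(P : ℤ)).toNat ≤ N := by omega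
      exact_mod_cast this
    have : 0 ≤ E3 := (Real.exp_pos _).le
    gcongr
  refine (norm_add_le _ _).trans ((add_le_add hs2 hs3).trans ?_)
  rw [pow_one] at hpoly
  calc (N : ℝ) * E3 + N * E3 = 2 * N * E3 := by ring
    _ ≤ Real.exp (N * (μ / 2)) * Real.exp (N * (K - μ)) := by rw [hE3]; gcongr
    _ = _ := by rw [← Real.exp_add]; congr 1; ring



/-- NRF -/
theorem t_NRF : S_NRF := by
  intro hF k R hk hR hR1
  obtain ⟨κ₁, h1, H1⟩ := nrf1 hF k R hk hR hR1
  obtain ⟨κ₂, h2, H2⟩ := nrf2 hF k R hk hR hR1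
  refine ⟨min κ₁ κ₂, lt_min h1 h2, fun ls m hlen hsub => ?_⟩
  filter_upwards [H1 ls m hlen hsub, H2 ls m hlen hsub] with N a b
  refine ⟨a.trans (Real.exp_le_exp.2 (mul_le_mul_of_nonneg_left ?_ (Nat.cast_nonneg N))),
    b.trans (Real.exp_le_exp.2 (mul_le_mul_of_nonneg_left ?_ (Nat.cast_nonneg N)))⟩
  · linarith [min_le_left κ₁ κ₂]
  · linarith [min_le_right κ₁ κ₂]

end Pool.Agent.Y482.DX
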