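import Pool.Agent.Y482.DX.CvF

/-!
# The complex volume of a ring of trees: critical configurations
-/

set_option autoImplicit false

namespace Pool.Agent.Y482.DX

open Finset
open Complex (exp log cos sin I)
open Pool.Agent.TH563.UV (Tb PB AB)
open Pool.Agent.TH609.UV (ang lg hpt)
open Pool.Agent.W711.HT hiding XX
open Pool.Agent.W719.AR (Fl)
open Pool.Agent.Y472 (SDZ SD3 RVal3 Rz Zr S_S0P szz dzz)
open Pool.Agent.Y481.DR (VD DAng dVol CritD RCritF crit_ang S_GEOD vdD)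
open Pool.Agent.Y481.DX (DAngA RCrit3F RCrit0F S_GEOD3 S_GEODA)
open Pool.Agent.Y482 (sum_succ_mod)
open Pool.Agent.Y482.Chi (HX rlam rho Lc lg_lc der2x den_ne)
open Pool.Agent.Y482.Cv (cf cg cF cG blk blkz bg_of_bx)
open Pool.Agent.Y482.Cz (BG Near)
open Pool.Agent.Y482.Ph (RVal0)
open scoped Real

/-- near `χ₀` -/
theorem cvZ (hS0 : S_S0P) (hGD : S_GEOD) {ρ τ κ cc : ℝ} {s dl : ℂ → ℂ → ℂ}
    (hK : KD ρ τ κ cc s dl) {χ₀ : ℂ} (hZ : Zr χ₀) : ∃ ε : ℝ, 0 < ε ∧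
    ∀ ρ₀ c C : ℝ, SDZ χ₀ ρ₀ c C szz dzz →
    ∀ (n : ℕ) (m : ℤ) (p : ℕ → PB) (sh : ℕ → Tb) (χ : ℂ), 1 ≤ n →
      (∀ j < n, (p j).bl = false ∧ (p j).Crt s ρ τ ∧ (p j).rz ∈ Rc ρ τ ∧ ‖(p j).rz‖ ≤ ε) →
      (∀ j < n, (p j).shape = sh j) → ‖χ - χ₀‖ ≤ ε →
      RCritF szz χ₀ ρ₀ n (fun j => (p j).wt) (fun j => (p j).gs s) m (fun j => (p j).rz) χ →
      CVG n (-2) (PC n m sh) (RVal3 szz n (fun j => (p j).wt) m (fun j => (p j).rz) χ +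
        ∑ j ∈ range n, (p j).vl s - π * I / 4 * ∑ j ∈ range n, ((sh j).ws : ℂ)) := by
  obtain ⟨ε₁, hε₁, hN⟩ := Pool.Agent.Y482.Cz.near hZ
  obtain ⟨Λ, hΛ⟩ := Pool.Agent.Y482.Cz.ex_prim
  obtain ⟨Θ, hΘ⟩ := blkz hS0
  obtain ⟨ε₂, hε₂, hG⟩ := hGD hS0 ρ τ κ cc s dl hK χ₀ hZ
  refine ⟨min (min ε₁ ε₂) (1 / 10), lt_min (lt_min hε₁ hε₂) (by norm_num), ?_⟩
  intro ρ₀ c C hS n m p sh χ hn hp hsh hχ h
  have l1 : min (min ε₁ ε₂) (1 / 10) ≤ ε₁ := (min_le_left _ _).trans (min_le_left _ _)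
  have l2 : min (min ε₁ ε₂) (1 / 10) ≤ ε₂ := (min_le_left _ _).trans (min_le_right _ _)
  have hz : ∀ j < n, ‖(p j).rz‖ ≤ ε₁ := fun j hj => (hp j hj).2.2.2.trans l1
  have hi : ∀ j < n, _ := fun j hj => Pool.Agent.TH609.UV.ind Pool.Agent.W583.HTP.poth hK (p j)
    (hp j hj).2.1 (hp j hj).2.2.1 ((hp j hj).2.2.2.trans (min_le_right _ _))
  have hcr := Pool.Agent.Y481.DR.crit_of hS0 hS hΛ hN h (fun j hj => (hi j hj).1) hz (hχ.trans l1)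
  have hgr := hG ρ₀ c C hS n m p χ hn (fun j hj => ⟨(hp j hj).1, (hp j hj).2.1, (hp j hj).2.2.1,
    (hp j hj).2.2.2.trans l2⟩) (hχ.trans l2) h
  obtain ⟨mc, hv, -⟩ := h
  refine cvg_closed hK hn (Θ := Θ) (z := fun j => (p j).rz)
    (u := fun j => 2 * π * dzz (p j).rz (p ((j + 1) % n)).rz χ)
    (sv := fun j => szz (p j).rz (p ((j + 1) % n)).rz χ) (fun _ => rfl) hsh
    (fun j hj => ⟨(hp j hj).2.1, (hp j hj).2.2.1, (hp j hj).2.2.2.trans (min_le_right _ _)⟩)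
    hcr ?_ rfl hgr
  intro j hj
  have h1 : (j + 1) % n < n := Nat.mod_lt _ (by omega)
  exact hΘ χ₀ ε₁ hN ρ₀ c C szz dzz hS _ _ χ (hv j hj).1 (hv _ h1).1 mc (hz j hj) (hz _ h1)
    (hχ.trans l1) _ rfl

section
variable {ρ₀ c C : ℝ} {s3 dl3 : ℂ → ℂ → ℂ → ℂ}

lemma bg3 (hS : SD3 ρ₀ c C s3 dl3) {ψ ψ' χ : ℂ} (m1 : ψ ∈ Rc ρ₀ ρ₀) (m2 : ψ' ∈ Rc ρ₀ ρ₀)
    (mc : χ ∈ Rc ρ₀ ρ₀) (i1 : 0 < ψ.im) (i2 : 0 < ψ'.im) (n1 : ‖ψ‖ ≤ 1 / 10) (n2 : ‖ψ'‖ ≤ 1 / 10)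
    (nc : ‖χ‖ < 1 / 10) : BG (2 * π * dl3 ψ ψ' χ / 2) (ψ / 2) (ψ' / 2) (χ / 2) := by
  have z0 : ∀ w : ℂ, 0 < w.im → w ≠ 0 := by
    intro w hw h0
    rw [h0] at hw
    simp at hw
  have hX : HX ψ ψ' χ (2 * π * dl3 ψ ψ' χ) := by
    refine ⟨z0 _ i1, z0 _ i2, n1, n2, nc, ?_, ?_⟩
    · have h3 := (hS.dclose _ m1 _ m2 _ mc).1
      rw [show (2 : ℂ) * π * dl3 ψ ψ' χ - π / 2 = 2 * π * (dl3 ψ ψ' χ - 1 / 4) by ring, norm_mul,
        norm_mul, Complex.norm_ofNat, Complex.norm_real, Real.norm_eq_abs, abs_of_pos Real.pi_pos]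
      nlinarith [Real.pi_pos]
    · have h3 := hS.dcos _ m1 _ m2 _ mc
      have h4 : (1 + Complex.cos χ + Complex.cos ψ + Complex.cos ψ') ≠ 0 := by
        have n1' : ‖ψ / 2‖ ≤ 1 / 20 := by rw [norm_div, Complex.norm_ofNat]; linarith
        have n2' : ‖ψ' / 2‖ ≤ 1 / 20 := by rw [norm_div, Complex.norm_ofNat]; linarith
        have n3' : ‖χ / 2‖ ≤ 1 / 20 := by rw [norm_div, Complex.norm_ofNat]; linarith
        have := (den_ne n1' n2' n3').1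
        rwa [show 2 * (χ / 2) = χ by ring, show 2 * (ψ / 2) = ψ by ring,
          show 2 * (ψ' / 2) = ψ' by ring] at this
      rw [h3, div_mul_cancel₀ _ h4]
  exact bg_of_bx hX.bx.2

/-- the critical points of the potential -/
theorem crit3F (hS : SD3 ρ₀ c C s3 dl3) {n : ℕ} {a : ℕ → ℤ} {g L : ℕ → ℂ} {m : ℤ} {z : ℕ → ℂ}
    {χ : ℂ} (h : RCrit3F s3 ρ₀ n a g m z χ) (hg : ∀ j < n, g j = -(1 / (2 * π)) * L j)
    (hχ : ‖χ‖ < 1 / 10) :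
    CritD n a L m z χ (fun j => 2 * π * dl3 (z j) (z ((j + 1) % n)) χ) := by
  obtain ⟨mc, ic, -, hv, ha⟩ := h
  have hpi : (π : ℂ) ≠ 0 := Complex.ofReal_ne_zero.2 Real.pi_ne_zero
  refine ⟨?_, ?_, ?_⟩
  · intro j hj
    have h1 : (j + 1) % n < n := Nat.mod_lt _ (by omega)
    obtain ⟨m1, i1, n1, -⟩ := hv j hj
    obtain ⟨m2, i2, n2, -⟩ := hv _ h1
    exact bg3 hS m1 m2 mc i1 i2 n1 n2 hχ
  · intro j hj
    have h1 : (j + 1) % n < n := Nat.mod_lt _ (by omega)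
    have h2 : ((j + 1) % n + 1) % n < n := Nat.mod_lt _ (by omega)
    obtain ⟨m1, -, -, e1⟩ := hv j hj
    obtain ⟨m2, -⟩ := hv _ h1
    obtain ⟨m3, -⟩ := hv _ h2
    rw [der2x hS m1 m2 mc, (hS.sder _ m2 _ m3 _ mc).deriv, hg _ h1] at e1
    have h3 : (2 : ℂ) * π * (Complex.I * a ((j + 1) % n) * z ((j + 1) % n) / (2 * π) + Complex.I +
      -(1 / (2 * π)) * L ((j + 1) % n) +
      -(1 / (2 * π)) * Lg (2 * π * dl3 (z j) (z ((j + 1) % n)) χ) (z ((j + 1) % n)) +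
      -(1 / (2 * π)) * Lg (2 * π * dl3 (z ((j + 1) % n)) (z (((j + 1) % n + 1) % n)) χ)
        (z ((j + 1) % n))) = 0 := by rw [e1, mul_zero]
    field_simp at h3
    linear_combination h3
  · have e2 : ∀ j ∈ range n, deriv (fun w => s3 (z j) (z ((j + 1) % n)) w) χ =
        -(1 / (2 * π)) * Lc (2 * π * dl3 (z j) (z ((j + 1) % n)) χ) χ := by
      intro j hj
      rw [mem_range] at hj
      have h1 : (j + 1) % n < n := Nat.mod_lt _ (by omega)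
      obtain ⟨m1, -⟩ := hv j hj
      obtain ⟨m2, -⟩ := hv _ h1
      rw [(hS.sderc _ m1 _ m2 _ mc).deriv, lg_lc]
    rw [sum_congr rfl e2, ← mul_sum] at ha
    have h3 : (2 : ℂ) * π * (Complex.I * m * χ / π + Complex.I + -(1 / (2 * π)) *
      ∑ j ∈ range n, Lc (2 * π * dl3 (z j) (z ((j + 1) % n)) χ) χ) = 0 := by rw [ha, mul_zero]
    field_simp at h3
    linear_combination h3

/-- the critical points of the potential at `χ = 0` -/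
theorem crit0F (hS : SD3 ρ₀ c C s3 dl3) {n : ℕ} {a : ℕ → ℤ} {g L : ℕ → ℂ} {z : ℕ → ℂ}
    (h : RCrit0F s3 ρ₀ n a g z) (hg : ∀ j < n, g j = -(1 / (2 * π)) * L j) :
    CritDA n a L z (fun j => 2 * π * dl3 (z j) (z ((j + 1) % n)) 0) := by
  have hpi : (π : ℂ) ≠ 0 := Complex.ofReal_ne_zero.2 Real.pi_ne_zero
  have m0 : (0 : ℂ) ∈ Rc ρ₀ ρ₀ := by
    constructor
    · simpa using hS.hρ.1
    · simpa using hS.hρ.1
  refine ⟨?_, ?_⟩
  · intro j hj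
    have h1 : (j + 1) % n < n := Nat.mod_lt _ (by omega)
    obtain ⟨m1, i1, n1, -⟩ := h j hj
    obtain ⟨m2, i2, n2, -⟩ := h _ h1
    exact bg3 hS m1 m2 m0 i1 i2 n1 n2 (by simp)
  · intro j hj
    have h1 : (j + 1) % n < n := Nat.mod_lt _ (by omega)
    have h2 : ((j + 1) % n + 1) % n < n := Nat.mod_lt _ (by omega)
    obtain ⟨m1, -, -, e1⟩ := h j hj
    obtain ⟨m2, -⟩ := h _ h1
    obtain ⟨m3, -⟩ := h _ h2
    rw [der2x hS m1 m2 m0, (hS.sder _ m2 _ m3 _ m0).deriv, hg _ h1] at e1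
    have h3 : (2 : ℂ) * π * (Complex.I * a ((j + 1) % n) * z ((j + 1) % n) / (2 * π) + Complex.I +
      -(1 / (2 * π)) * L ((j + 1) % n) +
      -(1 / (2 * π)) * Lg (2 * π * dl3 (z j) (z ((j + 1) % n)) 0) (z ((j + 1) % n)) +
      -(1 / (2 * π)) * Lg (2 * π * dl3 (z ((j + 1) % n)) (z (((j + 1) % n + 1) % n)) 0)
        (z ((j + 1) % n))) = 0 := by rw [e1, mul_zero]
    field_simp at h3
    linear_combination h3

/-- near `χ = 0`, the closed ring -/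
theorem cv3 (hGD : S_GEOD3) {ρ τ κ cc : ℝ} {s dl : ℂ → ℂ → ℂ} (hK : KD ρ τ κ cc s dl)
    (hS : SD3 ρ₀ c C s3 dl3) {n : ℕ} {m : ℤ} {p : ℕ → PB} {sh : ℕ → Tb} {χ : ℂ} (hn : 1 ≤ n)
    (hp : ∀ j < n, (p j).bl = false ∧ (p j).Crt s ρ τ ∧ (p j).rz ∈ Rc ρ τ)
    (hsh : ∀ j < n, (p j).shape = sh j) (hχ : ‖χ‖ < 1 / 10)
    (h : RCrit3F s3 ρ₀ n (fun j => (p j).wt) (fun j => (p j).gs s) m (fun j => (p j).rz) χ) :
    CVG n (-2) (PC n m sh) (RVal3 s3 n (fun j => (p j).wt) m (fun j => (p j).rz) χ +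
      ∑ j ∈ range n, (p j).vl s - π * I / 4 * ∑ j ∈ range n, ((sh j).ws : ℂ)) := by
  obtain ⟨Θ, hΘ⟩ := blk
  have hgr := hGD ρ τ κ cc s dl hK ρ₀ c C s3 dl3 hS n m p χ hn hp hχ h
  have hi : ∀ j < n, _ := fun j hj => Pool.Agent.TH609.UV.ind Pool.Agent.W583.HTP.poth hK (p j)
    (hp j hj).2.1 (hp j hj).2.2 (h.2.2.2.1 j hj).2.2.1
  have hcr := crit3F hS h (fun j hj => (hi j hj).1) hχ
  obtain ⟨mc, ic, nc, hv, -⟩ := h
  refine cvg_closed hK hn (Θ := Θ) (z := fun j => (p j).rz)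
    (u := fun j => 2 * π * dl3 (p j).rz (p ((j + 1) % n)).rz χ)
    (sv := fun j => s3 (p j).rz (p ((j + 1) % n)).rz χ) (fun _ => rfl) hsh
    (fun j hj => ⟨(hp j hj).2.1, (hp j hj).2.2, (hv j hj).2.2.1⟩) hcr ?_ rfl hgr
  intro j hj
  have h1 : (j + 1) % n < n := Nat.mod_lt _ (by omega)
  exact hΘ ρ₀ c C s3 dl3 hS _ _ χ (hv j hj).1 (hv _ h1).1 mc (hv j hj).2.2.1 (hv _ h1).2.2.1 nc _
    rfl

/-- at `χ = 0`: the critical structure is an angle structure -/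
theorem crit_angA {dl : ℂ → ℂ → ℂ} {n : ℕ} {p : ℕ → PB} {z u : ℕ → ℂ} (hn : 1 ≤ n)
    (hz : ∀ j, z j = (p j).rz) (hp : ∀ j < n, hpt dl (p j) ∧ Pool.Agent.TH609.UV.lcr dl (p j))
    (h : CritDA n (fun j => (p j).wt) (fun j => lg dl (p j)) z u) :
    DAngA n (fun j => ang dl (p j)) (cf z 0 u) (cg n z 0 u) (cF z 0 u) (cG n z 0 u) := by
  refine ⟨?_, ?_, ?_, ?_, ?_, ?_⟩
  · intro j hj
    exact (h.bz j hj).pos
  · intro j hj
    have k := Pool.Agent.Y482.Cz.blkAng (h.bz j hj)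
    exact ⟨k.dA, k.dB⟩
  · intro j hj
    exact Pool.Agent.TH609.UV.ang_isok dl _ (hp j hj).1 (hp j hj).2
  · intro j hj
    have h1 : (j + 1) % n < n := Nat.mod_lt _ (by omega)
    have he := h.lgr hj
    have e2 : z ((j + 1) % n) / 2 = (p ((j + 1) % n)).rz / 2 := by rw [hz]
    have hb1 := h.bz j hj
    have hb2 := h.bz _ h1
    rw [e2] at he hb1 hb2
    rw [show 2 * ((p ((j + 1) % n)).rz / 2) = (p ((j + 1) % n)).rz by ring] at he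
    have := vdD (hp _ h1).1 hb1 hb2 he
    rw [Pool.Agent.TH609.UV.ang_wt]
    unfold cf cg cF cG
    rw [e2]
    exact this
  · have q := Pool.Agent.Y482.Cz.blkAng (h.bz 0 (by omega))
    have q1 := q.TA
    have q2 := q.CAt
    have z0 : (0 / 2 : ℂ).re = 0 := by simp
    rw [z0] at q1 q2
    unfold rlam cf cg cF cG
    linarith
  · have hr : ∀ j ∈ range n, rho (cf z 0 u j) (cg n z 0 u j) (cF z 0 u j) (cG n z 0 u j) =
        (2 * (Complex.log (Complex.cos (z j / 2))).im -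
          2 * (Complex.log (Complex.cos (z ((j + 1) % n) / 2))).im) := by
      intro j hj
      rw [mem_range] at hj
      obtain ⟨-, -, c3⟩ := Pool.Agent.Y482.Cz.blkCr (h.bz j hj)
      rw [zero_div, Pool.Agent.Y482.Cv.lcr0] at c3
      simp only [add_zero, Complex.zero_im, mul_zero, zero_add] at c3
      unfold rho cf cg cF cG
      simp only [zero_div]
      linarith
    rw [sum_congr rfl hr, sum_sub_distrib,
      sum_succ_mod n hn (fun j => 2 * (Complex.log (Complex.cos (z j / 2))).im), sub_self]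

/-- at `χ = 0`, the ring with its axis -/
theorem cvA (hGD : S_GEODA) {ρ τ κ cc : ℝ} {s dl : ℂ → ℂ → ℂ} (hK : KD ρ τ κ cc s dl)
    (hS : SD3 ρ₀ c C s3 dl3) {n : ℕ} {p : ℕ → PB} {sh : ℕ → Tb} (hn : 1 ≤ n)
    (hp : ∀ j < n, (p j).bl = false ∧ (p j).Crt s ρ τ ∧ (p j).rz ∈ Rc ρ τ)
    (hsh : ∀ j < n, (p j).shape = sh j)
    (h : RCrit0F s3 ρ₀ n (fun j => (p j).wt) (fun j => (p j).gs s) (fun j => (p j).rz)) :
    CVG n 0 (PAx n sh) (RVal0 s3 n (fun j => (p j).wt) (fun j => (p j).rz) +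
      ∑ j ∈ range n, (p j).vl s - π * I / 4 * ∑ j ∈ range n, ((sh j).ws : ℂ)) := by
  obtain ⟨Θ, hΘ⟩ := blk
  have hgr := hGD ρ τ κ cc s dl hK ρ₀ c C s3 dl3 hS n p hn hp h
  have hi : ∀ j < n, _ := fun j hj => Pool.Agent.TH609.UV.ind Pool.Agent.W583.HTP.poth hK (p j)
    (hp j hj).2.1 (hp j hj).2.2 (h j hj).2.2.1
  have hcr := crit0F hS h (fun j hj => (hi j hj).1)
  have m0 : (0 : ℂ) ∈ Rc ρ₀ ρ₀ := by
    constructor
    · simpa using hS.hρ.1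
    · simpa using hS.hρ.1
  refine cvg_axis hK hn (Θ := Θ) (z := fun j => (p j).rz)
    (u := fun j => 2 * π * dl3 (p j).rz (p ((j + 1) % n)).rz 0)
    (sv := fun j => s3 (p j).rz (p ((j + 1) % n)).rz 0) (fun _ => rfl) hsh
    (fun j hj => ⟨(hp j hj).2.1, (hp j hj).2.2, (h j hj).2.2.1⟩) hcr ?_ rfl hgr
    (crit_angA hn (fun _ => rfl) (fun j hj => ⟨(hi j hj).2.1, (hi j hj).2.2.1⟩) hcr)
  intro j hj
  have h1 : (j + 1) % n < n := Nat.mod_lt _ (by omega)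
  exact hΘ ρ₀ c C s3 dl3 hS _ _ 0 (h j hj).1 (h _ h1).1 m0 (h j hj).2.2.1 (h _ h1).2.2.1
    (by simp) _ rfl

end

end Pool.Agent.Y482.DX
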