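import Pool.Agent.Y482.DX.CvM
import Pool.Agent.Y482.Cv.FinZ

/-!
# Rings of trees: framings, mirror images, complex volume in terms of `V` and `C`
-/

set_option autoImplicit false

namespace Pool.Agent.Y482.DX

open Finset Filter Topology Metric
open Pool.Agent.W711.HT hiding XX
open Pool.Agent.Y472
open Pool.Agent.Y481.DR
open Pool.Agent.Y481.DX (nbl JA S_MIRDX DAngA)
open Pool.Agent.TH563.UV (Tb AB kb ngb)
open Pool.Agent.TH563.UV.Arb (toAB ofAB)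
open Pool.Agent.TH563.CV (FlatTree)
open Pool.Agent.W719.AR (Fl)
open Pool.Agent.W719.AX (EXY)
open Pool.Agent.Y482.Cv (exy_conj)
open scoped Real

/-- a factor `K₀ e^(c / N)` -/
lemma exy_ux {a : ℕ → ℂ} {v : ℂ} {y : ℕ → ℂ} (K₀ c : ℂ) (hK : K₀ ≠ 0) (hy : y 0 ≠ 0)
    (h : EXY a v y) : ∃ y' : ℕ → ℂ, y' 0 ≠ 0 ∧
      EXY (fun N => K₀ * Complex.exp (c / N) * a N) v y' := by
  have hux : Pool.Agent.W719.AX.UX (fun N (_ : Unit) =>
      a N / (((Real.sqrt N) ^ 3 : ℝ) * Complex.exp (N * v))) (fun k _ => y k) Set.univ := by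
    intro K
    obtain ⟨C, hC⟩ := h K
    exact ⟨C, hC.mono fun N hN _ _ => hN⟩
  have hprod := Pool.Agent.W303.AX.uxmul Unit _ _ _ _ _ hux (Pool.Agent.W962.AX.ux_exp c)
  refine ⟨fun k => K₀ * Pool.Agent.W719.AX.cv (fun k (_ : Unit) => y k)
    (fun k _ => c ^ k / (k.factorial : ℂ)) k (), ?_, ?_⟩
  · refine mul_ne_zero hK ?_
    unfold Pool.Agent.W719.AX.cv
    simp only [zero_add, range_one, sum_singleton, Nat.sub_zero, pow_zero, Nat.factorial_zero,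
      Nat.cast_one, div_one, mul_one]
    exact hy
  · intro K
    obtain ⟨C, hC⟩ := hprod K
    refine ⟨‖K₀‖ * C, ?_⟩
    filter_upwards [hC] with N hN
    have hb := hN () (Set.mem_univ _)
    have key : K₀ * Complex.exp (c / N) * a N / (((Real.sqrt N) ^ 3 : ℝ) * Complex.exp (N * v)) =
        K₀ * (a N / (((Real.sqrt N) ^ 3 : ℝ) * Complex.exp (N * v)) * Complex.exp (c / N)) := by
      ring
    rw [key]
    have e3 : ∀ k, K₀ * Pool.Agent.W719.AX.cv (fun k (_ : Unit) => y k)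
        (fun k _ => c ^ k / (k.factorial : ℂ)) k () / (N : ℂ) ^ k =
        K₀ * (Pool.Agent.W719.AX.cv (fun k (_ : Unit) => y k)
        (fun k _ => c ^ k / (k.factorial : ℂ)) k () / (N : ℂ) ^ k) := fun k => by ring
    simp only [e3]
    rw [← Finset.mul_sum, ← mul_sub, norm_mul, mul_div_assoc]
    exact mul_le_mul_of_nonneg_left hb (norm_nonneg _)

/-- the factor of the framing and the sign -/
noncomputable def fr (e f : ℤ) (N : ℕ) : ℂ :=
  (-1) ^ (f * ((N : ℤ) - 1)) * Complex.exp (π * Complex.I / N) ^ (e * ((N : ℤ) ^ 2 - 1))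

lemma fr_eq (e f : ℤ) {N : ℕ} (hN : N ≠ 0) : fr e f N =
    Complex.exp (N * (π * Complex.I * (e + f))) *
      ((-1) ^ f * Complex.exp (-(π * Complex.I * e) / N)) := by
  have hN0 : (N : ℂ) ≠ 0 := by exact_mod_cast hN
  have h1 : (-1 : ℂ) ^ (f * ((N : ℤ) - 1)) = Complex.exp (N * (π * Complex.I * f)) * (-1) ^ f := by
    have e1 : (-1 : ℂ) ^ f = ((-1 : ℂ) ^ f)⁻¹ := by
      rcases Int.even_or_odd f with h | h
      · rw [h.neg_one_zpow, inv_one]
      · rw [h.neg_one_zpow]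
        norm_num
    have e2 : f * ((N : ℤ) - 1) = f * N - f := by ring
    have e4 : (-1 : ℂ) ^ (f * (N : ℤ)) = Complex.exp (N * (π * Complex.I * f)) := by
      rw [show (-1 : ℂ) = Complex.exp (π * Complex.I) by rw [Complex.exp_pi_mul_I],
        ← Complex.exp_int_mul]
      congr 1
      push_cast
      ring
    rw [e2, zpow_sub₀ (by norm_num), e4, div_eq_mul_inv, ← e1]
  have h2 : Complex.exp (π * Complex.I / N) ^ (e * ((N : ℤ) ^ 2 - 1)) =
      Complex.exp (N * (π * Complex.I * e)) * Complex.exp (-(π * Complex.I * e) / N) := by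
    rw [← Complex.exp_int_mul, ← Complex.exp_add]
    congr 1
    push_cast
    field_simp
    ring
  unfold fr
  rw [h1, h2, mul_add, mul_add, Complex.exp_add]
  ring

/-- framings -/
lemma exy_fr {a : ℕ → ℂ} {v : ℂ} {y : ℕ → ℂ} (e f : ℤ) (hy : y 0 ≠ 0) (h : EXY a v y) :
    ∃ y' : ℕ → ℂ, y' 0 ≠ 0 ∧
      EXY (fun N => fr e f N * a N) (v + π * Complex.I * (e + f)) y' := by
  obtain ⟨y', hy', h'⟩ := exy_ux ((-1) ^ f) (-(π * Complex.I * e))
    (zpow_ne_zero _ (by norm_num)) hy h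
  refine ⟨y', hy', exy_congr ?_ (exy_exp (π * Complex.I * (e + f)) h')⟩
  filter_upwards [eventually_ge_atTop 1] with N hN
  rw [fr_eq e f (by omega)]
  ring

/-- the mirror image of the list -/
def mir (ts : List (Tb × Tb)) : List (Tb × Tb) := ts.map fun p => (ngb p.1, ngb p.2)

/-- mirror images -/
lemma exy_mir (hM : S_MIRDX) {ts : List (Tb × Tb)} {m : ℤ} (hts : ts ≠ []) (hNC : NoC ts) {v : ℂ}
    {y : ℕ → ℂ} (hy : y 0 ≠ 0) (h : EXY (fun N => JD ts m N (vN N)) v y) :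
    ∃ y' : ℕ → ℂ, y' 0 ≠ 0 ∧
      EXY (fun N => JD (mir ts) (-m) N (vN N)) ((starRingEnd ℂ) v) y' := by
  obtain ⟨y', hy', h'⟩ := exy_ux 1 (4 * π * Complex.I * nbl ts) one_ne_zero
    (fun h0 => hy ((map_eq_zero (starRingEnd ℂ)).1 h0)) (exy_conj h)
  refine ⟨y', hy', exy_congr ?_ h'⟩
  filter_upwards [eventually_ge_atTop 2] with N hN
  have hkb : kb N ^ (2 * nbl ts) = Complex.exp ((4 * π * Complex.I * nbl ts) / N) := by
    unfold kb
    rw [← Complex.exp_nat_mul]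
    congr 1
    push_cast
    ring
  rw [one_mul, ← hkb]
  exact (hM N ts m hN hts hNC).symm

/-! ### Complex volume -/

lemma ofAB_to : ∀ y : Pool.Agent.TH563.UV.Arb.AngleTree, ofAB (toAB y) = y
  | .single _ _ => rfl
  | .join t c f g => by
    simp only [toAB, ofAB]
    rw [ofAB_to t, ofAB_to c]
    rfl

lemma pc_congr {n : ℕ} (hn : 1 ≤ n) {m : ℤ} {sh : ℕ → Tb} {y y' : ℕ → AB} {f g F G : ℕ → Fl}
    (h : ∀ j < n, y j = y' j) (hP : PC n m sh y f g F G) : PC n m sh y' f g F G := by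
  refine ⟨fun j hj => by rw [← h j hj]; exact hP.1 j hj, ⟨hP.2.pos, hP.2.diag,
    fun j hj => by rw [← h j hj]; exact hP.2.tree j hj, fun j hj => ?_, hP.2.fill⟩⟩
  rw [← h _ (Nat.mod_lt _ (by omega))]
  exact hP.2.vert j hj

lemma pax_congr {n : ℕ} (hn : 1 ≤ n) {sh : ℕ → Tb} {y y' : ℕ → AB} {f g F G : ℕ → Fl}
    (h : ∀ j < n, y j = y' j) (hP : PAx n sh y f g F G) : PAx n sh y' f g F G := by
  refine ⟨fun j hj => by rw [← h j hj]; exact hP.1 j hj, ⟨hP.2.pos, hP.2.diag,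
    fun j hj => by rw [← h j hj]; exact hP.2.tree j hj, fun j hj => ?_, hP.2.long, hP.2.mer⟩⟩
  rw [← h _ (Nat.mod_lt _ (by omega))]
  exact hP.2.vert j hj

/-- the complex volume is `V + i C` -/
structure CVC (n : ℕ) (c : ℤ) (P : AP) (V C : ℝ) : Prop where
  vol : IsGreatest {W : ℝ | ∃ (y : ℕ → AB) (f g F G : ℕ → Fl), P y f g F G ∧
    dVol n y f g F G = W} V
  flat : ∃ (f g F G : ℕ → Fl) (t : ℕ → FlatTree) (x : ℕ → RP),
    P (fun j => toAB (t j).angles) f g F G ∧ dVol n (fun j => toAB (t j).angles) f g F G = V ∧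
    DFlat n c t x
  sum : ∀ (f g F G : ℕ → Fl) (t : ℕ → FlatTree) (x : ℕ → RP),
    P (fun j => toAB (t j).angles) f g F G → dVol n (fun j => toAB (t j).angles) f g F G = V →
    DFlat n c t x → ∃ k : ℤ, dsum n f g F G t x =
      Complex.I * (V + Complex.I * C) + k * (π : ℂ) ^ 2

lemma split_v3 (v : ℂ) : 2 * π * Complex.I * v = Complex.I * (((2 * π * v.re : ℝ) : ℂ) +
    Complex.I * ((2 * π * v.im : ℝ) : ℂ)) := by
  apply Complex.ext <;> simp

lemma cvc_of {n : ℕ} {c : ℤ} {P : AP} {v : ℂ}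
    (hP : ∀ (y y' : ℕ → AB) (f g F G : ℕ → Fl), (∀ j < n, y j = y' j) → P y f g F G →
      P y' f g F G) (h : CVG n c P v) : CVC n c P (2 * π * v.re) (2 * π * v.im) := by
  obtain ⟨h1, ⟨y, f, g, F, G, t, x, a1, a2, a3, a4⟩, h3⟩ := h
  have hy : ∀ j < n, y j = toAB (t j).angles := by
    intro j hj
    rw [a3 j hj, Pool.Agent.TH563.UV.Arb.toAB_of]
  refine ⟨h1, ⟨f, g, F, G, t, x, hP _ _ _ _ _ _ hy a1, ?_, a4⟩, ?_⟩
  · rw [← a2]
    exact (dVol_congr fun j hj => ⟨hy j hj, rfl, rfl, rfl, rfl⟩).symm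
  · intro f g F G t x b1 b2 b3
    obtain ⟨k, hk⟩ := h3 _ f g F G t x b1 b2 (fun j _ => (ofAB_to _).symm) b3
    exact ⟨k, by rw [hk, split_v3]⟩

lemma vform (v : ℂ) : v = ((2 * π * v.re : ℝ) + Complex.I * ((2 * π * v.im : ℝ) : ℂ)) /
    (2 * π) := by
  have hpi : (π : ℂ) ≠ 0 := Complex.ofReal_ne_zero.2 Real.pi_ne_zero
  rw [eq_div_iff (by simp)]
  apply Complex.ext <;> simp <;> ring

lemma vform_fr (v : ℂ) (e f : ℤ) : v + π * Complex.I * (e + f) =
    ((2 * π * v.re : ℝ) + Complex.I * ((2 * π * v.im + 2 * π ^ 2 * (e + f) : ℝ) : ℂ)) /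
    (2 * π) := by
  have hpi : (π : ℂ) ≠ 0 := Complex.ofReal_ne_zero.2 Real.pi_ne_zero
  conv_lhs => rw [vform v]
  push_cast
  field_simp
  ring

lemma vform_conj (v : ℂ) (e f : ℤ) : (starRingEnd ℂ) v + π * Complex.I * (e + f) =
    ((2 * π * v.re : ℝ) + Complex.I * ((-(2 * π * v.im) + 2 * π ^ 2 * (e + f) : ℝ) : ℂ)) /
    (2 * π) := by
  rw [vform_fr ((starRingEnd ℂ) v) e f]
  simp only [Complex.conj_re, Complex.conj_im]
  congr 4
  ring

/-- the closed ring: complex volume and expansions for all framings, and for the mirror image -/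
def CxF (ts : List (Tb × Tb)) (m : ℤ) : Prop := ∃ V C : ℝ,
  CVC (2 * ts.length) (-2) (PC (2 * ts.length) m fun j => tj ts (rv (2 * ts.length) j)) V C ∧
  ∀ e f : ℤ,
    (∃ y : ℕ → ℂ, y 0 ≠ 0 ∧ EXY (fun N => fr e f N * JD ts m N (vN N))
      ((V + Complex.I * ((C + 2 * π ^ 2 * (e + f) : ℝ) : ℂ)) / (2 * π)) y) ∧
    ∃ y : ℕ → ℂ, y 0 ≠ 0 ∧ EXY (fun N => fr e f N * JD (mir ts) (-m) N (vN N))
      ((V + Complex.I * ((-C + 2 * π ^ 2 * (e + f) : ℝ) : ℂ)) / (2 * π)) y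

theorem cxf_of (hM : S_MIRDX) {ts : List (Tb × Tb)} {m : ℤ} (hts : ts ≠ []) (hNC : NoC ts)
    (h : CxC ts m) : CxF ts m := by
  obtain ⟨v, y, h1, h2, h3⟩ := h
  have hn : 1 ≤ 2 * ts.length := by
    have := List.length_pos_iff.2 hts
    omega
  refine ⟨2 * π * v.re, 2 * π * v.im, cvc_of (fun y y' f g F G => pc_congr hn) h1,
    fun e f => ⟨?_, ?_⟩⟩
  · obtain ⟨y', hy', h'⟩ := exy_fr e f h2 h3
    rw [vform_fr] at h'
    exact ⟨y', hy', h'⟩
  · obtain ⟨y1, hy1, h4⟩ := exy_mir hM hts hNC h2 h3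
    obtain ⟨y', hy', h'⟩ := exy_fr e f hy1 h4
    rw [vform_conj] at h'
    exact ⟨y', hy', h'⟩

/-- the ring with its axis -/
def CxFA (ts : List (Tb × Tb)) (m : ℤ) : Prop := ∃ V C : ℝ,
  CVC (2 * ts.length) 0 (PAx (2 * ts.length) fun j => tj ts (rv (2 * ts.length) j)) V C ∧
  ∀ e f : ℤ, ∃ y : ℕ → ℂ, y 0 ≠ 0 ∧ EXY (fun N => fr e f N * JA ts m N (vN N))
    ((V + Complex.I * ((C + 2 * π ^ 2 * (e + f) : ℝ) : ℂ)) / (2 * π)) y

theorem cxfa_of {ts : List (Tb × Tb)} {m : ℤ} (hts : ts ≠ []) (h : CxA ts m) : CxFA ts m := by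
  obtain ⟨v, y, h1, h2, h3⟩ := h
  have hn : 1 ≤ 2 * ts.length := by
    have := List.length_pos_iff.2 hts
    omega
  refine ⟨2 * π * v.re, 2 * π * v.im, cvc_of (fun y y' f g F G => pax_congr hn) h1,
    fun e f => ?_⟩
  obtain ⟨y', hy', h'⟩ := exy_fr e f h2 h3
  rw [vform_fr] at h'
  exact ⟨y', hy', h'⟩

end Pool.Agent.Y482.DX
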