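import Pool.Agent.TH563.CU.ValX

/-!
# Flattenings of trees, the half twists of a vertex above its first child
-/

set_option autoImplicit false

namespace Pool.Agent.Y482.DX

open Pool.Agent.TH563.CV
open Pool.Agent.TH563.CU
open Pool.Agent.TH563.UV
open Pool.Agent.TH563.UV.Arb
open Pool.Agent.TH563.V
open Pool.Agent.TH858.J1745
open Pool.Agent.TH609.UV (fe ang ang_wt ang_bl)
open Pool.Agent.TH609.Z (HG hg_symm)
open Pool.Agent.W711.HT hiding XX gd
open scoped Real

/-- the conditions at a vertex (not the root) of weight `w`: `s` is the piece of the edge to the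
parent, seen from the vertex, `l` are those of the edges to the children, from above to below; the
half twists are above the first child -/
structure VxFlat (b : Bool) (w : ℤ) (s : Piece) (l : List Piece) : Prop where
  ends : s.End ∧ ∀ x ∈ l, x.End
  front : across s + (l.map across).sum = if b then 0 else 2
  nil : l = [] → ((s.n1 < s.n2 ↔ s.n4 < s.n3) ↔ Even w)
  first : ∀ y ∈ l.head?, ((s.n1 < s.n2 ↔ y.n4 < y.n3) ↔ Even w)
  between : l.IsChain fun x y => x.n1 < x.n2 ↔ y.n4 < y.n3
  last : ∀ x ∈ l.getLast?, (x.n1 < x.n2 ↔ s.n4 < s.n3)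

/-- the conditions inside the octahedra, and at the vertices other than the root -/
def BelowX : FlatTree → Prop
  | .single _ _ => True
  | .join t c x => BelowX t ∧ BelowX c ∧ x.Inner ∧
      VxFlat c.angles.circle c.angles.weight x.swap c.edges

lemma bit_sumX {b : Bool} {w : ℤ} {s : Piece} {l : List Piece} (h : VxFlat b w s l) :
    ∃ j : ℤ, bit s + (l.map bit).sum = w + 2 * j := by
  cases hl : l with
  | nil =>
    have h1 := h.nil hl
    simp only [List.map_nil, List.sum_nil, add_zero]
    unfold bit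
    by_cases hw : Even w
    · rw [if_pos (h1.2 hw)]
      obtain ⟨r, hr⟩ := hw
      exact ⟨-r, by rw [hr]; ring⟩
    · rw [if_neg (fun h => hw (h1.1 h))]
      obtain ⟨r, hr⟩ := Int.not_even_iff_odd.1 hw
      exact ⟨-r, by rw [hr]; ring⟩
  | cons a l' =>
    obtain ⟨z, hz⟩ : ∃ z, z ∈ (a :: l').getLast? := by
      rw [List.getLast?_eq_some_getLast (List.cons_ne_nil a l')]
      exact ⟨_, rfl⟩
    obtain ⟨i, hi⟩ := bit_chain l' a (by rw [← hl]; exact h.between) z hz
    have h1 := h.first a (by rw [hl]; simp)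
    have h2 := h.last z (by rw [hl]; exact hz)
    rw [hi]
    unfold bit
    rcases Int.even_or_odd w with hw | hw
    · have h3 := h1.2 hw
      obtain ⟨r, hr⟩ := hw
      by_cases s1 : s.n1 < s.n2 <;> by_cases s2 : s.n4 < s.n3 <;> by_cases s3 : z.n1 < z.n2 <;>
        by_cases s4 : a.n4 < a.n3 <;>
        simp only [s1, s2, s3, s4, if_true, if_false, iff_true, iff_false, true_iff, false_iff,
          not_true_eq_false, not_false_eq_true] at h2 h3 ⊢ <;>
        first | exact ⟨i - r, by omega⟩ | exact ⟨i + 1 - r, by omega⟩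
    · have h3 : ¬ (s.n1 < s.n2 ↔ a.n4 < a.n3) := fun h3 =>
        (Int.not_even_iff_odd.2 hw) (h1.1 h3)
      obtain ⟨r, hr⟩ := hw
      by_cases s1 : s.n1 < s.n2 <;> by_cases s2 : s.n4 < s.n3 <;> by_cases s3 : z.n1 < z.n2 <;>
        by_cases s4 : a.n4 < a.n3 <;>
        simp only [s1, s2, s3, s4, if_true, if_false, iff_true, iff_false, true_iff, false_iff,
          not_true_eq_false, not_false_eq_true] at h2 h3 ⊢ <;>
        first | exact ⟨i - r, by omega⟩ | exact ⟨i - r - 1, by omega⟩ | exact ⟨i + 1 - r, by omega⟩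

theorem cv_genX (hS : S_SIG) (hI : S_INV) (D : ℕ) (e : ℕ → ℕ → ℂ → ℂ → ℂ) :
    ∀ (p : PB) (k : ℕ), hpv D e k p → ∀ x : FlatTree, x.angles = ofAB (agv D e k p) → BelowX x →
      (∀ y ∈ x.edges, y.End) → ∃ n : ℤ, x.complexVolume = RR D e k p -
        π / 2 * (((x.edges.map across).sum : ℤ) : ℂ) * (p.rz + π) +
        (π : ℂ) ^ 2 / 2 * (((x.edges.map bit).sum : ℤ) : ℂ) + n * (π : ℂ) ^ 2
  | .vx b a z, k, _, x, hx, _, _ => by
    refine ⟨0, ?_⟩
    cases x with
    | single b' a' => simp [FlatTree.complexVolume, RR, FlatTree.edges]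
    | join t' c' y => simp [FlatTree.angles, agv, ofAB] at hx
  | .br t c, k, hp, x, hx, hB, hE => by
    cases x with
    | single b' a' => simp [FlatTree.angles, agv, ofAB] at hx
    | join t' c' y =>
      simp only [FlatTree.angles, agv, ofAB, AngleTree.join.injEq] at hx
      obtain ⟨x1, x2, x3, x4⟩ := hx
      obtain ⟨b1, b2, b3, b4⟩ := hB
      obtain ⟨n1, n2, n3⟩ := hp
      obtain ⟨k1, q1⟩ := cv_genX hS hI D e t k n1 t' x1 b1 (fun z hz => hE z (by
        simp only [FlatTree.edges, List.mem_append]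
        exact Or.inl hz))
      obtain ⟨k2, q2⟩ := cv_genX hS hI D e c (kc D c) n2 c' x2 b2 b4.ends.2
      obtain ⟨k3, q3⟩ := gen_term hS hI (hg_symm n3) y x3 x4 b3 (hE y (by simp [FlatTree.edges]))
        b4.ends.1
      obtain ⟨k4, q4⟩ := bit_sumX b4
      have q5 := b4.front
      rw [x2, circle_of, agv_bl] at q5
      rw [x2, weight_of, agv_wt] at q4
      have q4' := congrArg (Int.cast : ℤ → ℂ) q4
      have q5' := congrArg (Int.cast : ℤ → ℂ) q5
      refine ⟨k1 + k2 + k3 + k4, ?_⟩
      simp only [FlatTree.complexVolume, FlatTree.edges, List.map_append, List.map_cons,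
        List.map_nil, List.sum_append, List.sum_cons, List.sum_nil, add_zero, RR, PB.rz]
      rw [q1, q2, q3]
      push_cast at q4' q5' ⊢
      linear_combination (-(π / 2) * (c.rz + π)) * q5' + ((π : ℂ) ^ 2 / 2) * q4'

/-! ### Existence -/

/-- the standard labels; the orders with a half twist at the upper end of the child -/
def stdX (m : Bool) (μ : ℤ) (f g : Angles) : Piece :=
  { std false false 0 μ f g with
    n2 := if m then 2 else 3
    n3 := if m then 3 else 2 }

lemma stdX_inner (m : Bool) (μ : ℤ) (f g : Angles) : (stdX m μ f g).Inner := by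
  cases m <;> simp [stdX, std, Piece.Inner]

lemma stdX_end (m : Bool) (μ : ℤ) (f g : Angles) : (stdX m μ f g).End ∧
    (stdX m μ f g).swap.End := by
  cases m <;> simp [stdX, std, Piece.End, Piece.swap]

lemma stdX_across (m : Bool) (μ : ℤ) (f g : Angles) : across (stdX m μ f g) = 0 ∧
    across (stdX m μ f g).swap = 2 * μ := by
  cases m <;> simp [stdX, std, across, Piece.swap] <;> ring

lemma stdX_order (m : Bool) (μ : ℤ) (f g : Angles) :
    ((stdX m μ f g).n1 < (stdX m μ f g).n2 ∧ (stdX m μ f g).n4 < (stdX m μ f g).n3) ∧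
    (((stdX m μ f g).swap.n1 < (stdX m μ f g).swap.n2 ↔ m = false) ∧
      (stdX m μ f g).swap.n4 < (stdX m μ f g).swap.n3) := by
  cases m <;> simp [stdX, std, Piece.swap]

/-- a tree with the standard flattening -/
def flatX : AngleTree → FlatTree
  | .single b a => .single b a
  | .join t c f g => .join (flatX t) (flatX c)
      (stdX (odd c.weight) (if c.circle then 0 else 1) f g)

lemma flatX_angles : ∀ t : AngleTree, (flatX t).angles = t
  | .single b a => rfl
  | .join t c f g => by
    simp only [flatX, FlatTree.angles]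
    rw [flatX_angles t, flatX_angles c]
    rfl

lemma flatX_edges : ∀ t : AngleTree, (∀ x ∈ (flatX t).edges, x.End ∧ x.n1 < x.n2 ∧ x.n4 < x.n3 ∧
    across x = 0)
  | .single b a => by simp [flatX, FlatTree.edges]
  | .join t c f g => by
    intro x hx
    simp only [flatX, FlatTree.edges, List.mem_append, List.mem_singleton] at hx
    rcases hx with hx | rfl
    · exact flatX_edges t x hx
    · exact ⟨(stdX_end _ _ _ _).1, (stdX_order _ _ _ _).1.1, (stdX_order _ _ _ _).1.2,
        (stdX_across _ _ _ _).1⟩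

lemma sum_zero {l : List Piece} {F : Piece → ℤ} (h : ∀ x ∈ l, F x = 0) : (l.map F).sum = 0 := by
  induction l with
  | nil => rfl
  | cons a l ih =>
    rw [List.map_cons, List.sum_cons, h a (by simp), zero_add]
    exact ih fun x hx => h x (List.mem_cons_of_mem _ hx)

lemma flatX_across (t : AngleTree) : ((flatX t).edges.map across).sum = 0 :=
  sum_zero fun x hx => (flatX_edges t x hx).2.2.2

lemma flatX_chain (t : AngleTree) : (flatX t).edges.IsChain fun x y => x.n1 < x.n2 ↔ y.n4 < y.n3 := by
  apply chain_of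
  intro x hx y hy
  exact iff_of_true (flatX_edges t x hx).2.1 (flatX_edges t y (List.mem_of_mem_tail hy)).2.2.1

lemma flatX_below : ∀ t : AngleTree, BelowX (flatX t)
  | .single b a => trivial
  | .join t c f g => by
    refine ⟨flatX_below t, flatX_below c, stdX_inner _ _ _ _, ?_⟩
    rw [flatX_angles]
    have k3 : odd c.weight = false ↔ Even c.weight := by
      unfold odd
      simp
    obtain ⟨o1, o2⟩ := (stdX_order (odd c.weight) (if c.circle then 0 else 1) f g).2
    refine ⟨⟨(stdX_end _ _ _ _).2, fun x hx => (flatX_edges c x hx).1⟩, ?_, ?_, ?_,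
      flatX_chain c, ?_⟩
    · rw [flatX_across, (stdX_across _ _ _ _).2]
      split_ifs <;> rfl
    · intro _
      rw [← k3, ← o1]
      exact ⟨fun h => h.2 o2, fun h => iff_of_true h o2⟩
    · intro y hy
      have h1 := (flatX_edges c y (List.mem_of_mem_head? hy)).2.2.1
      rw [← k3, ← o1]
      exact ⟨fun h => h.2 h1, fun h => iff_of_true h h1⟩
    · intro y hy
      exact iff_of_true (flatX_edges c y (List.mem_of_getLast? hy)).2.1 o2

end Pool.Agent.Y482.DX
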