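import Pool.Agent.Y482.Cv.Sum
import Pool.Agent.Y482.DX.CvX

/-!
# Flattenings of the complement of a ring of trees: definitions, orders and parities
-/

set_option autoImplicit false

namespace Pool.Agent.Y482.DX

open Finset
open Pool.Agent.TH563.CU (bit across bit_chain)
open Pool.Agent.TH563.CV (FlatTree)
open Pool.Agent.W719.AR (Fl)
open Pool.Agent.Y482 (sum_succ_mod)
open Pool.Agent.Y482.Cv (csum upb lowb bits)
open scoped Real

/-- the pieces of the trees -/
abbrev TP := Pool.Agent.TH563.CV.Piece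

/-- the pieces of the ring -/
abbrev RP := Pool.Agent.Y482.Cv.Piece

/-- the conditions at the root of the tree number `j`, of weight `w`, with the pieces `l` of the
edges to the children (from above to below), the piece `x` of the ring below and the piece `y` above
it -/
structure VFl (j : ℕ) (w : ℤ) (l : List TP) (x y : RP) : Prop where
  ends : ∀ t ∈ l, t.End
  fill : y.low - x.high + (l.map across).sum = 2
  nil : l = [] → ((x.n3 < x.n2 ↔ y.n1 < y.n2) ↔ Even w)
  first : ∀ t ∈ l.head?, ((y.n1 < y.n2 ↔ t.n4 < t.n3) ↔ Even (w + j))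
  between : l.IsChain fun s t => s.n1 < s.n2 ↔ t.n4 < t.n3
  last : ∀ t ∈ l.getLast?, ((t.n1 < t.n2 ↔ x.n3 < x.n2) ↔ Even j)
  out : x.n1 < x.n4 ↔ y.n3 < y.n4

/-- flattenings of the ring of trees; `c` is the label of the meridian of the axis -/
structure DFlat (n : ℕ) (c : ℤ) (t : ℕ → FlatTree) (x : ℕ → RP) : Prop where
  inner : ∀ j < n, (x j).Inner ∧ (x j).Bottom ∧ (x j).Top
  tree : ∀ j < n, BelowX (t j)
  vert : ∀ j < n, VFl ((j + 1) % n) (t ((j + 1) % n)).angles.weight (t ((j + 1) % n)).edges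
    (x j) (x ((j + 1) % n))
  axis : ∑ j ∈ range n, (x j).along = c

/-- the sum of the dilogarithms -/
noncomputable def dsum (n : ℕ) (f g F G : ℕ → Fl) (t : ℕ → FlatTree) (x : ℕ → RP) : ℂ :=
  csum n f g F G x + ∑ j ∈ range n, (t j).complexVolume

lemma vbits {j : ℕ} {w : ℤ} {l : List TP} {x y : RP} (h : VFl j w l x y) (hx : x.Inner)
    (hy : y.Inner) : (2 : ℤ) ∣ upb x + lowb y + (l.map bit).sum - w := by
  obtain ⟨-, -, -, -, -, -, a12, a13, a14, a23, a24, a34⟩ := hx
  obtain ⟨-, -, -, -, -, -, n12, n13, n14, n23, n24, n34⟩ := hy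
  have t21 : y.n2 < y.n1 ↔ ¬ y.n1 < y.n2 := by omega
  have t32 : x.n2 < x.n3 ↔ ¬ x.n3 < x.n2 := by omega
  unfold upb lowb
  simp only [h.out, t21, t32]
  cases hl : l with
  | nil =>
    have h1 := h.nil hl
    simp only [List.map_nil, List.sum_nil]
    rcases Int.even_or_odd w with hw | hw
    · have h2 := h1.2 hw
      obtain ⟨r, rfl⟩ := hw
      by_cases s1 : x.n3 < x.n2 <;> by_cases s2 : y.n1 < y.n2 <;> by_cases s3 : y.n3 < y.n4 <;>
        simp only [s1, s2, s3, if_true, if_false, not_true_eq_false, not_false_eq_true] at h2 ⊢ <;>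
        first | omega | exact absurd h2 (by simp)
    · have h2 : ¬ (x.n3 < x.n2 ↔ y.n1 < y.n2) := fun h3 =>
        (Int.not_even_iff_odd.2 hw) (h1.1 h3)
      obtain ⟨r, rfl⟩ := hw
      by_cases s1 : x.n3 < x.n2 <;> by_cases s2 : y.n1 < y.n2 <;> by_cases s3 : y.n3 < y.n4 <;>
        simp only [s1, s2, s3, if_true, if_false, not_true_eq_false, not_false_eq_true] at h2 ⊢ <;>
        first | omega | exact absurd h2 (by simp)
  | cons a l' =>
    obtain ⟨z, hz⟩ : ∃ z, z ∈ (a :: l').getLast? := by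
      rw [List.getLast?_eq_some_getLast (List.cons_ne_nil a l')]
      exact ⟨_, rfl⟩
    obtain ⟨i, hi⟩ := bit_chain l' a (by rw [← hl]; exact h.between) z hz
    have h1 := h.first a (by rw [hl]; simp)
    have h2 := h.last z (by rw [hl]; exact hz)
    rw [hi]
    have h1' := Int.even_add.symm.trans (Iff.rfl : Even (w + (j : ℤ)) ↔ _)
    have h3 : Even (w + j) ↔ (Even w ↔ Even j) := by
      rw [Int.even_add, Int.even_coe_nat]
    rw [h3] at h1
    rcases Int.even_or_odd w with hw | hw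
    · by_cases hj : Even j
      · have k1 := h1.2 (iff_of_true hw hj)
        have k2 := h2.2 hj
        obtain ⟨r, rfl⟩ := hw
        by_cases s1 : x.n3 < x.n2 <;> by_cases s2 : y.n1 < y.n2 <;> by_cases s3 : y.n3 < y.n4 <;>
          by_cases s4 : z.n1 < z.n2 <;> by_cases s5 : a.n4 < a.n3 <;>
          simp only [s1, s2, s3, s4, s5, if_true, if_false, not_true_eq_false, not_false_eq_true,
            iff_true, iff_false, true_iff, false_iff] at k1 k2 ⊢ <;> omega
      · have k1 : ¬ (y.n1 < y.n2 ↔ a.n4 < a.n3) := fun h4 => hj ((h1.1 h4).1 hw)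
        have k2 : ¬ (z.n1 < z.n2 ↔ x.n3 < x.n2) := fun h4 => hj (h2.1 h4)
        obtain ⟨r, rfl⟩ := hw
        by_cases s1 : x.n3 < x.n2 <;> by_cases s2 : y.n1 < y.n2 <;> by_cases s3 : y.n3 < y.n4 <;>
          by_cases s4 : z.n1 < z.n2 <;> by_cases s5 : a.n4 < a.n3 <;>
          simp only [s1, s2, s3, s4, s5, if_true, if_false, not_true_eq_false, not_false_eq_true,
            iff_true, iff_false, true_iff, false_iff] at k1 k2 ⊢ <;> omega
    · have hw' := Int.not_even_iff_odd.2 hw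
      by_cases hj : Even j
      · have k1 : ¬ (y.n1 < y.n2 ↔ a.n4 < a.n3) := fun h4 => hw' ((h1.1 h4).2 hj)
        have k2 := h2.2 hj
        obtain ⟨r, rfl⟩ := hw
        by_cases s1 : x.n3 < x.n2 <;> by_cases s2 : y.n1 < y.n2 <;> by_cases s3 : y.n3 < y.n4 <;>
          by_cases s4 : z.n1 < z.n2 <;> by_cases s5 : a.n4 < a.n3 <;>
          simp only [s1, s2, s3, s4, s5, if_true, if_false, not_true_eq_false, not_false_eq_true,
            iff_true, iff_false, true_iff, false_iff] at k1 k2 ⊢ <;> omega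
      · have k1 := h1.2 (iff_of_false hw' hj)
        have k2 : ¬ (z.n1 < z.n2 ↔ x.n3 < x.n2) := fun h4 => hj (h2.1 h4)
        obtain ⟨r, rfl⟩ := hw
        by_cases s1 : x.n3 < x.n2 <;> by_cases s2 : y.n1 < y.n2 <;> by_cases s3 : y.n3 < y.n4 <;>
          by_cases s4 : z.n1 < z.n2 <;> by_cases s5 : a.n4 < a.n3 <;>
          simp only [s1, s2, s3, s4, s5, if_true, if_false, not_true_eq_false, not_false_eq_true,
            iff_true, iff_false, true_iff, false_iff] at k1 k2 ⊢ <;> omega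

section
variable {n : ℕ} {c : ℤ} {t : ℕ → FlatTree} {x : ℕ → RP}

/-- the sum of all orders -/
lemma dbits (hn : 1 ≤ n) (h : DFlat n c t x) :
    (2 : ℤ) ∣ ∑ j ∈ range n, (Pool.Agent.Y482.Cv.bit (x j).n1 (x j).n2 (x j).n3 (x j).n4 +
      Pool.Agent.Y482.Cv.bit (x j).n3 (x j).n2 (x j).n1 (x j).n4) +
      ∑ j ∈ range n, ((t j).edges.map bit).sum - ∑ j ∈ range n, (t j).angles.weight := by
  have e1 : ∑ j ∈ range n, (Pool.Agent.Y482.Cv.bit (x j).n1 (x j).n2 (x j).n3 (x j).n4 +
      Pool.Agent.Y482.Cv.bit (x j).n3 (x j).n2 (x j).n1 (x j).n4) +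
      ∑ j ∈ range n, ((t j).edges.map bit).sum - ∑ j ∈ range n, (t j).angles.weight =
      ∑ j ∈ range n, (Pool.Agent.Y482.Cv.bit (x j).n1 (x j).n2 (x j).n3 (x j).n4 +
        Pool.Agent.Y482.Cv.bit (x j).n3 (x j).n2 (x j).n1 (x j).n4 - (upb (x j) + lowb (x j))) +
      ∑ j ∈ range n, (upb (x j) + lowb (x ((j + 1) % n)) +
        ((t ((j + 1) % n)).edges.map bit).sum - (t ((j + 1) % n)).angles.weight) := by
    have s1 := sum_succ_mod n hn (fun j => lowb (x j))
    have s2 := sum_succ_mod n hn (fun j => (t j).angles.weight)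
    have s3 := sum_succ_mod n hn (fun j => ((t j).edges.map bit).sum)
    simp only [sum_sub_distrib, sum_add_distrib]
    rw [s1, s2, s3]
    ring
  rw [e1]
  refine dvd_add (dvd_sum fun j hj => ?_) (dvd_sum fun j hj => ?_)
  · rw [mem_range] at hj
    exact bits _ (h.inner j hj).1
  · rw [mem_range] at hj
    exact vbits (h.vert j hj) (h.inner j hj).1 (h.inner _ (Nat.mod_lt _ (by omega))).1

lemma low_high (y : RP) (h1 : y.Inner) (h2 : y.Bottom) (h3 : y.Top) :
    (2 : ℤ) ∣ y.low - y.high := by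
  obtain ⟨⟨i1, i2⟩, ⟨i3, i4⟩, -, -, i9, -⟩ := h1
  obtain ⟨-, -, -, -, -, -, b7, -⟩ := h2
  obtain ⟨-, -, -, -, -, -, t7, -⟩ := h3
  refine ⟨1 - y.f.b - y.g.c', ?_⟩
  unfold Pool.Agent.Y482.Cv.Piece.low Pool.Agent.Y482.Cv.Piece.high
  omega

/-- the sum of all paths across -/
lemma dacross (hn : 1 ≤ n) (h : DFlat n c t x) :
    (2 : ℤ) ∣ ∑ j ∈ range n, ((t j).edges.map across).sum := by
  have e1 : ∑ j ∈ range n, ((t j).edges.map across).sum =
      ∑ j ∈ range n, ((x ((j + 1) % n)).low - (x j).high +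
        ((t ((j + 1) % n)).edges.map across).sum) - ∑ j ∈ range n, ((x j).low - (x j).high) := by
    have s1 := sum_succ_mod n hn (fun j => (x j).low)
    have s3 := sum_succ_mod n hn (fun j => ((t j).edges.map across).sum)
    simp only [sum_sub_distrib, sum_add_distrib]
    rw [s1, s3]
    ring
  rw [e1]
  refine dvd_sub (dvd_sum fun j hj => ?_) (dvd_sum fun j hj => ?_)
  · rw [mem_range] at hj
    rw [(h.vert j hj).fill]
  · rw [mem_range] at hj
    obtain ⟨h1, h2, h3⟩ := h.inner j hj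
    exact low_high _ h1 h2 h3

end

end Pool.Agent.Y482.DX
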