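import Pool.Agent.Y482.DX.CvP
import Pool.Agent.Y482.DX.CvB

/-!
# Rings of trees: final statements with framings and mirror images
-/

set_option autoImplicit false

namespace Pool.Agent.Y482.DX

open Pool.Agent.TH563.UV (Tb)

/-- closed rings and rings with their axes -/
theorem allf : ∃ K : ℝ, 0 < K ∧
    (∀ D : ℕ, ∃ M : ℝ, ∀ (ts : List (Tb × Tb)) (m : ℕ), ts ≠ [] → ¬ (ts.length = 1 ∧ m = 0) →
      OkR K D M ts → CxF ts m) ∧
    ∀ D k : ℕ, 1 ≤ k → ∃ M : ℝ, ∀ (ts : List (Tb × Tb)) (m : ℤ), ts.length = k →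
      OkR K D M ts → CxFA ts m := by
  obtain ⟨K, hK, h1, h2⟩ := allx
  refine ⟨K, hK, fun D => ?_, fun D k hk => ?_⟩
  · obtain ⟨M, hM⟩ := h1 D
    exact ⟨M, fun ts m hts hkm h => cxf_of Pool.Agent.Y274.DX.mirdx hts h.nc (hM ts m hts hkm h)⟩
  · obtain ⟨M, hM⟩ := h2 D k hk
    refine ⟨M, fun ts m hl h => cxfa_of ?_ (hM ts m hl h)⟩
    rintro rfl
    simp at hl
    omega

end Pool.Agent.Y482.DX
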