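import Pool.Agent.Y482.DX.CvD

/-!
# Existence of flattenings of the ring of trees
-/

set_option autoImplicit false

namespace Pool.Agent.Y482.DX

open Finset
open Pool.Agent.TH563.CU (across)
open Pool.Agent.TH563.UV.Arb (AngleTree)

/-- the labels of two octahedra of the ring -/
noncomputable def pieceR (b1 b3 : Bool) (r : ℤ) : RP where
  f := ⟨2, -1, 0, 0, 0, 1⟩
  g := ⟨-r, 1, r, r, -r, 1⟩
  F := ⟨1, -1, 1, 1, -1, 1⟩
  G := ⟨r, 1, -r, -r, r, 1⟩
  n1 := if b1 then 1 else 7
  n2 := 5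
  n3 := if b3 then 2 else 8
  n4 := 10

lemma pieceR_inner (b1 b3 : Bool) (r : ℤ) : (pieceR b1 b3 r).Inner := by
  unfold Pool.Agent.Y482.Cv.Piece.Inner pieceR
  simp only
  refine ⟨by omega, by omega, by omega, by omega, by omega, by omega, ?_⟩
  cases b1 <;> cases b3 <;> norm_num

lemma pieceR_bottom (b1 b3 : Bool) (r : ℤ) : (pieceR b1 b3 r).Bottom := by
  unfold Pool.Agent.Y482.Cv.Piece.Bottom pieceR
  simp only
  omega

lemma pieceR_top (b1 b3 : Bool) (r : ℤ) : (pieceR b1 b3 r).Top := by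
  unfold Pool.Agent.Y482.Cv.Piece.Top pieceR
  simp only
  omega

lemma pieceR_low (b1 b3 : Bool) (r : ℤ) : (pieceR b1 b3 r).low = 2 := by
  simp [Pool.Agent.Y482.Cv.Piece.low, pieceR]

lemma pieceR_high (b1 b3 : Bool) (r : ℤ) : (pieceR b1 b3 r).high = 0 := by
  simp [Pool.Agent.Y482.Cv.Piece.high, pieceR]

lemma pieceR_along (b1 b3 : Bool) (r : ℤ) : (pieceR b1 b3 r).along = r := by
  simp [Pool.Agent.Y482.Cv.Piece.along, pieceR]

lemma pieceR_12 (b1 b3 : Bool) (r : ℤ) :
    (pieceR b1 b3 r).n1 < (pieceR b1 b3 r).n2 ↔ b1 = true := by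
  cases b1 <;> simp [pieceR]

lemma pieceR_32 (b1 b3 : Bool) (r : ℤ) :
    (pieceR b1 b3 r).n3 < (pieceR b1 b3 r).n2 ↔ b3 = true := by
  cases b3 <;> simp [pieceR]

lemma pieceR_14 (b1 b3 : Bool) (r : ℤ) : (pieceR b1 b3 r).n1 < (pieceR b1 b3 r).n4 := by
  cases b1 <;> simp [pieceR]

lemma pieceR_34 (b1 b3 : Bool) (r : ℤ) : (pieceR b1 b3 r).n3 < (pieceR b1 b3 r).n4 := by
  cases b3 <;> simp [pieceR]

open scoped Classical in
/-- flattenings exist -/
theorem dflat_exists {n : ℕ} (hn : 1 ≤ n) (c : ℤ) (y : ℕ → AngleTree) :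
    DFlat n c (fun j => flatX (y j))
      (fun j => pieceR (decide (Even ((y j).weight + j))) (decide (Even ((j + 1) % n)))
        (if j = 0 then c else 0)) := by
  refine ⟨?_, ?_, ?_, ?_⟩
  · intro j _
    exact ⟨pieceR_inner _ _ _, pieceR_bottom _ _ _, pieceR_top _ _ _⟩
  · intro j _
    exact flatX_below (y j)
  · intro j hj
    have hw : (flatX (y ((j + 1) % n))).angles.weight = (y ((j + 1) % n)).weight := by
      rw [flatX_angles]
    have hM := flatX_edges (y ((j + 1) % n))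
    beta_reduce
    rw [hw]
    refine ⟨fun t ht => (hM t ht).1, ?_, ?_, ?_, ?_, ?_, ?_⟩
    · rw [pieceR_low, pieceR_high, flatX_across]
      rfl
    · intro _
      rw [pieceR_12, pieceR_32, decide_eq_true_iff, decide_eq_true_iff, Int.even_add,
        Int.even_coe_nat]
      tauto
    · intro t ht
      have h1 := (hM t (List.mem_of_mem_head? ht)).2.2.1
      rw [pieceR_12, decide_eq_true_iff]
      exact ⟨fun h => h.2 h1, fun h => iff_of_true h h1⟩
    · exact flatX_chain _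
    · intro t ht
      have h1 := (hM t (List.mem_of_getLast? ht)).2.1
      rw [pieceR_32, decide_eq_true_iff]
      exact ⟨fun h => h.1 h1, fun h => iff_of_true h1 h⟩
    · exact iff_of_true (pieceR_14 _ _ _) (pieceR_34 _ _ _)
  · simp only [pieceR_along]
    rw [sum_ite_eq' (range n) 0 (fun _ => c), if_pos (mem_range.2 (by omega))]

end Pool.Agent.Y482.DX
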