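import Pool.Agent.Y482.DX.CvX

/-!
# The sum of the dilogarithms of a tree in terms of the exponent
-/

set_option autoImplicit false

namespace Pool.Agent.Y482.DX

open Pool.Agent.TH563.CV
open Pool.Agent.TH563.CU
open Pool.Agent.TH563.UV
open Pool.Agent.TH563.UV.Arb
open Pool.Agent.TH858.J1745
open Pool.Agent.TH609.UV (HQ fe hpt lg VL lcr ang LL)
open Pool.Agent.TH609.Z (HG hg_of_hq)
open Pool.Agent.W711.HT hiding XX gd
open Pool.Agent.W719.AR (Fl)
open scoped Real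

/-- no hubs -/
lemma kc0 (c : PB) : kc 0 c = 0 := by
  by_contra h
  exact absurd (kc_ne h).2.2.2 (Nat.not_lt_zero _)

lemma agv0 (dl : ℂ → ℂ → ℂ) : ∀ p : PB, agv 0 (fun _ _ => dl) 0 p = ang dl p
  | .vx _ _ _ => rfl
  | .br t c => by
    simp only [agv, ang, uu]
    rw [kc0, agv0 dl t, agv0 dl c]

lemma hpv0 {dl : ℂ → ℂ → ℂ} : ∀ p : PB, hpt dl p → hpv 0 (fun _ _ => dl) 0 p
  | .vx _ _ _, _ => trivial
  | .br t c, h => by
    obtain ⟨h1, h2, h3⟩ := h
    refine ⟨hpv0 t h1, ?_, hg_of_hq h3⟩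
    rw [kc0]
    exact hpv0 c h2

lemma LLv0 (dl : ℂ → ℂ → ℂ) : ∀ (p : PB) (y : AB), LLv 0 (fun _ _ => dl) 0 p y = LL dl p y
  | .vx _ _ _, .vx _ _ => rfl
  | .vx _ _ _, .br _ _ _ _ => rfl
  | .br _ _, .vx _ _ => rfl
  | .br t c, .br t' c' f g => by
    simp only [LLv, LL, uu]
    rw [kc0, LLv0 dl t, LLv0 dl c]

/-- the case of equality for a tree -/
theorem tree_unique {dl : ℂ → ℂ → ℂ} (p : PB) (hp : hpt dl p) (y : AB) (h : y.shape = p.shape)
    (hy : y.OK) (hv : y.vol = (ang dl p).vol - 2 * LL dl p y) : y = ang dl p := by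
  rw [← agv0]
  refine agv_unique 0 (fun _ _ => dl) p 0 (hpv0 p hp) y h hy ?_
  rw [agv0, LLv0]
  exact hv

lemma flat_bits {l : List Piece} {μ : ℤ} (h : Mrk l μ false) : (l.map bit).sum = 0 := by
  obtain ⟨h1, -, -, h4, h5⟩ := h
  have h6 : ∀ y ∈ l, bit y = 0 := by
    intro y hy
    have a1 := (h1 y hy).2
    have a2 : y.n4 < y.n3 := by
      cases l with
      | nil => simp at hy
      | cons z l =>
        rcases List.mem_cons.1 hy with rfl | hy
        · exact (h5 y (by simp)).2 rfl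
        · exact h4 y (by simpa using hy)
    unfold bit
    rw [if_pos (iff_of_true a1 a2)]
  have h7 : l.map bit = l.map fun _ => (0 : ℤ) := List.map_congr_left h6
  rw [h7]
  simp

section
variable {ρ τ κ c : ℝ} {s dl : ℂ → ℂ → ℂ}

/-- TREE: the sum over the tetrahedra of a tree -/
theorem tree_val (hK : KD ρ τ κ c s dl) (p : PB) (hC : p.Crt s ρ τ) (hz : p.rz ∈ Rc ρ τ)
    (hn : ‖p.rz‖ ≤ 1 / 10) (x : FlatTree) (hx : x.angles = ofAB (ang dl p)) (hB : BelowX x)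
    (hE : ∀ y ∈ x.edges, y.End) : ∃ n : ℤ, x.complexVolume =
      Complex.I * 2 * π * p.vl s + Complex.I / 2 * p.rz * lg dl p -
        π / 2 * (((x.edges.map across).sum : ℤ) : ℂ) * (p.rz + π) +
        (π : ℂ) ^ 2 / 2 * ((p.shape.ws - p.wt + (x.edges.map bit).sum : ℤ) : ℂ) +
        n * (π : ℂ) ^ 2 := by
  have hS : S_SIG := sig der
  have hI : S_INV := inv (ref der) hS
  have hBa : S_BASE := base der (ref der) hS
  obtain ⟨-, i2, -, -⟩ := Pool.Agent.TH609.UV.ind W583.HTP.poth hK p hC hz hn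
  obtain ⟨n1, e1⟩ := cv_genX hS hI 0 (fun _ _ => dl) p 0 (hpv0 p i2) x (by rw [agv0]; exact hx) hB hE
  have hM := gl_edges dl p 0 false
  have hμ : (if p.nc = 0 then 0 else (0 : ℤ)) = 0 := by split_ifs <;> rfl
  rw [hμ] at hM
  obtain ⟨n2, e2⟩ := cv_gen hS hI 0 (fun _ _ => dl) p 0 (hpv0 p i2) (flat dl 0 false p)
    (by rw [agv0]; exact flat_angles dl p 0 false) (flat_below dl p 0 false)
    (fun y hy => (hM.1 y hy).1)
  obtain ⟨n3, e3⟩ := cv_val hK der hBa hS hI p hC hz hn 0 false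
  have s1 : ((flat dl 0 false p).edges.map across).sum = 0 := hM.2.1
  have s2 := flat_bits hM
  rw [s1, s2] at e2
  rw [hμ] at e3
  have e4 : (if p.nc = 0 then 0 else ((false.toNat : ℕ) : ℤ)) = 0 := by split_ifs <;> rfl
  rw [e4] at e3
  refine ⟨n1 - n2 + n3, ?_⟩
  rw [e1]
  rw [e3] at e2
  push_cast at e2 ⊢
  linear_combination -e2

end

end Pool.Agent.Y482.DX
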