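import Pool.Agent.Y481.DR.Geo
import Pool.Agent.Y481.DX.Defs
import Pool.Agent.Y482.Cv.UniZ
import Pool.Agent.Y482.DX.CvT

/-!
# Uniqueness of the structure of maximal volume of a ring of trees
-/

set_option autoImplicit false

namespace Pool.Agent.Y482.DX

open Finset
open Complex (exp log cos sin I)
open Pool.Agent.TH563.UV (Tb PB AB)
open Pool.Agent.TH609.UV (hpt lcr ang lg LL LL_eq wt_eq el_lg el_map el_pos vol_LL)
open Pool.Agent.W711.HT hiding XX
open Pool.Agent.W719.AR (Fl)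
open Pool.Agent.Y481.DR (VD DAng dVol CritD vertexD VD.rlam_step)
open Pool.Agent.Y481.DX (DAngA)
open Pool.Agent.Y482 (sum_succ_mod)
open Pool.Agent.Y482.Chi hiding tri_a1 tri_a2 tri_b1 tri_b2 blkAng blkCr blk_lf dvol crit_ang
  crit_vol crit_max lcr
open Pool.Agent.Y482.Cv (cf cg cF cG lin block_leZ)
open Pool.Agent.Y482.Cz (BG)
open scoped Real

section
variable {n : ℕ} {p : ℕ → PB} {z u : ℕ → ℂ} {χ : ℂ} {dl : ℂ → ℂ → ℂ} {y : ℕ → AB}
  {f g F G : ℕ → Fl}

/-- the rotation along the longitude of the axis is constant -/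
lemma rlamD_const (hp : ∀ j < n, (f j).Pos ∧ (g j).Pos ∧ (F j).Pos ∧ (G j).Pos)
    (d : ∀ j < n, (f j).b + (f j).c' + ((g j).b + (g j).c') = 2 * π ∧
      (F j).b + (F j).c' + ((G j).b + (G j).c') = 2 * π)
    (v : ∀ j < n, VD (y ((j + 1) % n)).wt (y ((j + 1) % n)).fl (f j) (g j) (F j) (G j)
      (f ((j + 1) % n)) (g ((j + 1) % n)) (F ((j + 1) % n)) (G ((j + 1) % n))) :
    ∀ j < n, rlam (f j) (g j) (F j) (G j) = rlam (f 0) (g 0) (F 0) (G 0) := by
  intro j
  induction j with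
  | zero => intro _; rfl
  | succ k ih =>
    intro hk
    have hk' : k < n := by omega
    have e : (k + 1) % n = k + 1 := Nat.mod_eq_of_lt hk
    have hv := v k hk'
    rw [e] at hv
    obtain ⟨p1, p2, p3, p4⟩ := hp _ hk
    obtain ⟨d1, d2⟩ := d _ hk
    rw [hv.rlam_step p1 p2 p3 p4 d1 d2, ih hk']

/-- the sum of the linear terms -/
lemma linD_sum (hn : 1 ≤ n) (hz : ∀ j, z j = (p j).rz)
    (hp : ∀ j < n, hpt dl (p j) ∧ lcr dl (p j))
    (hl : ∀ j < n, I * ((p ((j + 1) % n)).wt * (2 * (z ((j + 1) % n) / 2)) + 2 * π) =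
      lgr (u j / 2) (z ((j + 1) % n) / 2) + lgr (u ((j + 1) % n) / 2) (z ((j + 1) % n) / 2) +
        lg dl (p ((j + 1) % n)))
    (hs : ∀ j < n, (y j).shape = (p j).shape) (hok : ∀ j < n, (y j).OK)
    (v : ∀ j < n, VD (y ((j + 1) % n)).wt (y ((j + 1) % n)).fl (f j) (g j) (F j) (G j)
      (f ((j + 1) % n)) (g ((j + 1) % n)) (F ((j + 1) % n)) (G ((j + 1) % n))) :
    ∑ j ∈ range n, (2 * LL dl (p j) (y j) + lin n z χ u f g F G j) =
      ∑ j ∈ range n, TX (u j / 2) (z j / 2) (z ((j + 1) % n) / 2) (χ / 2) (f j) (g j) (F j)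
        (G j) := by
  have h0 : 0 < n := by omega
  unfold lin
  have e0 : ∑ j ∈ range n, (2 * LL dl (p j) (y j) +
        (TB (u j / 2) (z j / 2) (χ / 2) ((log (cos (z j / 2 + χ / 2))).re +
          (log (cos (z j / 2 - χ / 2))).re) (f j) (g j) (F j) (G j) +
        TU (u j / 2) (z ((j + 1) % n) / 2) (χ / 2) ((log (cos (z ((j + 1) % n) / 2 + χ / 2))).re +
          (log (cos (z ((j + 1) % n) / 2 - χ / 2))).re) (f j) (g j) (F j) (G j) +
        TX (u j / 2) (z j / 2) (z ((j + 1) % n) / 2) (χ / 2) (f j) (g j) (F j) (G j))) =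
      ∑ j ∈ range n, (2 * LL dl (p ((j + 1) % n)) (y ((j + 1) % n)) +
        (TB (u ((j + 1) % n) / 2) (z ((j + 1) % n) / 2) (χ / 2)
        ((log (cos (z ((j + 1) % n) / 2 + χ / 2))).re +
          (log (cos (z ((j + 1) % n) / 2 - χ / 2))).re)
        (f ((j + 1) % n)) (g ((j + 1) % n)) (F ((j + 1) % n)) (G ((j + 1) % n)) +
        TU (u j / 2) (z ((j + 1) % n) / 2) (χ / 2) ((log (cos (z ((j + 1) % n) / 2 + χ / 2))).re +
          (log (cos (z ((j + 1) % n) / 2 - χ / 2))).re) (f j) (g j) (F j) (G j))) +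
      ∑ j ∈ range n, TX (u j / 2) (z j / 2) (z ((j + 1) % n) / 2) (χ / 2) (f j) (g j) (F j)
        (G j) := by
    have s1 := sum_succ_mod n hn (fun j => 2 * LL dl (p j) (y j))
    have s2 := sum_succ_mod n hn (fun j => TB (u j / 2) (z j / 2) (χ / 2)
        ((log (cos (z j / 2 + χ / 2))).re + (log (cos (z j / 2 - χ / 2))).re)
        (f j) (g j) (F j) (G j))
    simp only [sum_add_distrib]
    rw [s1, s2]
    ring
  rw [e0]
  have e1 : ∑ j ∈ range n, (2 * LL dl (p ((j + 1) % n)) (y ((j + 1) % n)) +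
      (TB (u ((j + 1) % n) / 2) (z ((j + 1) % n) / 2) (χ / 2)
      ((log (cos (z ((j + 1) % n) / 2 + χ / 2))).re +
        (log (cos (z ((j + 1) % n) / 2 - χ / 2))).re)
      (f ((j + 1) % n)) (g ((j + 1) % n)) (F ((j + 1) % n)) (G ((j + 1) % n)) +
      TU (u j / 2) (z ((j + 1) % n) / 2) (χ / 2) ((log (cos (z ((j + 1) % n) / 2 + χ / 2))).re +
        (log (cos (z ((j + 1) % n) / 2 - χ / 2))).re) (f j) (g j) (F j) (G j))) = 0 := by
    refine sum_eq_zero fun j hj => ?_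
    rw [mem_range] at hj
    have hk : (j + 1) % n < n := Nat.mod_lt _ (by omega)
    have hv := v j hj
    have hLL := LL_eq dl (p ((j + 1) % n)) (hp _ hk).1 (hp _ hk).2
      (y ((j + 1) % n)) (hs _ hk) (hok _ hk)
    have hwt := (wt_eq _ _ (hs _ hk)).1
    have hlg := el_lg dl (p ((j + 1) % n)) (y ((j + 1) % n)) (hs _ hk)
    rw [← el_map dl _ _ (hs _ hk), hwt] at hv
    have he := hl j hj
    rw [← hlg, ← hz] at he
    have e3 : 2 * (z ((j + 1) % n) / 2) = z ((j + 1) % n) := by ring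
    have key := vertexD hv (el_pos dl _ _ (hs _ hk) (hok _ hk))
      (a := u j / 2) (a' := u ((j + 1) % n) / 2) (b := z ((j + 1) % n) / 2) (c := χ / 2)
      (by rw [e3] at he ⊢; exact he)
      ((log (cos (z ((j + 1) % n) / 2 + χ / 2))).re +
        (log (cos (z ((j + 1) % n) / 2 - χ / 2))).re)
    rw [hLL, ← hz]
    rw [e3] at key
    linarith
  rw [e1, zero_add]

/-- the case of equality -/
lemma dmax_eq (hz : ∀ j, z j = (p j).rz)
    (hB : ∀ j < n, BG (u j / 2) (z j / 2) (z ((j + 1) % n) / 2) (χ / 2))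
    (hpos : ∀ j < n, (f j).Pos ∧ (g j).Pos ∧ (F j).Pos ∧ (G j).Pos)
    (d : ∀ j < n, (f j).b + (f j).c' + ((g j).b + (g j).c') = 2 * π ∧
      (F j).b + (F j).c' + ((G j).b + (G j).c') = 2 * π)
    (hp : ∀ j < n, hpt dl (p j)) (hs : ∀ j < n, (y j).shape = (p j).shape)
    (hok : ∀ j < n, (y j).OK)
    (hl : ∑ j ∈ range n, (2 * LL dl (p j) (y j) + lin n z χ u f g F G j) = 0) :
    dVol n y f g F G ≤ dVol n (fun j => ang dl (p j)) (cf z χ u) (cg n z χ u) (cF z χ u)
      (cG n z χ u) ∧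
    (dVol n (fun j => ang dl (p j)) (cf z χ u) (cg n z χ u) (cF z χ u) (cG n z χ u) ≤
      dVol n y f g F G →
      ∀ j < n, y j = ang dl (p j) ∧
        f j = cf z χ u j ∧ g j = cg n z χ u j ∧ F j = cF z χ u j ∧ G j = cG n z χ u j) := by
  have hb1 : ∀ j < n, 0 ≤ (cf z χ u j).vol + (cg n z χ u j).vol + (cF z χ u j).vol +
      (cG n z χ u j).vol - lin n z χ u f g F G j -
      ((f j).vol + (g j).vol + (F j).vol + (G j).vol) :=
    fun j hj => (block_leZ (hB j hj) (hpos j hj) (d j hj)).1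
  have hb2 : ∀ j < n, 0 ≤ (ang dl (p j)).vol - 2 * LL dl (p j) (y j) - (y j).vol := by
    intro j hj
    have := vol_LL Pool.Agent.W120.VC.tet dl (p j) (hp j hj) (y j) (hs j hj) (hok j hj)
    linarith
  have hnn : ∀ j ∈ range n, 0 ≤ ((cf z χ u j).vol + (cg n z χ u j).vol + (cF z χ u j).vol +
      (cG n z χ u j).vol - lin n z χ u f g F G j -
      ((f j).vol + (g j).vol + (F j).vol + (G j).vol)) +
      ((ang dl (p j)).vol - 2 * LL dl (p j) (y j) - (y j).vol) := by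
    intro j hj
    rw [mem_range] at hj
    exact add_nonneg (hb1 j hj) (hb2 j hj)
  have e : ∑ j ∈ range n, (((cf z χ u j).vol + (cg n z χ u j).vol + (cF z χ u j).vol +
      (cG n z χ u j).vol - lin n z χ u f g F G j -
      ((f j).vol + (g j).vol + (F j).vol + (G j).vol)) +
      ((ang dl (p j)).vol - 2 * LL dl (p j) (y j) - (y j).vol)) =
      dVol n (fun j => ang dl (p j)) (cf z χ u) (cg n z χ u) (cF z χ u) (cG n z χ u) -
        dVol n y f g F G := by
    unfold dVol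
    rw [← sub_zero (∑ j ∈ range n, ((ang dl (p j)).vol + _) - _), ← hl, ← sum_sub_distrib,
      ← sum_sub_distrib]
    refine sum_congr rfl fun j _ => ?_
    ring
  have h0 := sum_nonneg hnn
  refine ⟨by linarith, fun h j hj => ?_⟩
  have h1 := (sum_eq_zero_iff_of_nonneg hnn).1 (by linarith) j (mem_range.2 hj)
  have h2 := hb1 j hj
  have h3 := hb2 j hj
  refine ⟨tree_unique (p j) (hp j hj) (y j) (hs j hj) (hok j hj) (by linarith), ?_⟩
  exact (block_leZ (hB j hj) (hpos j hj) (d j hj)).2 (by linarith)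

/-- uniqueness, closed ring -/
theorem unid {m : ℤ} (hn : 1 ≤ n) (hz : ∀ j, z j = (p j).rz)
    (hp : ∀ j < n, hpt dl (p j) ∧ lcr dl (p j))
    (h : CritD n (fun j => (p j).wt) (fun j => lg dl (p j)) m z χ u)
    (hs : ∀ j < n, (y j).shape = (p j).shape) (hy : DAng n m y f g F G)
    (hle : dVol n (fun j => ang dl (p j)) (cf z χ u) (cg n z χ u) (cF z χ u) (cG n z χ u) ≤
      dVol n y f g F G) :
    ∀ j < n, y j = ang dl (p j) ∧
      f j = cf z χ u j ∧ g j = cg n z χ u j ∧ F j = cF z χ u j ∧ G j = cG n z χ u j := by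
  have hR := rlamD_const hy.pos hy.diag hy.vert
  have h2 : ∑ j ∈ range n, (2 * LL dl (p j) (y j) + lin n z χ u f g F G j) = 0 := by
    rw [linD_sum hn hz hp (fun j hj => h.lgr hj) hs hy.tree hy.vert]
    have e2 : ∀ j ∈ range n, TX (u j / 2) (z j / 2) (z ((j + 1) % n) / 2) (χ / 2) (f j) (g j) (F j)
        (G j) = (Chi.lcr (u j / 2) (χ / 2)).re *
          ((rlam (f 0) (g 0) (F 0) (G 0) - 4 * (χ / 2).re) / 2) +
        (-(χ / 2).im) * (rho (f j) (g j) (F j) (G j)) +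
        (-2 * (χ / 2).im) * (Chi.lcr (u j / 2) (χ / 2)).im +
        ((χ / 2).im * (2 * (log (cos (z j / 2 + χ / 2))).im) -
        (χ / 2).im * (2 * (log (cos (z ((j + 1) % n) / 2 + χ / 2))).im)) := by
      intro j hj
      rw [mem_range] at hj
      have := hR j hj
      rw [← this]
      unfold TX rlam rho
      ring
    rw [sum_congr rfl e2, sum_add_distrib, sum_add_distrib, sum_add_distrib, sum_sub_distrib,
      sum_succ_mod n hn (fun j => (χ / 2).im * (2 * (log (cos (z j / 2 + χ / 2))).im)), sub_self,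
      add_zero, ← sum_mul, ← mul_sum, ← mul_sum, hy.fill]
    have he := congrArg Complex.im h.lcr
    have hf := congrArg Complex.re h.lcr
    rw [Complex.im_sum, im_I_mul] at he
    rw [Complex.re_sum, re_I_mul] at hf
    have g1 : (2 * (m : ℂ) * (2 * (χ / 2)) + 2 * π).re = 2 * m * (2 * (χ / 2).re) + 2 * π := by
      simp
    have g2 : (2 * (m : ℂ) * (2 * (χ / 2)) + 2 * π).im = 2 * m * (2 * (χ / 2).im) := by
      simp
    rw [g1] at he
    rw [g2] at hf
    rw [← he, ← hf]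
    ring
  exact (dmax_eq hz h.bz hy.pos hy.diag (fun j hj => (hp j hj).1) hs hy.tree h2).2 hle

/-- a solution of the critical point equations at `χ = 0` -/
structure CritDA (n : ℕ) (a : ℕ → ℤ) (L : ℕ → ℂ) (z : ℕ → ℂ) (u : ℕ → ℂ) : Prop where
  bz : ∀ j < n, BG (u j / 2) (z j / 2) (z ((j + 1) % n) / 2) (0 / 2)
  vert : ∀ j < n, I * (a ((j + 1) % n) * z ((j + 1) % n) + 2 * π) =
    Lg (u j) (z ((j + 1) % n)) + Lg (u ((j + 1) % n)) (z ((j + 1) % n)) + L ((j + 1) % n)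

lemma CritDA.lgr {a : ℕ → ℤ} {L : ℕ → ℂ} (h : CritDA n a L z u) {j : ℕ} (hj : j < n) :
    I * (a ((j + 1) % n) * (2 * (z ((j + 1) % n) / 2)) + 2 * π) =
      Pool.Agent.Y482.Chi.lgr (u j / 2) (z ((j + 1) % n) / 2) +
      Pool.Agent.Y482.Chi.lgr (u ((j + 1) % n) / 2) (z ((j + 1) % n) / 2) + L ((j + 1) % n) := by
  have h1 : (j + 1) % n < n := Nat.mod_lt _ (by omega)
  rw [← (h.bz j hj).lg1.2.1, ← (h.bz _ h1).lg1.1,
    show 2 * (z ((j + 1) % n) / 2) = z ((j + 1) % n) by ring]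
  exact h.vert j hj

/-- maximality and uniqueness, the ring with its axis -/
theorem unida (hn : 1 ≤ n) (hz : ∀ j, z j = (p j).rz)
    (hp : ∀ j < n, hpt dl (p j) ∧ lcr dl (p j))
    (h : CritDA n (fun j => (p j).wt) (fun j => lg dl (p j)) z u)
    (hs : ∀ j < n, (y j).shape = (p j).shape) (hy : DAngA n y f g F G) :
    dVol n y f g F G ≤ dVol n (fun j => ang dl (p j)) (cf z 0 u) (cg n z 0 u) (cF z 0 u)
      (cG n z 0 u) ∧
    (dVol n (fun j => ang dl (p j)) (cf z 0 u) (cg n z 0 u) (cF z 0 u) (cG n z 0 u) ≤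
      dVol n y f g F G →
      ∀ j < n, y j = ang dl (p j) ∧
        f j = cf z 0 u j ∧ g j = cg n z 0 u j ∧ F j = cF z 0 u j ∧ G j = cG n z 0 u j) := by
  have h2 : ∑ j ∈ range n, (2 * LL dl (p j) (y j) + lin n z 0 u f g F G j) = 0 := by
    rw [linD_sum hn hz hp (fun j hj => h.lgr hj) hs hy.tree hy.vert]
    refine sum_eq_zero fun j hj => ?_
    unfold TX
    rw [zero_div, Pool.Agent.Y482.Cv.lcr0]
    simp
  exact dmax_eq hz h.bz hy.pos hy.diag (fun j hj => (hp j hj).1) hs hy.tree h2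

end

end Pool.Agent.Y482.DX
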