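import Pool.Agent.Y482.DX.CvS
import Pool.Agent.Y482.DX.CvU
import Pool.Agent.Y482.DX.CvL
import Pool.Agent.Y481.DR.Find

/-!
# The complex volume of a ring of trees
-/

set_option autoImplicit false

namespace Pool.Agent.Y482.DX

open Finset
open Complex (exp log cos sin I)
open Pool.Agent.TH563.CV (FlatTree flat flat_angles)
open Pool.Agent.TH563.UV (Tb PB AB)
open Pool.Agent.TH563.UV.Arb (ofAB)
open Pool.Agent.TH609.UV (ang lg hpt)
open Pool.Agent.W711.HT hiding XX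
open Pool.Agent.W719.AR (Fl)
open Pool.Agent.Y472 (SDZ SD3 RVal3 Rz Zr S_S0P szz dzz)
open Pool.Agent.Y481.DR (VD DAng dVol CritD RCritF crit_ang S_GEOD)
open Pool.Agent.Y481.DX (DAngA RCrit3F RCrit0F S_GEOD3 S_GEODA)
open Pool.Agent.Y482 (sum_succ_mod)
open Pool.Agent.Y482.Chi hiding tri_a1 tri_a2 tri_b1 tri_b2 blkAng blkCr blk_lf dvol crit_ang
  crit_vol crit_max lcr crit_of val_of
open Pool.Agent.Y482.Cv (csum cf cg cF cG S8 E8 sub_phase_re csum_congr)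
open Pool.Agent.Y482.Cz (BG Near)
open Pool.Agent.Y482.Ph (RVal0)
open scoped Real

/-- properties of angle structures -/
abbrev AP : Type := (ℕ → AB) → (ℕ → Fl) → (ℕ → Fl) → (ℕ → Fl) → (ℕ → Fl) → Prop

/-- `2 π v = V + i C` is the complex volume: `V` is the maximal volume, and the sum of the
dilogarithms is `i (V + i C)` modulo `π²` for all flattenings of all structures of this volume -/
def CVG (n : ℕ) (c : ℤ) (P : AP) (v : ℂ) : Prop :=
  IsGreatest {W : ℝ | ∃ (y : ℕ → AB) (f g F G : ℕ → Fl), P y f g F G ∧ dVol n y f g F G = W}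
    (2 * π * v.re) ∧
  (∃ (y : ℕ → AB) (f g F G : ℕ → Fl) (t : ℕ → FlatTree) (x : ℕ → RP), P y f g F G ∧
    dVol n y f g F G = 2 * π * v.re ∧ (∀ j < n, (t j).angles = ofAB (y j)) ∧ DFlat n c t x) ∧
  ∀ (y : ℕ → AB) (f g F G : ℕ → Fl) (t : ℕ → FlatTree) (x : ℕ → RP), P y f g F G →
    dVol n y f g F G = 2 * π * v.re → (∀ j < n, (t j).angles = ofAB (y j)) → DFlat n c t x →
    ∃ k : ℤ, dsum n f g F G t x = 2 * π * I * v + k * (π : ℂ) ^ 2

/-- angle structures of the ring of trees with the shapes `sh` -/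
def PC (n : ℕ) (m : ℤ) (sh : ℕ → Tb) : AP := fun y f g F G =>
  (∀ j < n, (y j).shape = sh j) ∧ DAng n m y f g F G

/-- angle structures of the ring of trees with the shapes `sh` and its axis -/
def PAx (n : ℕ) (sh : ℕ → Tb) : AP := fun y f g F G =>
  (∀ j < n, (y j).shape = sh j) ∧ DAngA n y f g F G

lemma dVol_congr {n : ℕ} {y y' : ℕ → AB} {f g F G f' g' F' G' : ℕ → Fl}
    (h : ∀ j < n, y j = y' j ∧ f j = f' j ∧ g j = g' j ∧ F j = F' j ∧ G j = G' j) :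
    dVol n y f g F G = dVol n y' f' g' F' G' := by
  unfold dVol
  refine sum_congr rfl fun j hj => ?_
  rw [mem_range] at hj
  obtain ⟨h0, h1, h2, h3, h4⟩ := h j hj
  rw [h0, h1, h2, h3, h4]

lemma dsum_congr {n : ℕ} {f g F G f' g' F' G' : ℕ → Fl} {t : ℕ → FlatTree} {x : ℕ → RP}
    (h : ∀ j < n, f j = f' j ∧ g j = g' j ∧ F j = F' j ∧ G j = G' j) :
    dsum n f g F G t x = dsum n f' g' F' G' t x := by
  unfold dsum
  rw [csum_congr h]

theorem cvg_core {n : ℕ} {c : ℤ} {P : AP} {p : ℕ → PB} {z u : ℕ → ℂ} {χ : ℂ} {dl : ℂ → ℂ → ℂ}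
    {v : ℂ} (hn : 1 ≤ n)
    (hG : IsGreatest {W : ℝ | ∃ (y : ℕ → AB) (f g F G : ℕ → Fl), P y f g F G ∧
      dVol n y f g F G = W} (2 * π * v.re))
    (hc : P (fun j => ang dl (p j)) (cf z χ u) (cg n z χ u) (cF z χ u) (cG n z χ u))
    (hu : ∀ (y : ℕ → AB) (f g F G : ℕ → Fl), P y f g F G →
      dVol n (fun j => ang dl (p j)) (cf z χ u) (cg n z χ u) (cF z χ u) (cG n z χ u) ≤
        dVol n y f g F G → ∀ j < n, y j = ang dl (p j) ∧
        f j = cf z χ u j ∧ g j = cg n z χ u j ∧ F j = cF z χ u j ∧ G j = cG n z χ u j)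
    (hs : ∀ (t : ℕ → FlatTree) (x : ℕ → RP), DFlat n c t x →
      (∀ j < n, (t j).angles = ofAB (ang dl (p j))) → ∃ k : ℤ,
      dsum n (cf z χ u) (cg n z χ u) (cF z χ u) (cG n z χ u) t x =
        2 * π * I * v + k * (π : ℂ) ^ 2) : CVG n c P v := by
  have hle := hG.2 ⟨_, _, _, _, _, hc, rfl⟩
  have hV : dVol n (fun j => ang dl (p j)) (cf z χ u) (cg n z χ u) (cF z χ u) (cG n z χ u) =
      2 * π * v.re := by
    obtain ⟨y, f, g, F, G, h1, h2⟩ := hG.1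
    have h3 := hu y f g F G h1 (by rw [h2]; exact hle)
    rw [← h2]
    exact (dVol_congr h3).symm
  refine ⟨hG, ⟨_, _, _, _, _, _, _, hc, hV, fun j _ => flatX_angles (ofAB (ang dl (p j))),
    dflat_exists hn c fun j => ofAB (ang dl (p j))⟩, ?_⟩
  intro y f g F G t x h1 h2 h3 h4
  have h5 := hu y f g F G h1 (by rw [h2, hV])
  rw [dsum_congr fun j hj => (h5 j hj).2]
  exact hs t x h4 fun j hj => by rw [h3 j hj, (h5 j hj).1]

lemma set_shape {n : ℕ} {p : ℕ → PB} {sh : ℕ → Tb} (hsh : ∀ j < n, (p j).shape = sh j)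
    {Q : AP} :
    {W : ℝ | ∃ (y : ℕ → AB) (f g F G : ℕ → Fl), (∀ j < n, (y j).shape = (p j).shape) ∧
      Q y f g F G ∧ dVol n y f g F G = W} =
    {W : ℝ | ∃ (y : ℕ → AB) (f g F G : ℕ → Fl), ((∀ j < n, (y j).shape = sh j) ∧
      Q y f g F G) ∧ dVol n y f g F G = W} := by
  ext W
  constructor
  · rintro ⟨y, f, g, F, G, h1, h2, h3⟩
    exact ⟨y, f, g, F, G, ⟨fun j hj => by rw [h1 j hj, hsh j hj], h2⟩, h3⟩
  · rintro ⟨y, f, g, F, G, ⟨h1, h2⟩, h3⟩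
    exact ⟨y, f, g, F, G, fun j hj => by rw [h1 j hj, hsh j hj], h2, h3⟩

/-- the exponent with the phase -/
lemma re_phase (x : ℂ) {n : ℕ} (ws : ℕ → ℤ) :
    (x - π * I / 4 * ∑ j ∈ range n, (ws j : ℂ)).re = x.re := by
  have := sub_phase_re x (∑ j ∈ range n, ws j)
  push_cast at this
  exact this

section
variable {ρ τ κ cc : ℝ} {s dl : ℂ → ℂ → ℂ} {ρ₀ c C : ℝ}

/-- the closed ring: from the equations -/
theorem cvg_closed (hK : KD ρ τ κ cc s dl) {Θ : ℂ → ℂ} {n : ℕ} (hn : 1 ≤ n) {m : ℤ} {p : ℕ → PB}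
    {sh : ℕ → Tb} {z u sv : ℕ → ℂ} {χ w : ℂ} (hz : ∀ j, z j = (p j).rz)
    (hsh : ∀ j < n, (p j).shape = sh j)
    (hp : ∀ j < n, (p j).Crt s ρ τ ∧ z j ∈ Rc ρ τ ∧ ‖z j‖ ≤ 1 / 10)
    (hX : CritD n (fun j => (p j).wt) (fun j => lg dl (p j)) m z χ u)
    (hs : ∀ j < n, S8 (u j / 2) (z j / 2) (z ((j + 1) % n) / 2) (χ / 2) = 2 * π * I * sv j +
      I / 2 * (z j * Lg (u j) (z j) + z ((j + 1) % n) * Lg (u j) (z ((j + 1) % n)) +
        χ * Lc (u j) χ) -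
      (Θ (z j / 2) - Θ (z j / 2 + χ / 2) -
        (Θ (z ((j + 1) % n) / 2) - Θ (z ((j + 1) % n) / 2 + χ / 2))) +
      π * I / 4 * E8 (u j / 2) (z j / 2) (z ((j + 1) % n) / 2) (χ / 2) - (π : ℂ) ^ 2 / 2)
    (hw : w = ∑ j ∈ range n, (I * (p j).wt * z j ^ 2 / (4 * π) + I * z j + sv j) +
      (I * m * χ ^ 2 / (2 * π) + I * χ) + ∑ j ∈ range n, (p j).vl s)
    (hG : IsGreatest {W : ℝ | ∃ (y : ℕ → AB) (f g F G : ℕ → Fl),
      (∀ j < n, (y j).shape = (p j).shape) ∧ DAng n m y f g F G ∧ dVol n y f g F G = W}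
      (2 * π * w.re)) :
    CVG n (-2) (PC n m sh) (w - π * I / 4 * ∑ j ∈ range n, ((sh j).ws : ℂ)) := by
  have hi : ∀ j < n, _ := fun j hj => Pool.Agent.TH609.UV.ind Pool.Agent.W583.HTP.poth hK (p j)
    (hp j hj).1 (by rw [← hz]; exact (hp j hj).2.1) (by rw [← hz]; exact (hp j hj).2.2)
  have hq : ∀ j < n, hpt dl (p j) ∧ Pool.Agent.TH609.UV.lcr dl (p j) :=
    fun j hj => ⟨(hi j hj).2.1, (hi j hj).2.2.1⟩
  have hpi : (π : ℂ) ≠ 0 := Complex.ofReal_ne_zero.2 Real.pi_ne_zero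
  refine cvg_core (p := p) (z := z) (u := u) (χ := χ) (dl := dl) hn ?_ ?_ ?_ ?_
  · rw [re_phase]
    rw [set_shape (Q := DAng n m) hsh] at hG
    exact hG
  · refine ⟨fun j hj => by rw [Pool.Agent.TH609.UV.ang_shape, hsh j hj], ?_⟩
    have hX' := hX
    have hz' : z = fun j => (p j).rz := funext hz
    rw [hz'] at hX'
    have := crit_ang hn hq hX'
    simp only [← hz] at this
    exact this
  · rintro y f g F G ⟨h1, h2⟩ h3
    exact unid hn hz hq hX (fun j hj => by rw [h1 j hj, hsh j hj]) h2 h3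
  · intro t x hx ht
    obtain ⟨k, hk⟩ := dsum_gen hK hn hz hp hX.bz hs hX.vert hx ht
    refine ⟨k, ?_⟩
    have e1 : ∑ j ∈ range n, ((p j).shape.ws : ℂ) = ∑ j ∈ range n, ((sh j).ws : ℂ) := by
      refine sum_congr rfl fun j hj => ?_
      rw [hsh j (mem_range.1 hj)]
    rw [hk, ← hX.axis, e1, hw]
    push_cast
    field_simp
    linear_combination (-(8 * π * χ) + 4 * (π : ℂ) ^ 2 * ∑ j ∈ range n, ((sh j).ws : ℂ)) *
      Complex.I_sq

/-- the ring with its axis: from the equations -/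
theorem cvg_axis (hK : KD ρ τ κ cc s dl) {Θ : ℂ → ℂ} {n : ℕ} (hn : 1 ≤ n) {p : ℕ → PB}
    {sh : ℕ → Tb} {z u sv : ℕ → ℂ} {w : ℂ} (hz : ∀ j, z j = (p j).rz)
    (hsh : ∀ j < n, (p j).shape = sh j)
    (hp : ∀ j < n, (p j).Crt s ρ τ ∧ z j ∈ Rc ρ τ ∧ ‖z j‖ ≤ 1 / 10)
    (hX : CritDA n (fun j => (p j).wt) (fun j => lg dl (p j)) z u)
    (hs : ∀ j < n, S8 (u j / 2) (z j / 2) (z ((j + 1) % n) / 2) (0 / 2) = 2 * π * I * sv j +
      I / 2 * (z j * Lg (u j) (z j) + z ((j + 1) % n) * Lg (u j) (z ((j + 1) % n)) +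
        0 * Lc (u j) 0) -
      (Θ (z j / 2) - Θ (z j / 2 + 0 / 2) -
        (Θ (z ((j + 1) % n) / 2) - Θ (z ((j + 1) % n) / 2 + 0 / 2))) +
      π * I / 4 * E8 (u j / 2) (z j / 2) (z ((j + 1) % n) / 2) (0 / 2) - (π : ℂ) ^ 2 / 2)
    (hw : w = ∑ j ∈ range n, (I * (p j).wt * z j ^ 2 / (4 * π) + I * z j + sv j) +
      ∑ j ∈ range n, (p j).vl s)
    (hG : IsGreatest {W : ℝ | ∃ (y : ℕ → AB) (f g F G : ℕ → Fl),
      (∀ j < n, (y j).shape = (p j).shape) ∧ DAngA n y f g F G ∧ dVol n y f g F G = W}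
      (2 * π * w.re))
    (hcA : DAngA n (fun j => ang dl (p j)) (cf z 0 u) (cg n z 0 u) (cF z 0 u) (cG n z 0 u)) :
    CVG n 0 (PAx n sh) (w - π * I / 4 * ∑ j ∈ range n, ((sh j).ws : ℂ)) := by
  have hi : ∀ j < n, _ := fun j hj => Pool.Agent.TH609.UV.ind Pool.Agent.W583.HTP.poth hK (p j)
    (hp j hj).1 (by rw [← hz]; exact (hp j hj).2.1) (by rw [← hz]; exact (hp j hj).2.2)
  have hq : ∀ j < n, hpt dl (p j) ∧ Pool.Agent.TH609.UV.lcr dl (p j) :=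
    fun j hj => ⟨(hi j hj).2.1, (hi j hj).2.2.1⟩
  refine cvg_core (p := p) (z := z) (u := u) (χ := 0) (dl := dl) hn ?_ ?_ ?_ ?_
  · rw [re_phase]
    rw [set_shape (Q := DAngA n) hsh] at hG
    exact hG
  · exact ⟨fun j hj => by rw [Pool.Agent.TH609.UV.ang_shape, hsh j hj], hcA⟩
  · rintro y f g F G ⟨h1, h2⟩ h3
    exact (unida hn hz hq hX (fun j hj => by rw [h1 j hj, hsh j hj]) h2).2 h3
  · intro t x hx ht
    obtain ⟨k, hk⟩ := dsum_gen hK hn hz hp hX.bz hs hX.vert hx ht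
    refine ⟨k, ?_⟩
    have e1 : ∑ j ∈ range n, ((p j).shape.ws : ℂ) = ∑ j ∈ range n, ((sh j).ws : ℂ) := by
      refine sum_congr rfl fun j hj => ?_
      rw [hsh j (mem_range.1 hj)]
    rw [hk, e1, hw]
    push_cast
    linear_combination ((π : ℂ) ^ 2 / 2 * ∑ j ∈ range n, ((sh j).ws : ℂ)) * Complex.I_sq

end

end Pool.Agent.Y482.DX
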