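import Pool.Agent.Y482.DX.CvG
import Pool.Agent.Y481.DR.Find
import Pool.Agent.Y977.DX.Expr

/-!
# Rings of trees: expansions and complex volume of the links, tools
-/

set_option autoImplicit false

namespace Pool.Agent.Y482.DX

open Finset Filter Topology Metric
open Pool.Agent.W711.HT hiding XX
open Pool.Agent.Y472
open Pool.Agent.Y481 (itI cw wts)
open Pool.Agent.Y481.DR
open Pool.Agent.Y481.DX (DGX wsl nbl pzD JA EA S_EXDX S_AXPD S_SCA S_EXPR RCrit3F RCrit0F)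
open Pool.Agent.TH563.UV (Tb op XX PB AB)
open Pool.Agent.W719.AR (Fl)
open Pool.Agent.W719.AX (EXY)
open Pool.Agent.Y482.Ph (RVal0)
open scoped Real

/-! ### Expansions -/

lemma exy_exp {a : ℕ → ℂ} {v : ℂ} {y : ℕ → ℂ} (c : ℂ) (h : EXY a v y) :
    EXY (fun N => Complex.exp (N * c) * a N) (v + c) y := by
  intro K
  obtain ⟨C, hC⟩ := h K
  refine ⟨C, ?_⟩
  filter_upwards [hC] with N hN
  have e : Complex.exp (N * c) * a N / (((Real.sqrt N) ^ 3 : ℝ) * Complex.exp (N * (v + c))) =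
      a N / (((Real.sqrt N) ^ 3 : ℝ) * Complex.exp (N * v)) := by
    rw [mul_add, Complex.exp_add]
    have h1 := Complex.exp_ne_zero (N * c)
    rw [show (((Real.sqrt N) ^ 3 : ℝ) : ℂ) * (Complex.exp (N * v) * Complex.exp (N * c)) =
      Complex.exp (N * c) * ((((Real.sqrt N) ^ 3 : ℝ) : ℂ) * Complex.exp (N * v)) by ring,
      mul_div_mul_left _ _ h1]
  rw [e]
  exact hN

lemma exy_congr {a b : ℕ → ℂ} {v : ℂ} {y : ℕ → ℂ} (hab : ∀ᶠ N in atTop, a N = b N)
    (h : EXY a v y) : EXY b v y := by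
  intro K
  obtain ⟨C, hC⟩ := h K
  refine ⟨C, ?_⟩
  filter_upwards [hC, hab] with N hN h1
  rw [← h1]
  exact hN

/-! ### Normalised lists -/

/-- the factor of a tree -/
noncomputable def nf (F : Tb → ℂ → ℂ) (t : Tb) (N : ℕ) : ℂ :=
  (N : ℂ) ^ (2 * t.ne) * (-1) ^ (N * t.ne) * Complex.exp (-(N * F t 0))

/-- the normalised vertices -/
noncomputable def nvX (F : Tb → ℂ → ℂ) (t : Tb) : Vx := (t.wt, fun N ψ => XX t N ψ * nf F t N)

/-- the normalised list -/
noncomputable def nvlX (F : Tb → ℂ → ℂ) (ts : List (Tb × Tb)) : List (Vx × Vx) :=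
  ts.map fun p => (nvX F p.1, nvX F p.2)

/-- the factors -/
noncomputable def evX (F : Tb → ℂ → ℂ) (ts : List (Tb × Tb)) : List ((ℕ → ℂ) × (ℕ → ℂ)) :=
  ts.map fun p => (nf F p.1, nf F p.2)

section
variable (F : Tb → ℂ → ℂ) (ts : List (Tb × Tb))

lemma nvlX_len : (nvlX F ts).length = ts.length := by simp [nvlX]

lemma nvlX_scl : nvlX F ts = scl (tvl ts) (evX F ts) := by
  induction ts with
  | nil => rfl
  | cons p ts ih =>
    simp only [nvlX, scl, tvl, evX, List.map_cons, List.zipWith_cons_cons] at ih ⊢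
    rw [ih]
    rfl

lemma cw_nvlX {j : ℕ} (hj : j < 2 * ts.length) : cw (wl (nvlX F ts)) j = (tj ts j).wt := by
  have h : (wl (nvlX F ts)) = ts.map fun p => (p.1.wt, p.2.wt) := by
    simp [wl, nvlX, nvX]
  have h2 : ((ts.map fun p : Tb × Tb => (p.1.wt, p.2.wt)).map fun p : ℤ × ℤ => [p.1, p.2]) =
      ts.map fun p => [p.1.wt, p.2.wt] := by
    simp [List.map_map, Function.comp_def]
  rw [cw, wts, h, h2]
  exact flat_getD _ ts (fun t => t.wt) 0 hj

lemma vy_nvlX {j : ℕ} (hj : j < 2 * ts.length) : vy (nvlX F ts) j = (nvX F (tj ts j)).2 := by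
  have h2 : ((nvlX F ts).map fun p : Vx × Vx => [p.1.2, p.2.2]) =
      ts.map fun p => [(nvX F p.1).2, (nvX F p.2).2] := by
    simp [nvlX, List.map_map, Function.comp_def]
  rw [vy, h2]
  exact flat_getD _ ts (fun t => (nvX F t).2) _ hj

lemma tj_sum {M : Type*} [AddCommMonoid M] (h : Tb → M) :
    (ts.map fun p => h p.1 + h p.2).sum = ∑ j ∈ range (2 * ts.length), h (tj ts j) := by
  unfold tj
  induction ts with
  | nil => simp
  | cons p ts ih =>
    rw [List.map_cons, List.sum_cons, ih, List.length_cons,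
      show 2 * (ts.length + 1) = 2 * ts.length + 1 + 1 by ring, sum_range_succ', sum_range_succ']
    simp only [List.map_cons, List.flatten_cons, List.cons_append, List.nil_append,
      List.getD_cons_succ, List.getD_cons_zero]
    abel

lemma wsl_sum : wsl ts = ∑ j ∈ range (2 * ts.length), (tj ts j).ws := tj_sum ts fun t => t.ws

/-- the product of the factors -/
lemma evX_prod (N : ℕ) : ((evX F ts).map fun c => c.1 N * c.2 N).prod =
    (N : ℂ) ^ (2 * nel ts) * (-1) ^ (N * nel ts) *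
      Complex.exp (-(N * ∑ j ∈ range (2 * ts.length), F (tj ts j) 0)) := by
  rw [← tj_sum ts fun t => F t 0]
  unfold nel
  induction ts with
  | nil => simp [evX]
  | cons p ts ih =>
    have h1 : ((evX F (p :: ts)).map fun c => c.1 N * c.2 N).prod =
        nf F p.1 N * nf F p.2 N * ((evX F ts).map fun c => c.1 N * c.2 N).prod := by
      simp [evX]
    rw [h1, ih]
    simp only [List.map_cons, List.sum_cons, nf]
    have h2 : Complex.exp (-(N * (F p.1 0 + F p.2 0 + (ts.map fun p => F p.1 0 + F p.2 0).sum))) =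
        Complex.exp (-(N * F p.1 0)) * Complex.exp (-(N * F p.2 0)) *
          Complex.exp (-(N * (ts.map fun p => F p.1 0 + F p.2 0).sum)) := by
      rw [← Complex.exp_add, ← Complex.exp_add]
      congr 1
      ring
    rw [h2]
    ring

end

/-! ### From the exact expression to the invariant -/

/-- the closed ring -/
theorem link_closed (hEX : S_EXDX) (hSCL : S_SCL) (F : Tb → ℂ → ℂ) {ts : List (Tb × Tb)}
    (hts : ts ≠ []) (hNC : NoC ts) {m : ℤ} {w : ℂ} {y : ℕ → ℂ} {z : ℕ → ℂ} (hy : y 0 ≠ 0)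
    (hE : EXY (fun N => ES N (nvlX F ts) m)
      (w + ∑ j ∈ range (2 * ts.length), (F (tj ts j) (z j) - F (tj ts j) 0)) y) :
    ∃ y' : ℕ → ℂ, y' 0 ≠ 0 ∧ EXY (fun N => JD ts m N (vN N))
      (w + ∑ j ∈ range (2 * ts.length), F (tj ts j) (z j) -
        π * Complex.I / 4 * ∑ j ∈ range (2 * ts.length), ((tj ts j).ws : ℂ)) y' := by
  have h1 := exy_exp (∑ j ∈ range (2 * ts.length), F (tj ts j) 0) hE
  have h2 : w + ∑ j ∈ range (2 * ts.length), (F (tj ts j) (z j) - F (tj ts j) 0) +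
      ∑ j ∈ range (2 * ts.length), F (tj ts j) 0 =
      w + ∑ j ∈ range (2 * ts.length), F (tj ts j) (z j) := by
    rw [sum_sub_distrib]
    ring
  rw [h2] at h1
  obtain ⟨y', hy', h3⟩ := Pool.Agent.Y977.DX.expr ts m _ _ y hy h1
  refine ⟨y', hy', ?_⟩
  have h4 : ((wsl ts : ℤ) : ℂ) = ∑ j ∈ range (2 * ts.length), ((tj ts j).ws : ℂ) := by
    rw [wsl_sum]
    push_cast
    rfl
  rw [h4] at h3
  refine exy_congr ?_ h3
  filter_upwards [eventually_ge_atTop 2] with N hN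
  have hN0 : (N : ℂ) ≠ 0 := by
    have : N ≠ 0 := by omega
    exact_mod_cast this
  rw [hEX N ts m hN hts hNC, nvlX_scl, hSCL N (tvl ts) (evX F ts) m (by omega)
    (by simp [tvl, evX]), evX_prod]
  have h5 : (N : ℂ) ^ (2 * nel ts) * (-1) ^ (N * nel ts) ≠ 0 :=
    mul_ne_zero (pow_ne_zero _ hN0) (pow_ne_zero _ (by norm_num))
  have h6 : Complex.exp (N * ∑ j ∈ range (2 * ts.length), F (tj ts j) 0) *
      Complex.exp (-(N * ∑ j ∈ range (2 * ts.length), F (tj ts j) 0)) = 1 := by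
    rw [← Complex.exp_add, add_neg_cancel, Complex.exp_zero]
  calc pzD N ts m * ((N : ℂ) ^ (2 * nel ts) * (-1) ^ (N * nel ts))⁻¹ *
        (Complex.exp (N * ∑ j ∈ range (2 * ts.length), F (tj ts j) 0) *
          ((N : ℂ) ^ (2 * nel ts) * (-1) ^ (N * nel ts) *
            Complex.exp (-(N * ∑ j ∈ range (2 * ts.length), F (tj ts j) 0)) *
              ES N (tvl ts) m)) =
      pzD N ts m * (((N : ℂ) ^ (2 * nel ts) * (-1) ^ (N * nel ts))⁻¹ *
        ((N : ℂ) ^ (2 * nel ts) * (-1) ^ (N * nel ts))) *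
        (Complex.exp (N * ∑ j ∈ range (2 * ts.length), F (tj ts j) 0) *
          Complex.exp (-(N * ∑ j ∈ range (2 * ts.length), F (tj ts j) 0))) * ES N (tvl ts) m := by
        ring
    _ = pzD N ts m * ES N (tvl ts) m := by rw [inv_mul_cancel₀ h5, h6, mul_one, mul_one]

/-- the ring with its axis -/
theorem link_axis (hEX : S_AXPD) (hSCA : S_SCA) (F : Tb → ℂ → ℂ) {ts : List (Tb × Tb)}
    (hts : ts ≠ []) (hNC : NoC ts) {m : ℤ} {w : ℂ} {y : ℕ → ℂ} {z : ℕ → ℂ} (hy : y 0 ≠ 0)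
    (hE : EXY (fun N => N * EA N (nvlX F ts) m)
      (w + ∑ j ∈ range (2 * ts.length), (F (tj ts j) (z j) - F (tj ts j) 0)) y) :
    ∃ y' : ℕ → ℂ, y' 0 ≠ 0 ∧ EXY (fun N => JA ts m N (vN N))
      (w + ∑ j ∈ range (2 * ts.length), F (tj ts j) (z j) -
        π * Complex.I / 4 * ∑ j ∈ range (2 * ts.length), ((tj ts j).ws : ℂ)) y' := by
  have h1 := exy_exp (∑ j ∈ range (2 * ts.length), F (tj ts j) 0) hE
  have h2 : w + ∑ j ∈ range (2 * ts.length), (F (tj ts j) (z j) - F (tj ts j) 0) +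
      ∑ j ∈ range (2 * ts.length), F (tj ts j) 0 =
      w + ∑ j ∈ range (2 * ts.length), F (tj ts j) (z j) := by
    rw [sum_sub_distrib]
    ring
  rw [h2] at h1
  obtain ⟨y', hy', h3⟩ := Pool.Agent.Y977.DX.expr ts m _ _ y hy h1
  refine ⟨y', hy', ?_⟩
  have h4 : ((wsl ts : ℤ) : ℂ) = ∑ j ∈ range (2 * ts.length), ((tj ts j).ws : ℂ) := by
    rw [wsl_sum]
    push_cast
    rfl
  rw [h4] at h3
  refine exy_congr ?_ h3
  filter_upwards [eventually_ge_atTop 2] with N hN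
  have hN0 : (N : ℂ) ≠ 0 := by
    have : N ≠ 0 := by omega
    exact_mod_cast this
  rw [hEX N ts m hN hts hNC, nvlX_scl, hSCA N (tvl ts) (evX F ts) m (by omega)
    (by simp [tvl, evX]), evX_prod]
  have h5 : (N : ℂ) ^ (2 * nel ts) * (-1) ^ (N * nel ts) ≠ 0 :=
    mul_ne_zero (pow_ne_zero _ hN0) (pow_ne_zero _ (by norm_num))
  have h6 : Complex.exp (N * ∑ j ∈ range (2 * ts.length), F (tj ts j) 0) *
      Complex.exp (-(N * ∑ j ∈ range (2 * ts.length), F (tj ts j) 0)) = 1 := by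
    rw [← Complex.exp_add, add_neg_cancel, Complex.exp_zero]
  calc pzD N ts m * ((N : ℂ) ^ (2 * nel ts) * (-1) ^ (N * nel ts))⁻¹ *
        (Complex.exp (N * ∑ j ∈ range (2 * ts.length), F (tj ts j) 0) *
          (N * ((N : ℂ) ^ (2 * nel ts) * (-1) ^ (N * nel ts) *
            Complex.exp (-(N * ∑ j ∈ range (2 * ts.length), F (tj ts j) 0)) *
              EA N (tvl ts) m))) =
      N * (pzD N ts m * (((N : ℂ) ^ (2 * nel ts) * (-1) ^ (N * nel ts))⁻¹ *
        ((N : ℂ) ^ (2 * nel ts) * (-1) ^ (N * nel ts))) *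
        (Complex.exp (N * ∑ j ∈ range (2 * ts.length), F (tj ts j) 0) *
          Complex.exp (-(N * ∑ j ∈ range (2 * ts.length), F (tj ts j) 0))) * EA N (tvl ts) m) := by
        ring
    _ = N * pzD N ts m * EA N (tvl ts) m := by
      rw [inv_mul_cancel₀ h5, h6, mul_one, mul_one]
      ring

/-! ### Congruence and reversal of critical configurations -/

section
variable {s : ℂ → ℂ → ℂ → ℂ} {ρ : ℝ} {n : ℕ} {a a' : ℕ → ℤ} {g g' : ℕ → ℂ} {m : ℤ}
  {z z' : ℕ → ℂ} {χ : ℂ}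

lemma rc3_congr (hn : 0 < n) (ha : ∀ j < n, a j = a' j)
    (hg : ∀ j < n, g j = g' j) (hz : ∀ j < n, z j = z' j) (h : RCrit3F s ρ n a g m z χ) :
    RCrit3F s ρ n a' g' m z' χ := by
  obtain ⟨h1, h1', h1'', h2, h3⟩ := h
  refine ⟨h1, h1', h1'', fun j hj => ?_, ?_⟩
  · have hj1 : (j + 1) % n < n := Nat.mod_lt _ hn
    have hj2 : ((j + 1) % n + 1) % n < n := Nat.mod_lt _ hn
    rw [← hz j hj, ← hz _ hj1, ← hz _ hj2, ← ha _ hj1, ← hg _ hj1]
    exact h2 j hj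
  · rw [← h3]
    congr 1
    refine sum_congr rfl fun j hj => ?_
    rw [hz j (mem_range.1 hj), hz _ (Nat.mod_lt _ hn)]

lemma rc0_congr (hn : 0 < n) (ha : ∀ j < n, a j = a' j)
    (hg : ∀ j < n, g j = g' j) (hz : ∀ j < n, z j = z' j) (h : RCrit0F s ρ n a g z) :
    RCrit0F s ρ n a' g' z' := by
  intro j hj
  have hj1 : (j + 1) % n < n := Nat.mod_lt _ hn
  have hj2 : ((j + 1) % n + 1) % n < n := Nat.mod_lt _ hn
  rw [← hz j hj, ← hz _ hj1, ← hz _ hj2, ← ha _ hj1, ← hg _ hj1]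
  exact h j hj

lemma rval0_congr (hn : 0 < n) (ha : ∀ j < n, a j = a' j) (hz : ∀ j < n, z j = z' j) :
    RVal0 s n a z = RVal0 s n a' z' := by
  unfold RVal0
  refine sum_congr rfl fun j hj => ?_
  rw [hz j (mem_range.1 hj), hz _ (Nat.mod_lt _ hn), ha j (mem_range.1 hj)]

/-- the equations at the vertices in the opposite order -/
lemma rev_vert (hsym : ∀ x ∈ Rc ρ ρ, ∀ y ∈ Rc ρ ρ, s x y χ = s y x χ) (hn : 0 < n)
    (hz : ∀ j < n, z j ∈ Rc ρ ρ)
    (h : ∀ j < n, Complex.I * a ((j + 1) % n) * z ((j + 1) % n) / (2 * π) + Complex.I +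
      g ((j + 1) % n) + deriv (fun w => s (z j) w χ) (z ((j + 1) % n)) +
      deriv (fun w => s w (z (((j + 1) % n + 1) % n)) χ) (z ((j + 1) % n)) = 0) :
    ∀ j < n, Complex.I * a (rv n ((j + 1) % n)) * z (rv n ((j + 1) % n)) / (2 * π) + Complex.I +
      g (rv n ((j + 1) % n)) + deriv (fun w => s (z (rv n j)) w χ) (z (rv n ((j + 1) % n))) +
      deriv (fun w => s w (z (rv n (((j + 1) % n + 1) % n))) χ) (z (rv n ((j + 1) % n))) = 0 := by
  have hd : ∀ x ∈ Rc ρ ρ, ∀ y ∈ Rc ρ ρ,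
      deriv (fun w => s x w χ) y = deriv (fun w => s w x χ) y := by
    intro x hx y hy
    refine Filter.EventuallyEq.deriv_eq ?_
    filter_upwards [(Rc_op ρ ρ).mem_nhds hy] with w hw
    exact hsym x hx w hw
  intro j hj
  have hj1 : (j + 1) % n < n := Nat.mod_lt _ hn
  have e1 : rv n (((j + 1) % n + 1) % n) = n - 1 - (j + 1) % n := rv_succ hj1
  have e2 : rv n ((j + 1) % n) = (n - 1 - (j + 1) % n + 1) % n := rv_eq hj1
  have e3 : rv n j = (rv n ((j + 1) % n) + 1) % n := by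
    rw [rv_eq hj, rv_succ hj]
  have hi : n - 1 - (j + 1) % n < n := by omega
  have h4 := h _ hi
  rw [← e2, ← e3] at h4
  rw [e1]
  have y1 := hz _ (rv_lt hn ((j + 1) % n))
  have y2 := hz _ (rv_lt hn j)
  have y3 := hz _ hi
  rw [hd _ y2 _ y1, ← hd _ y3 _ y1]
  linear_combination h4

lemma sum_rev (hn : 0 < n) {u : ℂ → ℂ → ℂ} (hsym : ∀ x ∈ Rc ρ ρ, ∀ y ∈ Rc ρ ρ, u x y = u y x)
    (hz : ∀ j < n, z j ∈ Rc ρ ρ) :
    ∑ j ∈ range n, u (z (rv n j)) (z (rv n ((j + 1) % n))) =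
      ∑ j ∈ range n, u (z j) (z ((j + 1) % n)) :=
  sum_rv2 (fun x y => u (z x) (z y)) fun i hi => hsym _ (hz _ (Nat.mod_lt _ hn)) _ (hz _ hi)

lemma rc3_rev {c C : ℝ} {dl : ℂ → ℂ → ℂ → ℂ} (hS : SD3 ρ c C s dl) (hn : 0 < n)
    (h : RCrit3F s ρ n a g m z χ) :
    RCrit3F s ρ n (fun j => a (rv n j)) (fun j => g (rv n j)) m (fun j => z (rv n j)) χ := by
  obtain ⟨h1, h1', h1'', h2, h3⟩ := h
  have hz : ∀ j < n, z j ∈ Rc ρ ρ := fun j hj => (h2 j hj).1
  have hv := rev_vert (g := g) (fun x hx y hy => hS.sym x hx y hy χ h1) hn hz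
    (fun j hj => (h2 j hj).2.2.2)
  refine ⟨h1, h1', h1'', fun j hj => ?_, ?_⟩
  · obtain ⟨q1, q2, q3, -⟩ := h2 _ (rv_lt hn j)
    exact ⟨q1, q2, q3, hv j hj⟩
  · rw [← h3]
    congr 1
    refine sum_rev (ρ := ρ) hn (u := fun x y => deriv (fun w => s x y w) χ) ?_ hz
    intro x hx y hy
    refine Filter.EventuallyEq.deriv_eq ?_
    filter_upwards [(Rc_op ρ ρ).mem_nhds h1] with w hw
    exact hS.sym x hx y hy w hw

lemma rc0_rev {c C : ℝ} {dl : ℂ → ℂ → ℂ → ℂ} (hS : SD3 ρ c C s dl) (hn : 0 < n)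
    (h : RCrit0F s ρ n a g z) :
    RCrit0F s ρ n (fun j => a (rv n j)) (fun j => g (rv n j)) (fun j => z (rv n j)) := by
  have m0 : (0 : ℂ) ∈ Rc ρ ρ := by
    constructor
    · simpa using hS.hρ.1
    · simpa using hS.hρ.1
  have hv := rev_vert (g := g) (fun x hx y hy => hS.sym x hx y hy 0 m0) hn
    (fun j hj => (h j hj).1) (fun j hj => (h j hj).2.2.2)
  intro j hj
  obtain ⟨q1, q2, q3, -⟩ := h _ (rv_lt hn j)
  exact ⟨q1, q2, q3, hv j hj⟩

lemma rval3_rev {c C : ℝ} {dl : ℂ → ℂ → ℂ → ℂ} (hS : SD3 ρ c C s dl) (hn : 0 < n)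
    (hχ : χ ∈ Rc ρ ρ) (hz : ∀ j < n, z j ∈ Rc ρ ρ) :
    RVal3 s n (fun j => a (rv n j)) m (fun j => z (rv n j)) χ = RVal3 s n a m z χ := by
  unfold RVal3
  congr 1
  refine (sum_add_distrib ..).trans (Eq.trans ?_ (sum_add_distrib ..).symm)
  exact congrArg₂ (· + ·)
    (sum_rv hn fun j => Complex.I * a j * z j ^ 2 / (4 * π) + Complex.I * z j)
    (sum_rev (ρ := ρ) hn (u := fun x y => s x y χ)
      (fun x hx y hy => hS.sym x hx y hy χ hχ) hz)

lemma rval0_rev {c C : ℝ} {dl : ℂ → ℂ → ℂ → ℂ} (hS : SD3 ρ c C s dl) (hn : 0 < n)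
    (hz : ∀ j < n, z j ∈ Rc ρ ρ) :
    RVal0 s n (fun j => a (rv n j)) (fun j => z (rv n j)) = RVal0 s n a z := by
  have m0 : (0 : ℂ) ∈ Rc ρ ρ := by
    constructor
    · simpa using hS.hρ.1
    · simpa using hS.hρ.1
  unfold RVal0
  refine (sum_add_distrib ..).trans (Eq.trans ?_ (sum_add_distrib ..).symm)
  exact congrArg₂ (· + ·)
    (sum_rv hn fun j => Complex.I * a j * z j ^ 2 / (4 * π) + Complex.I * z j)
    (sum_rev (ρ := ρ) hn (u := fun x y => s x y 0)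
      (fun x hx y hy => hS.sym x hx y hy 0 m0) hz)

end

end Pool.Agent.Y482.DX
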