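import Pool.Agent.Y482.DX.CvK
import Pool.Agent.Y472.H.Growth5

/-!
# Rings of trees: expansions and complex volume of the links
-/

set_option autoImplicit false

namespace Pool.Agent.Y482.DX

open Finset Filter Topology Metric
open Pool.Agent.W711.HT hiding XX
open Pool.Agent.Y472
open Pool.Agent.Y472.H (fin_ex)
open Pool.Agent.Y481 (itI cw wts)
open Pool.Agent.Y481.DR
open Pool.Agent.Y481.DX (DGX wsl nbl pzD JA EA S_EXDX S_AXPD S_SCA S_EXPR RCrit3F RCrit0F S_TRUX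
  S_MXZF S_MXF S_MXNF S_MXAF XLZXFc XLXFc XFAXFc S_FARF S_NRF S_GEOD3 S_GEODA)
open Pool.Agent.TH563.UV (Tb op XX PB AB)
open Pool.Agent.W719.AR (Fl)
open Pool.Agent.W719.AX (EXY)
open Pool.Agent.Y482.Ph (RVal0)
open scoped Real

/-- the data of the trees -/
structure TRc (ρ τ κ c : ℝ) (s dl : ℂ → ℂ → ℂ) (K : ℝ) : Prop where
  kd : KD ρ τ κ c s dl
  pos : 0 < K
  tr : ∀ D : ℕ, ∃ R₀ B₀ : ℝ, 0 < R₀ ∧ R₀ ≤ τ ∧ 0 < B₀ ∧ ∀ t : Tb, t.Below K → t.nc ≤ D →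
    ∃ (F : ℂ → ℂ) (A : ℕ → ℂ → ℂ),
      DGX R₀ B₀ (fun N ψ => XX t N ψ * ((N : ℂ) ^ (2 * t.ne) * (-1) ^ (N * t.ne) *
        Complex.exp (-(N * F 0)))) (fun ψ => F ψ - F 0) A ∧
      ∀ ψ ∈ Rc ρ τ, ∃ p : PB, p.shape = t ∧ p.rz = ψ ∧ p.Crt s ρ τ ∧ p.vl s = F ψ ∧
        HasDerivAt F (p.gs s) ψ

lemma trc_ex (h : S_TRUX) : ∃ (ρ τ κ c : ℝ) (s dl : ℂ → ℂ → ℂ) (K : ℝ),
    TRc ρ τ κ c s dl K := by
  obtain ⟨ρ, τ, κ, c, s, dl, hK, K, hK0, h⟩ := h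
  exact ⟨ρ, τ, κ, c, s, dl, K, hK, hK0, h⟩

/-- the conditions on the ring -/
structure OkR (K : ℝ) (D : ℕ) (M : ℝ) (ts : List (Tb × Tb)) : Prop where
  nc : NoC ts
  bd : ∀ p ∈ ts, p.1.Below K ∧ p.2.Below K ∧ p.1.nc ≤ D ∧ p.2.nc ≤ D ∧
    M ≤ |(p.1.wt : ℝ)| ∧ M ≤ |(p.2.wt : ℝ)|

lemma OkR.mono {K : ℝ} {D : ℕ} {M M' : ℝ} {ts : List (Tb × Tb)} (h : OkR K D M' ts)
    (hM : M ≤ M') : OkR K D M ts :=
  ⟨h.nc, fun p hp => ⟨(h.bd p hp).1, (h.bd p hp).2.1, (h.bd p hp).2.2.1, (h.bd p hp).2.2.2.1,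
    hM.trans (h.bd p hp).2.2.2.2.1, hM.trans (h.bd p hp).2.2.2.2.2⟩⟩

/-- the critical configurations of the trees -/
structure Pts (ρ τ : ℝ) (s : ℂ → ℂ → ℂ) (F : Tb → ℂ → ℂ) (ts : List (Tb × Tb)) (z : ℕ → ℂ)
    (p : ℕ → PB) : Prop where
  sh : ∀ j < 2 * ts.length, (p j).shape = tj ts j
  bl : ∀ j < 2 * ts.length, (p j).bl = false
  rz : ∀ j < 2 * ts.length, (p j).rz = z j
  crt : ∀ j < 2 * ts.length, (p j).Crt s ρ τ
  mem : ∀ j < 2 * ts.length, (p j).rz ∈ Rc ρ τ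
  vl : ∀ j < 2 * ts.length, (p j).vl s = F (tj ts j) (z j)
  gs : ∀ j < 2 * ts.length, deriv (fun ψ => F (tj ts j) ψ - F (tj ts j) 0) (z j) = (p j).gs s
  wt : ∀ j < 2 * ts.length, cw (wl (nvlX F ts)) j = (p j).wt

/-- the functions of the trees, for all rings -/
theorem prep {ρ τ κ c : ℝ} {s dl : ℂ → ℂ → ℂ} {K : ℝ} (h : TRc ρ τ κ c s dl K) (D : ℕ) :
    ∃ R₀ B₀ : ℝ, 0 < R₀ ∧ 0 < B₀ ∧ ∃ (F : Tb → ℂ → ℂ) (A : Tb → ℕ → ℂ → ℂ),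
      ∀ (M : ℝ) (ts : List (Tb × Tb)), OkR K D M ts →
        (∀ j < 2 * ts.length, DGX R₀ B₀ (vy (nvlX F ts) j)
          (fun ψ => F (tj ts j) ψ - F (tj ts j) 0) (A (tj ts j))) ∧
        (∀ j < 2 * ts.length, M ≤ |(cw (wl (nvlX F ts)) j : ℝ)|) ∧
        ∀ z : ℕ → ℂ, (∀ j < 2 * ts.length, z j ∈ Rc R₀ R₀) → ∃ p, Pts ρ τ s F ts z p := by
  obtain ⟨R₀, B₀, hR₀, hR₀τ, hB₀, hT⟩ := h.tr D
  choose! F A hF1 hF2 using fun (t : Tb) (h : t.Below K ∧ t.nc ≤ D) => hT t h.1 h.2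
  refine ⟨R₀, B₀, hR₀, hB₀, F, A, fun M ts hts => ?_⟩
  have hP : ∀ j < 2 * ts.length, ((tj ts j).Below K ∧ (tj ts j).nc ≤ D) ∧
      M ≤ |((tj ts j).wt : ℝ)| ∧ (tj ts j).bl = false := by
    intro j hj
    refine tj_get ts (fun t => (t.Below K ∧ t.nc ≤ D) ∧ M ≤ |(t.wt : ℝ)| ∧ t.bl = false)
      (fun p hp => ?_) hj
    obtain ⟨h1, h2, h3, h4, h5, h6⟩ := hts.bd p hp
    exact ⟨⟨⟨h1, h3⟩, h5, (hts.nc p hp).1⟩, ⟨⟨h2, h4⟩, h6, (hts.nc p hp).2⟩⟩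
  have hsub : Rc R₀ R₀ ⊆ Rc ρ τ := by
    intro w hw
    exact ⟨hw.1.trans_le (hR₀τ.trans h.kd.hτ.2), hw.2.trans_le hR₀τ⟩
  refine ⟨fun j hj => ?_, fun j hj => ?_, fun z hz => ?_⟩
  · rw [vy_nvlX F ts hj]
    exact hF1 _ (hP j hj).1
  · rw [cw_nvlX F ts hj]
    exact (hP j hj).2.1
  · have hex : ∀ j, ∃ p : PB, j < 2 * ts.length → p.shape = tj ts j ∧ p.rz = z j ∧ p.Crt s ρ τ ∧
        p.vl s = F (tj ts j) (z j) ∧ HasDerivAt (F (tj ts j)) (p.gs s) (z j) := by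
      intro j
      by_cases hj : j < 2 * ts.length
      · obtain ⟨p, hp⟩ := hF2 _ (hP j hj).1 (z j) (hsub (hz j hj))
        exact ⟨p, fun _ => hp⟩
      · exact ⟨.vx false 0 0, fun h => absurd h hj⟩
    choose p hp using hex
    refine ⟨p, fun j hj => (hp j hj).1, fun j hj => ?_, fun j hj => (hp j hj).2.1,
      fun j hj => (hp j hj).2.2.1, fun j hj => ?_, fun j hj => (hp j hj).2.2.2.1,
      fun j hj => ?_, fun j hj => ?_⟩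
    · rw [← shape_bl, (hp j hj).1]
      exact (hP j hj).2.2
    · rw [(hp j hj).2.1]
      exact hsub (hz j hj)
    · rw [deriv_sub_const]
      exact (hp j hj).2.2.2.2.deriv
    · rw [cw_nvlX F ts hj, ← (hp j hj).1, shape_wt]

/-- the expansion of the invariant of the closed ring with its complex volume -/
def CxC (ts : List (Tb × Tb)) (m : ℤ) : Prop := ∃ (v : ℂ) (y : ℕ → ℂ),
  CVG (2 * ts.length) (-2) (PC (2 * ts.length) m fun j => tj ts (rv (2 * ts.length) j)) v ∧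
  y 0 ≠ 0 ∧ EXY (fun N => JD ts m N (vN N)) v y

/-- the expansion of the invariant of the ring with its axis, with its complex volume -/
def CxA (ts : List (Tb × Tb)) (m : ℤ) : Prop := ∃ (v : ℂ) (y : ℕ → ℂ),
  CVG (2 * ts.length) 0 (PAx (2 * ts.length) fun j => tj ts (rv (2 * ts.length) j)) v ∧
  y 0 ≠ 0 ∧ EXY (fun N => JA ts m N (vN N)) v y

section
variable {ρ τ κ c : ℝ} {s dl : ℂ → ℂ → ℂ} {F : Tb → ℂ → ℂ} {ts : List (Tb × Tb)} {z : ℕ → ℂ}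
  {p : ℕ → PB}

/-- the value -/
lemma val_rev (hts : ts ≠ []) (hp : Pts ρ τ s F ts z p) (w : ℂ) :
    w + ∑ j ∈ range (2 * ts.length), F (tj ts j) (z j) -
        π * Complex.I / 4 * ∑ j ∈ range (2 * ts.length), ((tj ts j).ws : ℂ) =
      w + ∑ j ∈ range (2 * ts.length), (p (rv (2 * ts.length) j)).vl s -
        π * Complex.I / 4 *
          ∑ j ∈ range (2 * ts.length), ((tj ts (rv (2 * ts.length) j)).ws : ℂ) := by
  have hn : 0 < 2 * ts.length := by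
    have := List.length_pos_iff.2 hts
    omega
  rw [sum_rv hn fun j => (p j).vl s, sum_rv hn fun j => ((tj ts j).ws : ℂ),
    sum_congr rfl fun j hj => hp.vl j (mem_range.1 hj)]

/-- the closed ring, from the critical configuration -/
lemma cxc_of (hEX : S_EXDX) (hSCL : S_SCL) (hts : ts ≠ []) (hNC : NoC ts)
    (hp : Pts ρ τ s F ts z p) {m : ℤ} {w : ℂ} {y : ℕ → ℂ} (hy : y 0 ≠ 0)
    (hE : EXY (fun N => ES N (nvlX F ts) m)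
      (w + ∑ j ∈ range (2 * ts.length), (F (tj ts j) (z j) - F (tj ts j) 0)) y)
    (hC : CVG (2 * ts.length) (-2) (PC (2 * ts.length) m fun j => tj ts (rv (2 * ts.length) j))
      (w + ∑ j ∈ range (2 * ts.length), (p (rv (2 * ts.length) j)).vl s -
        π * Complex.I / 4 *
          ∑ j ∈ range (2 * ts.length), ((tj ts (rv (2 * ts.length) j)).ws : ℂ))) :
    CxC ts m := by
  obtain ⟨y', hy', h⟩ := link_closed hEX hSCL F hts hNC hy hE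
  rw [val_rev hts hp w] at h
  exact ⟨_, y', hC, hy', h⟩

/-- the ring with its axis, from the critical configuration -/
lemma cxa_of (hEX : S_AXPD) (hSCA : S_SCA) (hts : ts ≠ []) (hNC : NoC ts)
    (hp : Pts ρ τ s F ts z p) {m : ℤ} {w : ℂ} {y : ℕ → ℂ} (hy : y 0 ≠ 0)
    (hE : EXY (fun N => N * EA N (nvlX F ts) m)
      (w + ∑ j ∈ range (2 * ts.length), (F (tj ts j) (z j) - F (tj ts j) 0)) y)
    (hC : CVG (2 * ts.length) 0 (PAx (2 * ts.length) fun j => tj ts (rv (2 * ts.length) j))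
      (w + ∑ j ∈ range (2 * ts.length), (p (rv (2 * ts.length) j)).vl s -
        π * Complex.I / 4 *
          ∑ j ∈ range (2 * ts.length), ((tj ts (rv (2 * ts.length) j)).ws : ℂ))) :
    CxA ts m := by
  obtain ⟨y', hy', h⟩ := link_axis hEX hSCA F hts hNC hy hE
  rw [val_rev hts hp w] at h
  exact ⟨_, y', hC, hy', h⟩

/-- near `χ = 0`, the closed ring -/
lemma cx3_of (hEX : S_EXDX) (hSCL : S_SCL) (hGD : S_GEOD3) (hKD : KD ρ τ κ c s dl)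
    {ρ₀ c' C : ℝ} {s3 dl3 : ℂ → ℂ → ℂ → ℂ} (hS : SD3 ρ₀ c' C s3 dl3) (hts : ts ≠ [])
    (hNC : NoC ts) (hp : Pts ρ τ s F ts z p) {m : ℤ} {χ : ℂ} {y : ℕ → ℂ}
    (hc : RCrit3F s3 ρ₀ (2 * ts.length) (cw (wl (nvlX F ts)))
      (fun j => deriv (fun ψ => F (tj ts j) ψ - F (tj ts j) 0) (z j)) m z χ) (hχ : ‖χ‖ < 1 / 10)
    (hy : y 0 ≠ 0) (hE : EXY (fun N => ES N (nvlX F ts) m)
      (RVal3 s3 (2 * ts.length) (cw (wl (nvlX F ts))) m z χ +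
        ∑ j ∈ range (2 * ts.length), (F (tj ts j) (z j) - F (tj ts j) 0)) y) :
    CxC ts m := by
  have hn : 0 < 2 * ts.length := by
    have := List.length_pos_iff.2 hts
    omega
  have hr : ∀ j < 2 * ts.length, rv (2 * ts.length) j < 2 * ts.length := fun j _ => rv_lt hn j
  have h1 : RCrit3F s3 ρ₀ (2 * ts.length) (fun j => (p j).wt) (fun j => (p j).gs s) m
      (fun j => (p j).rz) χ := rc3_congr hn hp.wt hp.gs (fun j hj => (hp.rz j hj).symm) hc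
  have h2 := cv3 hGD hKD hS (p := fun j => p (rv (2 * ts.length) j))
    (sh := fun j => tj ts (rv (2 * ts.length) j)) (by omega)
    (fun j hj => ⟨hp.bl _ (hr j hj), hp.crt _ (hr j hj), hp.mem _ (hr j hj)⟩)
    (fun j hj => hp.sh _ (hr j hj)) hχ (rc3_rev hS hn h1)
  rw [rval3_rev (a := fun j => (p j).wt) (z := fun j => (p j).rz) (m := m) hS hn h1.1
    (fun j hj => (h1.2.2.2.1 j hj).1), ← rval_congr hn hp.wt (fun j hj => (hp.rz j hj).symm)] at h2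
  exact cxc_of hEX hSCL hts hNC hp hy hE h2

end

section
variable {ρ τ κ c : ℝ} {s dl : ℂ → ℂ → ℂ} {K : ℝ}

/-- `k` and `m` fixed -/
theorem cxZ (hT : TRc ρ τ κ c s dl K) (hMX : S_MXZF) (hXL : XLZXFc) (hGD : S_GEOD) (hS0 : S_S0P)
    (hEX : S_EXDX) (hSCL : S_SCL) (D : ℕ) (k m : ℕ) (hk : 1 ≤ k) (hkm : ¬ (k = 1 ∧ m = 0)) :
    ∃ M : ℝ, ∀ ts : List (Tb × Tb), ts.length = k → OkR K D M ts → CxC ts m := by
  obtain ⟨R₀, B₀, hR₀, hB₀, F, A, hP⟩ := prep hT D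
  obtain ⟨χ₀, ρ₀, c', C, hZ, hS, H⟩ := hMX hXL k m hk (by positivity) (by
    rintro ⟨h1, h2⟩
    exact hkm ⟨h1, by exact_mod_cast h2⟩)
  obtain ⟨ε, hε, hG⟩ := cvZ hS0 hGD hT.kd hZ
  obtain ⟨M, hM⟩ := H R₀ B₀ ε hR₀ hB₀ hε
  refine ⟨M, fun ts hl hts => ?_⟩
  subst hl
  obtain ⟨p1, p2, p3⟩ := hP M ts hts
  obtain ⟨z, χ, y, hc, hz, hχ, hy, hE⟩ := hM (nvlX F ts)
    (fun j ψ => F (tj ts j) ψ - F (tj ts j) 0) (fun j => A (tj ts j)) (nvlX_len F ts) p1 p2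
  obtain ⟨p, hp⟩ := p3 z fun j hj => (hz j hj).1
  have hts0 : ts ≠ [] := by
    rintro rfl
    simp at hk
  have hn : 0 < 2 * ts.length := by omega
  have hr : ∀ j < 2 * ts.length, rv (2 * ts.length) j < 2 * ts.length := fun j _ => rv_lt hn j
  have h1 : RCritF szz χ₀ ρ₀ (2 * ts.length) (fun j => (p j).wt) (fun j => (p j).gs s) m
      (fun j => (p j).rz) χ := rcf_congr hn hp.wt hp.gs (fun j hj => (hp.rz j hj).symm) hc
  have h2 := hG ρ₀ c' C hS (2 * ts.length) m (fun j => p (rv (2 * ts.length) j))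
    (fun j => tj ts (rv (2 * ts.length) j)) χ (by omega)
    (fun j hj => ⟨hp.bl _ (hr j hj), hp.crt _ (hr j hj), hp.mem _ (hr j hj), by
      rw [hp.rz _ (hr j hj)]; exact (hz _ (hr j hj)).2⟩)
    (fun j hj => hp.sh _ (hr j hj)) hχ (rcf_rev hS hn h1)
  rw [rval_rev (a := fun j => (p j).wt) (z := fun j => (p j).rz) (m := m) hS hn h1,
    ← rval_congr hn hp.wt (fun j hj => (hp.rz j hj).symm)] at h2
  exact cxc_of hEX hSCL hts0 hts.nc hp hy hE h2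

/-- `k` fixed and `|m|` large -/
theorem cxM (hT : TRc ρ τ κ c s dl K) (hMX : S_MXF) (hXL : XLXFc) (hFA : S_FARF) (hNR : S_NRF)
    (hGD : S_GEOD3) (hEX : S_EXDX) (hSCL : S_SCL) (D : ℕ) (k : ℕ) (hk : 1 ≤ k) :
    ∃ M : ℝ, ∀ (ts : List (Tb × Tb)) (m : ℤ), ts.length = k → OkR K D M ts → M ≤ |(m : ℝ)| →
      CxC ts m := by
  obtain ⟨R₀, B₀, hR₀, hB₀, F, A, hP⟩ := prep hT D
  obtain ⟨ρ₀, c', C, s3, dl3, hS, H⟩ := hMX hXL hFA hNR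
  obtain ⟨M, hM⟩ := H R₀ B₀ hR₀ hB₀ k hk
  refine ⟨M, fun ts m hl hts hm => ?_⟩
  subst hl
  obtain ⟨p1, p2, p3⟩ := hP M ts hts
  obtain ⟨z, χ, y, hc, hχ, hz, hy, hE⟩ := hM (nvlX F ts)
    (fun j ψ => F (tj ts j) ψ - F (tj ts j) 0) (fun j => A (tj ts j)) m (nvlX_len F ts) p1 p2 hm
  obtain ⟨p, hp⟩ := p3 z hz
  have hts0 : ts ≠ [] := by
    rintro rfl
    simp at hk
  exact cx3_of hEX hSCL hGD hT.kd hS hts0 hts.nc hp hc hχ hy hE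

/-- many vertices -/
theorem cxN (hT : TRc ρ τ κ c s dl K) (hMX : S_MXNF) {ρ₀ c' C : ℝ} {s3 dl3 : ℂ → ℂ → ℂ → ℂ}
    (hS : SD3 ρ₀ c' C s3 dl3) (hXF : XFAXFc ρ₀ s3) (hGD : S_GEOD3) (hEX : S_EXDX)
    (hSCL : S_SCL) (D : ℕ) : ∃ (k₀ : ℕ) (M : ℝ), ∀ (ts : List (Tb × Tb)) (m : ℤ),
      k₀ ≤ ts.length → ts ≠ [] → OkR K D M ts → CxC ts m := by
  obtain ⟨R₀, B₀, hR₀, hB₀, F, A, hP⟩ := prep hT D
  obtain ⟨k₀, M, hM⟩ := hMX ρ₀ c' C s3 dl3 hS hXF R₀ B₀ hR₀ hB₀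
  refine ⟨k₀, M, fun ts m hl hts0 hts => ?_⟩
  obtain ⟨p1, p2, p3⟩ := hP M ts hts
  obtain ⟨z, χ, y, hχ, hc, hz, hy, hE⟩ := hM ts.length hl (nvlX F ts)
    (fun j ψ => F (tj ts j) ψ - F (tj ts j) 0) (fun j => A (tj ts j)) m (nvlX_len F ts) p1 p2
  obtain ⟨p, hp⟩ := p3 z hz
  exact cx3_of hEX hSCL hGD hT.kd hS hts0 hts.nc hp hc hχ hy hE

/-- the ring with its axis -/
theorem cxAx (hT : TRc ρ τ κ c s dl K) (hMX : S_MXAF) (hXL : XLXFc) (hFA : S_FARF)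
    (hNR : S_NRF) (hGD : S_GEODA) (hEX : S_AXPD) (hSCA : S_SCA) (D : ℕ) (k : ℕ) (hk : 1 ≤ k) :
    ∃ M : ℝ, ∀ (ts : List (Tb × Tb)) (m : ℤ), ts.length = k → OkR K D M ts → CxA ts m := by
  obtain ⟨R₀, B₀, hR₀, hB₀, F, A, hP⟩ := prep hT D
  obtain ⟨ρ₀, c', C, s3, dl3, hS, H⟩ := hMX hXL hFA hNR
  obtain ⟨M, hM⟩ := H R₀ B₀ hR₀ hB₀ k hk
  refine ⟨M, fun ts m hl hts => ?_⟩
  subst hl
  obtain ⟨p1, p2, p3⟩ := hP M ts hts
  obtain ⟨z, y, hc, hz, hy, hE⟩ := hM (nvlX F ts)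
    (fun j ψ => F (tj ts j) ψ - F (tj ts j) 0) (fun j => A (tj ts j)) m (nvlX_len F ts) p1 p2
  obtain ⟨p, hp⟩ := p3 z hz
  have hts0 : ts ≠ [] := by
    rintro rfl
    simp at hk
  have hn : 0 < 2 * ts.length := by omega
  have hr : ∀ j < 2 * ts.length, rv (2 * ts.length) j < 2 * ts.length := fun j _ => rv_lt hn j
  have h1 : RCrit0F s3 ρ₀ (2 * ts.length) (fun j => (p j).wt) (fun j => (p j).gs s)
      (fun j => (p j).rz) := rc0_congr hn hp.wt hp.gs (fun j hj => (hp.rz j hj).symm) hc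
  have h2 := cvA hGD hT.kd hS (p := fun j => p (rv (2 * ts.length) j))
    (sh := fun j => tj ts (rv (2 * ts.length) j)) (by omega)
    (fun j hj => ⟨hp.bl _ (hr j hj), hp.crt _ (hr j hj), hp.mem _ (hr j hj)⟩)
    (fun j hj => hp.sh _ (hr j hj)) (rc0_rev hS hn h1)
  rw [rval0_rev (a := fun j => (p j).wt) (z := fun j => (p j).rz) hS hn
    (fun j hj => (h1 j hj).1), ← rval0_congr hn hp.wt (fun j hj => (hp.rz j hj).symm)] at h2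
  exact cxa_of hEX hSCA hts0 hts.nc hp hy hE h2

/-- a constant depending on `k`, all numbers `m ≥ 0` -/
theorem cxK {D : ℕ} (hZ : ∀ (k m : ℕ), 1 ≤ k → ¬ (k = 1 ∧ m = 0) → ∃ M : ℝ,
      ∀ ts : List (Tb × Tb), ts.length = k → OkR K D M ts → CxC ts m)
    (hM : ∀ k : ℕ, 1 ≤ k → ∃ M : ℝ, ∀ (ts : List (Tb × Tb)) (m : ℤ), ts.length = k →
      OkR K D M ts → M ≤ |(m : ℝ)| → CxC ts m) (k : ℕ) (hk : 1 ≤ k) :
    ∃ M : ℝ, ∀ (ts : List (Tb × Tb)) (m : ℕ), ts.length = k → OkR K D M ts →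
      ¬ (k = 1 ∧ m = 0) → CxC ts m := by
  obtain ⟨M1, h1⟩ := hM k hk
  obtain ⟨M2, h2⟩ := fin_ex (P := fun m M => ¬ (k = 1 ∧ m = 0) → ∀ ts : List (Tb × Tb),
    ts.length = k → OkR K D M ts → CxC ts m) (by
      intro m
      by_cases h : k = 1 ∧ m = 0
      · exact ⟨0, fun h' => absurd h h'⟩
      · obtain ⟨M, hM⟩ := hZ k m hk h
        exact ⟨M, fun _ => hM⟩)
    (fun m M M' hMM' h h3 ts hl hts => h h3 ts hl (hts.mono hMM')) ⌈M1⌉₊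
  refine ⟨max M1 M2, fun ts m hl hts hkm => ?_⟩
  by_cases hm : m < ⌈M1⌉₊
  · exact h2 m hm hkm ts hl (hts.mono (le_max_right _ _))
  · have h3 : M1 ≤ |((m : ℤ) : ℝ)| := by
      have h4 := Nat.le_ceil M1
      have h5 : (⌈M1⌉₊ : ℝ) ≤ m := by exact_mod_cast not_lt.1 hm
      have h6 : ((m : ℤ) : ℝ) = (m : ℝ) := by push_cast; rfl
      rw [h6]
      exact (h4.trans h5).trans (le_abs_self _)
    exact h1 ts m hl (hts.mono (le_max_left _ _)) h3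

/-- a constant depending only on `D` -/
theorem cxAbs {D : ℕ} (hZ : ∀ (k m : ℕ), 1 ≤ k → ¬ (k = 1 ∧ m = 0) → ∃ M : ℝ,
      ∀ ts : List (Tb × Tb), ts.length = k → OkR K D M ts → CxC ts m)
    (hM : ∀ k : ℕ, 1 ≤ k → ∃ M : ℝ, ∀ (ts : List (Tb × Tb)) (m : ℤ), ts.length = k →
      OkR K D M ts → M ≤ |(m : ℝ)| → CxC ts m)
    (hN : ∃ (k₀ : ℕ) (M : ℝ), ∀ (ts : List (Tb × Tb)) (m : ℤ), k₀ ≤ ts.length → ts ≠ [] →
      OkR K D M ts → CxC ts m) :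
    ∃ M : ℝ, ∀ (ts : List (Tb × Tb)) (m : ℕ), ts ≠ [] → ¬ (ts.length = 1 ∧ m = 0) →
      OkR K D M ts → CxC ts m := by
  obtain ⟨k₀, M1, h1⟩ := hN
  obtain ⟨M2, h2⟩ := fin_ex (P := fun k M => 1 ≤ k → ∀ (ts : List (Tb × Tb)) (m : ℕ),
    ts.length = k → OkR K D M ts → ¬ (k = 1 ∧ m = 0) → CxC ts m) (by
      intro k
      by_cases h : 1 ≤ k
      · obtain ⟨M, hM⟩ := cxK hZ hM k h
        exact ⟨M, fun _ => hM⟩
      · exact ⟨0, fun h' => absurd h' h⟩)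
    (fun k M M' hMM' h h3 ts m hl hts hkm => h h3 ts m hl (hts.mono hMM') hkm) k₀
  refine ⟨max M1 M2, fun ts m hne hkm hts => ?_⟩
  have hk : 1 ≤ ts.length := List.length_pos_iff.2 hne
  by_cases hK : k₀ ≤ ts.length
  · exact h1 ts m hK hne (hts.mono (le_max_left _ _))
  · exact h2 _ (not_le.1 hK) hk ts m rfl (hts.mono (le_max_right _ _)) hkm

end

end Pool.Agent.Y482.DX
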