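import Pool.Agent.Y482.DX.CvM
import Pool.Agent.Y481.DX.Geo3
import Pool.Agent.Y481.DX.Geo4
import Pool.Agent.Y721.DX.Trux
import Pool.Agent.Y274.DX.Exdx
import Pool.Agent.Y100.DX.Axp
import Pool.Agent.Y470.DX.PotF
import Pool.Agent.Y470.DX.FRDF
import Pool.Agent.Y430.DX.Xlxf
import Pool.Agent.Y210.DX.UQZF
import Pool.Agent.Y785.DX.MXZ
import Pool.Agent.Y785.DX.MXN
import Pool.Agent.Y809.DX.Gpaf
import Pool.Agent.Y833.DX.Fin
import Pool.Agent.Y914.DX.XPXF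
import Pool.Agent.Y482.DX.Farf
import Pool.Agent.Y482.DX.Nrf
import Pool.Agent.Y482.DX.Mxf
import Pool.Agent.Y481.DR.Geo
import Pool.Agent.Y529.DR.V3
import Pool.Agent.Y978.DR.PotF
import Pool.Agent.Y710.DR.XLF
import Pool.Agent.Y472.J.Mx

/-!
# Rings of trees: expansions and complex volume, all parts together
-/

set_option autoImplicit false

namespace Pool.Agent.Y482.DX

open Pool.Agent.Y472 Pool.Agent.Y421.CG
open Pool.Agent.Y481.DR (XLFc)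
open Pool.Agent.Y481.DX (XLZXFc XLXFc XFAXFc)
open Pool.Agent.TH563.UV (Tb)

theorem xlfc : XLFc := by
  have hRHO : S_RHO := Pool.Agent.Y105.CB.rho
  have hTB0 : S_TB0 := Pool.Agent.Y288.CB.tb0
  have hRY : S_RHOY := Pool.Agent.Y317.CB.rhoy
  have hTY : S_TBY := Pool.Agent.Y46.CB.tby
  have hS0 : S_S0P := Pool.Agent.Y710.CG.s0p
  have hKB : KBZc := Pool.Agent.Y68.CG.kbz Pool.Agent.Y238.CG.pf Pool.Agent.Y125.CG.cnb
    Pool.Agent.Y991.CG.lmi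
  have hSDc := Pool.Agent.Y641.CG.sdz hS0
  have hLOc : LOZc := Pool.Agent.Y319.CG.loz Pool.Agent.Y238.CG.pf Pool.Agent.Y954.CG.mpz
    Pool.Agent.Y125.CG.cnb Pool.Agent.Y991.CG.lmi hS0 hSDc
  have hMWc : MWZc := Pool.Agent.Y232.CG.mwz hKB hLOc hSDc
  exact Pool.Agent.Y710.DR.xlf Pool.Agent.Y978.DR.potf Pool.Agent.Y784.CBE.cre
    Pool.Agent.Y232.CBE.ele hMWc hKB

theorem xlxfc : XLXFc := Pool.Agent.Y430.DX.xlxf Pool.Agent.Y470.DX.pot3f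

theorem xlzxfc : XLZXFc := Pool.Agent.Y914.DX.xpxf Pool.Agent.Y210.DX.uqzf xlfc xlxfc

/-- all links together: `K` bounds the edges and the weights of the children from below -/
theorem allx : ∃ K : ℝ, 0 < K ∧
    (∀ D : ℕ, ∃ M : ℝ, ∀ (ts : List (Tb × Tb)) (m : ℕ), ts ≠ [] → ¬ (ts.length = 1 ∧ m = 0) →
      OkR K D M ts → CxC ts m) ∧
    ∀ D k : ℕ, 1 ≤ k → ∃ M : ℝ, ∀ (ts : List (Tb × Tb)) (m : ℤ), ts.length = k →
      OkR K D M ts → CxA ts m := by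
  obtain ⟨ρ, τ, κ, c, s, dl, K, hT⟩ := trc_ex Pool.Agent.Y721.DX.t_TRUX
  obtain ⟨ρ₀, c', C, s3, dl3, hS⟩ := Pool.Agent.Y641.CB.sd3
  have hXF : XFAXFc ρ₀ s3 := Pool.Agent.Y833.DX.xfaqf Pool.Agent.Y470.DX.potaf
    Pool.Agent.Y809.DX.gpaf Pool.Agent.Y470.DX.frdf ρ₀ c' C s3 dl3 hS
    (Pool.Agent.Y472.J.kxd ρ₀ c' C s3 dl3 hS)
  refine ⟨K, hT.pos, fun D => cxAbs ?_ ?_ ?_, fun D k hk => ?_⟩
  · exact fun k m hk hkm => cxZ hT Pool.Agent.Y785.DX.mxzf xlzxfc Pool.Agent.Y481.DR.geod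
      Pool.Agent.Y710.CG.s0p Pool.Agent.Y274.DX.exdx Pool.Agent.Y407.DR.t_scl D k m hk hkm
  · exact fun k hk => cxM hT t_MXF xlxfc t_FARF t_NRF Pool.Agent.Y481.DX.geod3
      Pool.Agent.Y274.DX.exdx Pool.Agent.Y407.DR.t_scl D k hk
  · exact cxN hT Pool.Agent.Y785.DX.mxnf hS hXF Pool.Agent.Y481.DX.geod3
      Pool.Agent.Y274.DX.exdx Pool.Agent.Y407.DR.t_scl D
  · exact cxAx hT t_MXAF xlxfc t_FARF t_NRF Pool.Agent.Y481.DX.geoda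
      Pool.Agent.Y100.DX.t_axpd Pool.Agent.Y100.DX.t_sca D k hk

end Pool.Agent.Y482.DX
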