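import Pool.Agent.Y482.DX.CvT
import Pool.Agent.Y482.DX.CvD

/-!
# The sum of the dilogarithms of a ring of trees
-/

set_option autoImplicit false

namespace Pool.Agent.Y482.DX

open Finset
open Complex (exp log cos sin I)
open Pool.Agent.TH563.CU (across)
open Pool.Agent.TH563.CV (FlatTree weight_of)
open Pool.Agent.TH563.UV (Tb PB AB)
open Pool.Agent.TH563.UV.Arb (ofAB)
open Pool.Agent.TH609.UV (ang lg ang_wt)
open Pool.Agent.W711.HT hiding XX
open Pool.Agent.W719.AR (Fl)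
open Pool.Agent.Y482 (sum_succ_mod)
open Pool.Agent.Y482.Chi
open Pool.Agent.Y482.Cv (csum cf cg cF cG S8 E8 sum_mod term_eq)
open Pool.Agent.Y482.Cz (BG)
open scoped Real

section
variable {ρ τ κ cc : ℝ} {s dl : ℂ → ℂ → ℂ}

theorem dsum_gen (hK : KD ρ τ κ cc s dl) {Θ : ℂ → ℂ} {n : ℕ} (hn : 1 ≤ n) {p : ℕ → PB}
    {z u sv : ℕ → ℂ} {χ : ℂ} (hz : ∀ j, z j = (p j).rz)
    (hp : ∀ j < n, (p j).Crt s ρ τ ∧ z j ∈ Rc ρ τ ∧ ‖z j‖ ≤ 1 / 10)
    (hb : ∀ j < n, BG (u j / 2) (z j / 2) (z ((j + 1) % n) / 2) (χ / 2))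
    (hs : ∀ j < n, S8 (u j / 2) (z j / 2) (z ((j + 1) % n) / 2) (χ / 2) = 2 * π * I * sv j +
      I / 2 * (z j * Lg (u j) (z j) + z ((j + 1) % n) * Lg (u j) (z ((j + 1) % n)) +
        χ * Lc (u j) χ) -
      (Θ (z j / 2) - Θ (z j / 2 + χ / 2) -
        (Θ (z ((j + 1) % n) / 2) - Θ (z ((j + 1) % n) / 2 + χ / 2))) +
      π * I / 4 * E8 (u j / 2) (z j / 2) (z ((j + 1) % n) / 2) (χ / 2) - (π : ℂ) ^ 2 / 2)
    (hv : ∀ j < n, I * ((p ((j + 1) % n)).wt * z ((j + 1) % n) + 2 * π) =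
      Lg (u j) (z ((j + 1) % n)) + Lg (u ((j + 1) % n)) (z ((j + 1) % n)) +
        lg dl (p ((j + 1) % n)))
    {c : ℤ} {t : ℕ → FlatTree} {x : ℕ → RP} (hx : DFlat n c t x)
    (ht : ∀ j < n, (t j).angles = ofAB (ang dl (p j))) :
    ∃ k : ℤ, dsum n (cf z χ u) (cg n z χ u) (cF z χ u) (cG n z χ u) t x =
      2 * π * I * (∑ j ∈ range n, (I * (p j).wt * z j ^ 2 / (4 * π) + I * z j + sv j) +
        ∑ j ∈ range n, (p j).vl s) +
        I / 2 * χ * ∑ j ∈ range n, Lc (u j) χ + π / 2 * χ * c +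
        (π : ℂ) ^ 2 / 2 * ∑ j ∈ range n, ((p j).shape.ws : ℂ) + k * (π : ℂ) ^ 2 := by
  have hpi : (π : ℂ) ≠ 0 := Complex.ofReal_ne_zero.2 Real.pi_ne_zero
  obtain ⟨k, hk⟩ := sum_mod (n := n) (fun j hj => term_eq (hb j hj) (hs j hj) (x j)
    (hx.inner j hj).1 (hx.inner j hj).2.1 (hx.inner j hj).2.2)
  have hE : ∀ j < n, ∀ y ∈ (t j).edges, y.End := by
    intro j hj
    have h1 : ∃ i < n, (i + 1) % n = j := by
      rcases Nat.eq_zero_or_pos j with h0 | h0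
      · exact ⟨n - 1, by omega, by rw [Nat.sub_add_cancel hn, Nat.mod_self, h0]⟩
      · exact ⟨j - 1, by omega, by rw [Nat.sub_add_cancel h0, Nat.mod_eq_of_lt hj]⟩
    obtain ⟨i, hi, rfl⟩ := h1
    exact (hx.vert i hi).ends
  obtain ⟨k', hk'⟩ := sum_mod (n := n) (fun j hj => tree_val hK (p j) (hp j hj).1
    (by rw [← hz]; exact (hp j hj).2.1) (by rw [← hz]; exact (hp j hj).2.2) (t j) (ht j hj)
    (hx.tree j hj) (hE j hj))
  obtain ⟨l, hl⟩ := dbits hn hx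
  obtain ⟨l', hl'⟩ := dacross hn hx
  have hw : ∑ j ∈ range n, (t j).angles.weight = ∑ j ∈ range n, (p j).wt := by
    refine sum_congr rfl fun j hj => ?_
    rw [mem_range] at hj
    rw [ht j hj, weight_of, ang_wt]
  rw [hw] at hl
  refine ⟨k + k' + l - l', ?_⟩
  have hlc := congrArg (fun z : ℤ => (z : ℂ)) hl
  have hlc' := congrArg (fun z : ℤ => (z : ℂ)) hl'
  push_cast at hlc hlc'
  have hax := congrArg (fun z : ℤ => (z : ℂ)) hx.axis
  push_cast at hax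
  unfold dsum csum
  have e0 : ∑ j ∈ range n, (x j).term (cf z χ u j) (cg n z χ u j) (cF z χ u j) (cG n z χ u j) =
      ∑ j ∈ range n, (x j).term (flA (u j / 2) (z j / 2) (χ / 2))
        (flA (u j / 2) (-(z ((j + 1) % n) / 2)) (-(χ / 2))) (flB (u j / 2) (z j / 2) (χ / 2))
        (flB (u j / 2) (-(z ((j + 1) % n) / 2)) (-(χ / 2))) := rfl
  rw [e0, hk, hk']
  simp only [← hz]
  -- telescoping
  have t1 := sum_succ_mod n hn (fun j => Θ (z j / 2) - Θ (z j / 2 + χ / 2))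
  have t2 := sum_succ_mod n hn (fun j => I / 2 * (z j * Lg (u j) (z j)))
  have t3 := sum_succ_mod n hn (fun j => π / 2 * (z j * ((x j).low : ℂ)))
  have t4 := sum_succ_mod n hn (fun j => ((p j).wt : ℂ) * z j ^ 2)
  have t5 := sum_succ_mod n hn (fun j => z j)
  have t6 := sum_succ_mod n hn (fun j => I / 2 * (z j * lg dl (p j)))
  have t7 := sum_succ_mod n hn (fun j => π / 2 * (z j * ((((t j).edges.map across).sum : ℤ) : ℂ)))
  have v : ∑ j ∈ range n, I / 2 * (z ((j + 1) % n) * Lg (u ((j + 1) % n)) (z ((j + 1) % n))) +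
      ∑ j ∈ range n, I / 2 * (z ((j + 1) % n) * Lg (u j) (z ((j + 1) % n))) +
      ∑ j ∈ range n, I / 2 * (z ((j + 1) % n) * lg dl (p ((j + 1) % n))) =
      -(1 / 2) * ∑ j ∈ range n, ((p ((j + 1) % n)).wt : ℂ) * z ((j + 1) % n) ^ 2 -
        π * ∑ j ∈ range n, z ((j + 1) % n) := by
    rw [← sum_add_distrib, ← sum_add_distrib, mul_sum, mul_sum, ← sum_sub_distrib]
    refine sum_congr rfl fun j hj => ?_
    rw [mem_range] at hj
    linear_combination (-(I / 2) * z ((j + 1) % n)) * hv j hj +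
      (1 / 2 * z ((j + 1) % n) * ((p ((j + 1) % n)).wt * z ((j + 1) % n) + 2 * π)) * Complex.I_sq
  have w : ∑ j ∈ range n, π / 2 * (z ((j + 1) % n) * ((x ((j + 1) % n)).low : ℂ)) -
      ∑ j ∈ range n, π / 2 * (z ((j + 1) % n) * ((x j).high : ℂ)) +
      ∑ j ∈ range n, π / 2 * (z ((j + 1) % n) *
        ((((t ((j + 1) % n)).edges.map across).sum : ℤ) : ℂ)) =
      π * ∑ j ∈ range n, z ((j + 1) % n) := by
    rw [← sum_sub_distrib, ← sum_add_distrib, mul_sum]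
    refine sum_congr rfl fun j hj => ?_
    rw [mem_range] at hj
    have := congrArg (fun z : ℤ => (z : ℂ)) (hx.vert j hj).fill
    rw [Int.cast_add, Int.cast_sub] at this
    push_cast at this ⊢
    linear_combination (π / 2 * z ((j + 1) % n)) * this
  have S : ∑ j ∈ range n, (2 * π * I * sv j +
        I / 2 * (z j * Lg (u j) (z j) + z ((j + 1) % n) * Lg (u j) (z ((j + 1) % n)) +
          χ * Lc (u j) χ) -
        (Θ (z j / 2) - Θ (z j / 2 + χ / 2) -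
          (Θ (z ((j + 1) % n) / 2) - Θ (z ((j + 1) % n) / 2 + χ / 2))) -
        π / 2 * (z j * (x j).low - z ((j + 1) % n) * (x j).high - χ * (x j).along) +
        (π : ℂ) ^ 2 / 2 * (Cv.bit (x j).n1 (x j).n2 (x j).n3 (x j).n4 +
          Cv.bit (x j).n3 (x j).n2 (x j).n1 (x j).n4)) =
      2 * π * I * ∑ j ∈ range n, sv j + (∑ j ∈ range n, I / 2 * (z j * Lg (u j) (z j)) +
        ∑ j ∈ range n, I / 2 * (z ((j + 1) % n) * Lg (u j) (z ((j + 1) % n)))) +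
        I / 2 * χ * ∑ j ∈ range n, Lc (u j) χ -
        (∑ j ∈ range n, (Θ (z j / 2) - Θ (z j / 2 + χ / 2)) -
          ∑ j ∈ range n, (Θ (z ((j + 1) % n) / 2) - Θ (z ((j + 1) % n) / 2 + χ / 2))) -
        (∑ j ∈ range n, π / 2 * (z j * ((x j).low : ℂ)) -
          ∑ j ∈ range n, π / 2 * (z ((j + 1) % n) * ((x j).high : ℂ))) +
        π / 2 * χ * ∑ j ∈ range n, ((x j).along : ℂ) +
        (π : ℂ) ^ 2 / 2 * ∑ j ∈ range n, ((Cv.bit (x j).n1 (x j).n2 (x j).n3 (x j).n4 : ℂ) +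
          Cv.bit (x j).n3 (x j).n2 (x j).n1 (x j).n4) := by
    rw [mul_sum, mul_sum, mul_sum, mul_sum, ← sum_add_distrib, ← sum_add_distrib,
      ← sum_add_distrib, ← sum_sub_distrib, ← sum_sub_distrib, ← sum_sub_distrib,
      ← sum_sub_distrib, ← sum_add_distrib, ← sum_add_distrib]
    refine sum_congr rfl fun j _ => ?_
    ring
  have T : ∑ j ∈ range n, (I * 2 * π * (p j).vl s + I / 2 * z j * lg dl (p j) -
        π / 2 * ((((t j).edges.map across).sum : ℤ) : ℂ) * (z j + π) +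
        (π : ℂ) ^ 2 / 2 *
          (((p j).shape.ws - (p j).wt + ((t j).edges.map Pool.Agent.TH563.CU.bit).sum : ℤ) : ℂ)) =
      2 * π * I * ∑ j ∈ range n, (p j).vl s + ∑ j ∈ range n, I / 2 * (z j * lg dl (p j)) -
        ∑ j ∈ range n, π / 2 * (z j * ((((t j).edges.map across).sum : ℤ) : ℂ)) -
        (π : ℂ) ^ 2 / 2 * ∑ j ∈ range n, ((((t j).edges.map across).sum : ℤ) : ℂ) +
        (π : ℂ) ^ 2 / 2 * (∑ j ∈ range n, ((p j).shape.ws : ℂ) - ∑ j ∈ range n, ((p j).wt : ℂ) +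
          ∑ j ∈ range n, ((((t j).edges.map Pool.Agent.TH563.CU.bit).sum : ℤ) : ℂ)) := by
    rw [← sum_sub_distrib, ← sum_add_distrib, mul_sum, mul_sum, mul_sum, ← sum_add_distrib,
      ← sum_sub_distrib, ← sum_sub_distrib, ← sum_add_distrib]
    refine sum_congr rfl fun j _ => ?_
    push_cast
    ring
  rw [S, T, ← t1, sub_self]
  rw [t2, t6, t4, t5] at v
  rw [t3, t7, t5] at w
  rw [hax]
  have e5 : 2 * π * I * ∑ j ∈ range n, (I * (p j).wt * z j ^ 2 / (4 * π) + I * z j + sv j) =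
      -(1 / 2) * ∑ j ∈ range n, ((p j).wt : ℂ) * z j ^ 2 - 2 * π * ∑ j ∈ range n, z j +
        2 * π * I * ∑ j ∈ range n, sv j := by
    rw [mul_sum, mul_sum, mul_sum, mul_sum, ← sum_sub_distrib, ← sum_add_distrib]
    refine sum_congr rfl fun j _ => ?_
    field_simp
    linear_combination (4 * (((p j).wt : ℂ) * z j ^ 2 + 4 * π * z j)) * Complex.I_sq
  push_cast at hlc hlc' w ⊢
  linear_combination (π : ℂ) ^ 2 / 2 * hlc - (π : ℂ) ^ 2 / 2 * hlc' + v - w - e5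

end

end Pool.Agent.Y482.DX
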