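import Pool.Agent.Y482.DX.CvE
import Pool.Agent.Y481.DX.Axis

/-!
# Rings of trees with their axes, as closures on four strands
-/

set_option autoImplicit false

namespace Pool.Agent.Y482.DX

open Pool.Agent.W711.HT hiding XX
open Pool.Agent.Y481.DR
open Pool.Agent.Y481.DX (JX exy_JX)
open Pool.Agent.TH563.UV (Tb)
open Pool.Agent.W719.AX (EXY)
open scoped Real

/-- the ring with its axis, on four strands -/
def CxFX (ts : List (Tb × Tb)) (m : ℤ) : Prop := ∃ V C : ℝ,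
  CVC (2 * ts.length) 0 (PAx (2 * ts.length) fun j => tj ts (rv (2 * ts.length) j)) V C ∧
  ∀ e f : ℤ, ∃ y : ℕ → ℂ, y 0 ≠ 0 ∧ EXY (fun N => fr e f N * JX ts m N (vN N))
    ((V + Complex.I * ((C + 2 * π ^ 2 * (e + f) : ℝ) : ℂ)) / (2 * π)) y

theorem cxfx_of {ts : List (Tb × Tb)} {m : ℤ} (hts : ts ≠ []) (h : CxA ts m) : CxFX ts m := by
  obtain ⟨v, y, h1, h2, h3⟩ := h
  have hn : 1 ≤ 2 * ts.length := by
    have := List.length_pos_iff.2 hts
    omega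
  obtain ⟨y1, hy1, h4⟩ := exy_JX h2 h3
  refine ⟨2 * π * v.re, 2 * π * v.im, cvc_of (fun y y' f g F G => pax_congr hn) h1,
    fun e f => ?_⟩
  obtain ⟨y', hy', h'⟩ := exy_fr e f hy1 h4
  rw [vform_fr] at h'
  exact ⟨y', hy', h'⟩

/-- rings with their axes -/
theorem allfx : ∃ K : ℝ, 0 < K ∧ ∀ D k : ℕ, 1 ≤ k → ∃ M : ℝ, ∀ (ts : List (Tb × Tb)) (m : ℤ),
    ts.length = k → OkR K D M ts → CxFX ts m := by
  obtain ⟨K, hK, -, h2⟩ := allx
  refine ⟨K, hK, fun D k hk => ?_⟩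
  obtain ⟨M, hM⟩ := h2 D k hk
  refine ⟨M, fun ts m hl h => cxfx_of ?_ (hM ts m hl h)⟩
  rintro rfl
  simp at hl
  omega

end Pool.Agent.Y482.DX
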